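import Pool.Agent.H351.QE.Stm

/-! # Project QE: S_ONE from the lemmas and the library -/

set_option autoImplicit false

open Pool.Agent.EndsLamp

namespace Pool.Agent.H351.QE

open scoped Classical

lemma hasEnds_mono {G : Type*} [Group G] {n k : ℕ} (h : n ≤ k) (hk : HasEnds k G) :
    HasEnds n G := by
  obtain ⟨A, h1, h2, h3⟩ := hk
  exact ⟨fun i => A (Fin.castLE h i), fun i => h1 _, fun i => h2 _,
    fun i j hij => h3 (fun e => hij (Fin.castLE_injective h e))⟩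

lemma LP_mono {G₁ G₂ : Type*} [Group G₁] [Group G₂] {m₁ : WM G₁} {m₂ : WM G₂} {ρ ρ' : ℕ}
    {f : G₁ → G₂} {φ : G₂ → G₁} (hf : LP m₁ m₂ ρ f φ) (h : ρ ≤ ρ') : LP m₁ m₂ ρ' f φ :=
  ⟨fun x y => (hf.fl x y).trans (Nat.mul_le_mul_right _ h),
   fun x y => (hf.gl x y).trans (Nat.mul_le_mul_right _ h),
   fun x => (hf.gf x).trans h, fun x => (hf.fg x).trans h⟩

section

variable {F₁ F₂ H₁ H₂ : Type} [Group F₁] [Group F₂] [Group H₁] [Group H₂] [Finite F₁] [Finite F₂]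
variable {m₁ : WM H₁} {m₂ : WM H₂}

/-- the spread is continuous -/
lemma spread_close {X : Type} [Fintype X] [Nonempty X] (Φ Ψ : X → Lm F₂ H₂) (D : ℕ)
    (h : ∀ x, (lw F₂ m₂).d (Φ x) (Ψ x) ≤ D) : spread m₂ Φ ≤ spread m₂ Ψ + 2 * D := by
  unfold spread
  have h1 : av (fun p : X × X => (m₂.d (ps (Φ p.1)) (ps (Φ p.2)) : ℝ)) ≤
      av (fun p : X × X => (m₂.d (ps (Ψ p.1)) (ps (Ψ p.2)) : ℝ) + 2 * D) := by
    apply av_mono
    intro p
    have e1 := (lw_ps m₂ (Φ p.1) (Ψ p.1)).trans (h p.1)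
    have e2 := (lw_ps m₂ (Φ p.2) (Ψ p.2)).trans (h p.2)
    have e3 := m₂.tri (ps (Φ p.1)) (ps (Ψ p.1)) (ps (Φ p.2))
    have e4 := m₂.tri (ps (Ψ p.1)) (ps (Ψ p.2)) (ps (Φ p.2))
    rw [m₂.d_comm] at e2
    have e5 : m₂.d (ps (Φ p.1)) (ps (Φ p.2)) ≤ m₂.d (ps (Ψ p.1)) (ps (Ψ p.2)) + 2 * D := by omega
    exact_mod_cast e5
  rw [av_add, av_const] at h1
  exact h1

lemma Stp.symm {r k : ℕ} {t t' : Lm F₁ H₁ × (Fin k → H₁)} (h : Stp m₁ r t t') :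
    Stp m₁ r t' t := by
  obtain ⟨h1, h2, h3⟩ := h
  refine ⟨h2, h1, ?_⟩
  rcases h3 with ⟨e, i, b, hb⟩ | ⟨e, hd⟩
  · left
    refine ⟨e.symm, i, t.2 i, ?_⟩
    rw [hb, Function.update_idem, Function.update_eq_self]
  · right
    exact ⟨e.symm, by rwa [(lw F₁ m₁).d_comm]⟩

/-- the cube with fewer lamps -/
lemma pt_face {K i : ℕ} (hi : i ≤ K) (c : Cfg F₁ H₁) (x : H₁) (β : Fin K → H₁)
    (hβ : Function.Injective β) (η : Fin i → F₁) :
    pt (mk c x, β) (fun j : Fin K => if h : (j : ℕ) < i then η ⟨j, h⟩ else c (β j)) =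
      pt (mk c x, fun j : Fin i => β (Fin.castLE hi j)) η := by
  unfold pt
  simp only [cf_mk, ps_mk]
  congr 1
  apply Cfg.ext
  intro z
  have hβ' : Function.Injective fun j : Fin i => β (Fin.castLE hi j) :=
    fun a b h => Fin.castLE_injective hi (hβ h)
  by_cases hz : ∃ j, β j = z
  · obtain ⟨j, rfl⟩ := hz
    rw [cub_apply c hβ]
    by_cases hj : (j : ℕ) < i
    · rw [dif_pos hj]
      have e := cub_apply c hβ' η ⟨j, hj⟩
      exact e.symm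
    · rw [dif_neg hj, cub_not]
      intro j' h
      apply hj
      have := hβ h
      rw [← this]
      exact j'.2
  · push Not at hz
    rw [cub_not c _ hz, cub_not]
    intro j
    exact hz _

end

lemma exists_inj_ball {H : Type} [Group H] (m : WM H) (x : H) (r K : ℕ) (h : K ≤ bl m r) :
    ∃ β : Fin K → H, Function.Injective β ∧ ∀ i, m.d x (β i) ≤ r := by
  have hfin := m.ball_fin 1 r
  have hc : K ≤ hfin.toFinset.card := by
    unfold bl at h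
    rwa [Set.ncard_eq_toFinset_card _ hfin] at h
  obtain ⟨s, hs, hsc⟩ := Finset.exists_subset_card_eq hc
  let e := (s.equivFinOfCardEq hsc).symm
  refine ⟨fun i => x * (e i : H), ?_, ?_⟩
  · intro i j hij
    apply e.injective
    apply Subtype.ext
    exact mul_left_cancel hij
  · intro i
    have h1 : (e i : H) ∈ hfin.toFinset := hs (e i).2
    rw [Set.Finite.mem_toFinset] at h1
    have h2 : m.d 1 (e i : H) ≤ r := h1
    have h3 := m.d_mul x 1 (e i : H)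
    rw [mul_one] at h3
    rw [h3]
    exact h2

theorem one (hgap : S_GAP) (hhor : S_HOR) (hmove : S_MOVE) (hcmt : S_CMT) (hpath : S_PATH) :
    S_ONE := by
  intro F₁ F₂ H₁ H₂ _ _ _ _ _ _ _ _ m₁ m₂ ρ₀ f₀ φ₀ hf₀ h1 h2 hgr
  have : Fintype F₁ := Fintype.ofFinite F₁
  have hf₁ : LP (lw F₁ m₁) (lw F₂ m₂) (ρ₀ + 1) f₀ φ₀ := LP_mono hf₀ (by omega)
  obtain ⟨ρ, hρdef⟩ : ∃ ρ, ρ = ρ₀ + 1 := ⟨_, rfl⟩
  rw [← hρdef] at hf₁
  have hρ : 1 ≤ ρ := by omega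
  obtain ⟨f, φ, K₀, A, hf, hK₀, hA, hAi, hmiss⟩ := limit h1 h2 hf₁
  obtain ⟨C₀, hstar⟩ := star h1 h2 hf hK₀ hA hAi hmiss
  obtain ⟨D, hD⟩ : ∃ D, D = m₂.d 1 (ps (f 1)) := ⟨_, rfl⟩
  obtain ⟨C, hC⟩ : ∃ C, C = 2 * C₀ + 1 := ⟨_, rfl⟩
  obtain ⟨A₁, hA₁⟩ := hgap ρ hρ
  obtain ⟨A₂, hA₂⟩ := hhor ρ C hρ (by omega)
  obtain ⟨R₀, hR₀⟩ := hpath F₁ F₂ H₁ H₂ m₁ m₂ ρ f φ hρ hf (hasEnds_mono (by norm_num) h2)
  obtain ⟨r', hr', hgr'⟩ := hgr (3 * (5 * ρ) ^ 10) (A₁ + A₂ + R₀ + D + 64 * ρ + 1)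
  obtain ⟨r, hr⟩ : ∃ r, r = r' + 1 := ⟨_, rfl⟩
  obtain ⟨a, ha⟩ : ∃ a, a = ρ * (2 * r + 1) := ⟨_, rfl⟩
  have har : 2 * r + 1 ≤ a := ha ▸ Nat.le_mul_of_pos_left _ hρ
  have ha5 : a ≤ 5 * ρ * r' := by
    rw [ha, hr]
    have : 2 * (r' + 1) + 1 ≤ 5 * r' := by omega
    calc ρ * (2 * (r' + 1) + 1) ≤ ρ * (5 * r') := Nat.mul_le_mul_left _ this
      _ = _ := by ring
  have hbl : 3 * a ^ 10 ≤ bl m₁ (r - 1) := by
    have e : r - 1 = r' := by omega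
    rw [e]
    calc 3 * a ^ 10 ≤ 3 * (5 * ρ * r') ^ 10 := by gcongr
      _ = 3 * (5 * ρ) ^ 10 * r' ^ 10 := by ring
      _ ≤ _ := hgr'
  have hbl' : bl m₁ (r - 1) ≤ bl m₁ r := by
    unfold bl
    apply Set.ncard_le_ncard _ (m₁.ball_fin 1 r)
    intro y hy
    have hy' : m₁.d 1 y ≤ r - 1 := hy
    show m₁.d 1 y ≤ r
    omega
  obtain ⟨K, hK⟩ : ∃ K, K = a ^ 10 := ⟨_, rfl⟩
  rw [← hK] at hbl
  obtain ⟨β, hβ, hβr⟩ := exists_inj_ball m₁ 1 r K (by omega)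
  obtain ⟨κ, hκ⟩ := hstar r
  obtain ⟨v', hv', hvd⟩ := hκ 1
  set S : Set H₁ := {x | m₁.d 1 x ≤ r} with hS
  set c : Cfg F₁ H₁ := comb S (cf v') (cf 1) with hc
  have hcS : ∀ x, m₁.d 1 x ≤ r → c x = κ x := by
    intro x hx
    have hxS : x ∈ S := hx
    rw [hc, comb_mem _ _ hxS, hv' x hx]
  have hd1 : (lw F₁ m₁).d 1 (mk c 1) ≤ 2 * (C₀ * (D + r + 1)) := by
    have e1 := modify m₁ S (1 : Lm F₁ H₁) v'
    rw [← hc] at e1
    have e2 : (lw F₁ m₁).d (mk c (ps v')) (mk c 1) ≤ m₁.d (ps v') 1 := lw_leaf m₁ c (ps v') 1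
    have e3 := lw_ps m₁ (1 : Lm F₁ H₁) v'
    have e4 := (lw F₁ m₁).tri 1 (mk c (ps v')) (mk c 1)
    rw [ps_one] at e3
    rw [m₁.d_comm] at e2
    have e5 : (lw F₁ m₁).d 1 v' ≤ C₀ * (D + r + 1) := by rw [hD]; exact hvd
    omega
  have hpos1 : m₂.d 1 (ps (f (mk c 1))) ≤ C * a := by
    have e1 := m₂.tri 1 (ps (f 1)) (ps (f (mk c 1)))
    have e2 := (lw_ps m₂ (f 1) (f (mk c 1))).trans (hf.fl _ _)
    have e3 : ρ * (lw F₁ m₁).d 1 (mk c 1) ≤ ρ * (2 * (C₀ * (D + r + 1))) :=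
      Nat.mul_le_mul_left _ hd1
    have e4 : ρ * (2 * (C₀ * (D + r + 1))) ≤ 2 * C₀ * a := by
      rw [ha]
      have : D + r + 1 ≤ 2 * r + 1 := by omega
      calc ρ * (2 * (C₀ * (D + r + 1))) = 2 * C₀ * (ρ * (D + r + 1)) := by ring
        _ ≤ 2 * C₀ * (ρ * (2 * r + 1)) := by gcongr
    have e5 : D ≤ a := by omega
    rw [hC]
    have e6 : (2 * C₀ + 1) * a = 2 * C₀ * a + a := by ring
    omega
  -- the cube
  set o : Fin K → F₁ := fun j => c (β j) with ho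
  have hval : Val m₁ r ((mk c 1, β) : Lm F₁ H₁ × (Fin K → H₁)) := ⟨hβ, fun i => by simpa using hβr i⟩
  have hcm := (hcmt F₁ F₂ H₁ H₂ m₁ m₂ ρ f φ hf r K).1 _ hval
  rw [← ha] at hcm
  have hpo : pt ((mk c 1, β) : Lm F₁ H₁ × (Fin K → H₁)) o = mk c 1 := by
    unfold pt
    simp only [cf_mk, ps_mk]
    congr 1
    apply Cfg.ext
    intro z
    by_cases hz : ∃ j, β j = z
    · obtain ⟨j, rfl⟩ := hz
      rw [cub_apply c hβ]
    · push Not at hz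
      rw [cub_not c _ hz]
  have hlow : ∀ η : Fin K → F₁, (Finset.univ.filter fun j => η j ≠ o j).card ≤
      C * (m₂.d 1 (ps (f (pt ((mk c 1, β) : Lm F₁ H₁ × (Fin K → H₁)) η))) + a) := by
    intro η
    set v := pt ((mk c 1, β) : Lm F₁ H₁ × (Fin K → H₁)) η with hv
    obtain ⟨w, hw1, hw2⟩ := hκ v
    have e1 : (Finset.univ.filter fun j => η j ≠ o j).card ≤ {z | cf v z ≠ cf w z}.ncard := by
      rw [← Set.ncard_coe_finset]
      apply Set.ncard_le_ncard_of_injOn β (ht := diff_fin (cf v) (cf w))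
      · intro j hj
        simp only [Finset.coe_filter, Finset.mem_univ, true_and] at hj
        show cf v (β j) ≠ cf w (β j)
        rw [hw1 _ (hβr j), ← hcS _ (hβr j)]
        have : cf v (β j) = η j := cub_apply c hβ η j
        rw [this]
        exact hj
      · exact hβ.injOn
    have e2 := lw_count m₁ v w
    have e3 : C₀ * (m₂.d 1 (ps (f v)) + r + 1) ≤ C * (m₂.d 1 (ps (f v)) + a) := by
      apply Nat.mul_le_mul <;> omega
    omega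
  obtain ⟨i, hi1, hi2, hsp⟩ := hA₂ F₂ H₂ F₁ m₂ K a
    (fun η => f (pt ((mk c 1, β) : Lm F₁ H₁ × (Fin K → H₁)) η)) o (by omega) hK.ge hcm hlow
    (by rw [hpo]; exact hpos1)
  have hface : (fun η : Fin i → F₁ => f (pt ((mk c 1, β) : Lm F₁ H₁ × (Fin K → H₁))
      (fun j => if h : (j : ℕ) < i then η ⟨j, h⟩ else o j))) =
      fun η : Fin i → F₁ => f (pt (mk c 1, fun j : Fin i => β (Fin.castLE hi2 j)) η) := by
    funext η
    rw [ho, pt_face hi2 c 1 β hβ η]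
  rw [hface] at hsp
  set t₀ : Lm F₁ H₁ × (Fin i → H₁) := (mk c 1, fun j : Fin i => β (Fin.castLE hi2 j)) with ht₀
  have hval₀ : Val m₁ r t₀ := ⟨fun a b h => Fin.castLE_injective hi2 (hβ h), fun j => hval.2 _⟩
  -- all cubes have large spread
  have hcm' := (hcmt F₁ F₂ H₁ H₂ m₁ m₂ ρ f φ hf r i).1
  have hst := (hcmt F₁ F₂ H₁ H₂ m₁ m₂ ρ f φ hf r i).2
  rw [← ha] at hcm'
  have hgapi : ∀ t : Lm F₁ H₁ × (Fin i → H₁), Val m₁ r t →
      (i : ℝ) / (8 * ρ) ≤ spread m₂ (fun η : Fin i → F₁ => f (pt t η)) ∨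
      spread m₂ (fun η : Fin i → F₁ => f (pt t η)) ≤ (i : ℝ) / (16 * ρ) := fun t ht =>
    hA₁ F₂ H₂ F₁ m₂ i a _ (by omega) hi1 (hcm' t ht)
  have hia : (64 * ρ * a : ℝ) < i := by
    have e1 : 64 * ρ < a := by omega
    have e2 : 64 * ρ * a < a * a := Nat.mul_lt_mul_of_pos_right e1 (by omega)
    have e3 : a * a ≤ a ^ 8 := by
      calc a * a = a ^ 2 := by ring
        _ ≤ a ^ 8 := Nat.pow_le_pow_right (by omega) (by norm_num)
    have e4 : 64 * ρ * a < i := by omega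
    exact_mod_cast e4
  have hρR : (0 : ℝ) < ρ := by exact_mod_cast hρ
  have hstep : ∀ t t' : Lm F₁ H₁ × (Fin i → H₁), Stp m₁ r t t' →
      (i : ℝ) / (8 * ρ) ≤ spread m₂ (fun η : Fin i → F₁ => f (pt t η)) →
      (i : ℝ) / (8 * ρ) ≤ spread m₂ (fun η : Fin i → F₁ => f (pt t' η)) := by
    intro t t' hs hsp
    have e1 := spread_close (m₂ := m₂) (fun η : Fin i → F₁ => f (pt t η))
      (fun η : Fin i → F₁ => f (pt t' η)) (2 * (ρ * (2 * r + 1))) (hst t t' hs)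
    rcases hgapi t' hs.2.1 with h | h
    · exact h
    · exfalso
      have e2 : (i : ℝ) / (8 * ρ) ≤ (i : ℝ) / (16 * ρ) + 2 * ((2 * (ρ * (2 * r + 1)) : ℕ) : ℝ) := by
        linarith
      have e3 : (i : ℝ) / (8 * ρ) = (i : ℝ) / (16 * ρ) + (i : ℝ) / (16 * ρ) := by
        field_simp
        ring
      have e4 : ((2 * (ρ * (2 * r + 1)) : ℕ) : ℝ) = 2 * a := by
        rw [ha]; push_cast; ring
      rw [e3, e4] at e2
      have e5 : (i : ℝ) / (16 * ρ) ≤ 2 * (2 * a) := by linarith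
      rw [div_le_iff₀ (by positivity)] at e5
      nlinarith
  have hchain : ∀ n, ∀ t t' : Lm F₁ H₁ × (Fin i → H₁), Ch m₁ r n t t' →
      (i : ℝ) / (8 * ρ) ≤ spread m₂ (fun η : Fin i → F₁ => f (pt t η)) →
      (i : ℝ) / (8 * ρ) ≤ spread m₂ (fun η : Fin i → F₁ => f (pt t' η)) := by
    intro n
    induction n with
    | zero => intro t t' h; rw [show t = t' from h]; exact id
    | succ n ih =>
      rintro t t' ⟨t'', hs, hc⟩ hsp
      exact ih t'' t' hc (hstep t t'' hs hsp)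
  refine hR₀ r i (by omega) (ha ▸ hi1) (by omega) ?_
  intro t ht
  obtain ⟨n, hn⟩ := (hmove F₁ H₁ m₁ r i (by omega) (by omega)).1 t₀ t hval₀ ht
  exact hchain n t₀ t hn hsp

end Pool.Agent.H351.QE
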