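import Pool.Agent.H351.QE.Gap
import Pool.Agent.H351.QE.One

/-! # Project QE: assembly -/

set_option autoImplicit false

open Pool.Agent.EndsLamp

namespace Pool.Agent.H351.QE

open scoped Classical

lemma hasEnds_one_iff {H : Type} [Group H] : HasEnds 1 H ↔ Infinite H := by
  constructor
  · exact infinite_of_hasEnds one_pos
  · intro h
    refine ⟨fun _ => Set.univ, fun _ => Set.infinite_univ, fun _ g => ?_, fun i j hij =>
      absurd (Subsingleton.elim i j) hij⟩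
    have : (fun x => x * g) '' (Set.univ : Set H) = Set.univ :=
      Set.image_univ_of_surjective (mul_right_surjective g)
    rw [this, symmDiff_self]
    simp

lemma ps_surj {F H : Type} [Group F] [Group H] : Function.Surjective (ps : Lm F H → H) :=
  fun y => ⟨mk c1 y, rfl⟩

/-- If one base is infinite then so is the other. -/
lemma inf_of {F₁ F₂ H₁ H₂ : Type} [Group F₁] [Group F₂] [Group H₁] [Group H₂] [Finite F₁]
    [Finite F₂] {m₁ : WM H₁} {m₂ : WM H₂} {ρ : ℕ} {f : Lm F₁ H₁ → Lm F₂ H₂}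
    {φ : Lm F₂ H₂ → Lm F₁ H₁} (hf : LP (lw F₁ m₁) (lw F₂ m₂) ρ f φ) (h : Infinite H₁) :
    Infinite H₂ := by
  by_contra hfin
  rw [not_infinite_iff_finite] at hfin
  have h1 : (Set.univ : Set (Lm F₂ H₂)).Finite := by
    have := fin_supp (F := F₂) (H := H₂) (Set.toFinite Set.univ) Set.univ (Set.toFinite _)
    refine this.subset fun u _ => ⟨Set.mem_univ _, fun z hz => absurd (Set.mem_univ z) hz⟩
  obtain ⟨n, hn⟩ := (lw F₂ m₂).bdd h1 1
  have h2 : (Set.univ : Set (Lm F₁ H₁)).Finite := by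
    apply (lw F₁ m₁).fin_of_bdd 1 (ρ * (2 * n) + 2 * ρ)
    intro y _
    refine (hf.low 1 y).trans ?_
    have e1 := hn (f 1) (Set.mem_univ _)
    have e2 := hn (f y) (Set.mem_univ _)
    have e3 := (lw F₂ m₂).tri (f 1) 1 (f y)
    rw [(lw F₂ m₂).d_comm] at e1
    have e4 : (lw F₂ m₂).d (f 1) (f y) ≤ 2 * n := by omega
    have := Nat.mul_le_mul_left ρ e4
    omega
  have h3 : (Set.univ : Set H₁).Finite := by
    have := h2.image (ps : Lm F₁ H₁ → H₁)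
    rwa [Set.image_univ_of_surjective ps_surj] at this
  exact Set.infinite_univ h3

/-- two-ended groups have small balls -/
lemma fol_of_two (hpoly : S_POLY) (hlgr : S_LGR) {H : Type} [Group H] {m : WM H}
    {h : H → ℤ} {C : ℕ} (hl : Lin m h C) : Fol m := by
  obtain ⟨D, hD⟩ := hlgr H m h C hl
  exact hpoly H m D 1 0 fun r _ => by simpa using hD r

/-- The case of at least three ends against less than three ends. -/
lemma no_three (hone : S_ONE) (hnon : S_NONAM) (hfol : S_FOL) (hpoly : S_POLY) (htwo : S_TWO)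
    (hlgr : S_LGR) {F₁ F₂ H₁ H₂ : Type} [Group F₁] [Group F₂] [Group H₁] [Group H₂] [Finite F₁]
    [Finite F₂] [Nontrivial F₁] [Nontrivial F₂] {m₁ : WM H₁} {m₂ : WM H₂} {ρ : ℕ}
    {f : Lm F₁ H₁ → Lm F₂ H₂}
    {φ : Lm F₂ H₂ → Lm F₁ H₁} (hf : LP (lw F₁ m₁) (lw F₂ m₂) ρ f φ) (h3 : HasEnds 3 H₂) :
    HasEnds 3 H₁ := by
  have hinf2 : Infinite H₂ := infinite_of_hasEnds (by norm_num) h3
  have hinf : Infinite H₁ := inf_of hf.symm hinf2
  have h1 : HasEnds 1 H₁ := hasEnds_one_iff.mpr hinf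
  have hiso := hnon H₂ m₂ h3
  by_contra hcon
  by_cases h2 : HasEnds 2 H₁
  · obtain ⟨h, C, hl⟩ := htwo H₁ m₁ h2 hcon
    exact hfol F₁ F₂ H₁ H₂ m₁ m₂ ρ f φ hf (fol_of_two hpoly hlgr hl) hiso
  · by_cases hg : ∀ c R₀ : ℕ, ∃ r, R₀ ≤ r ∧ c * r ^ 10 ≤ bl m₁ r
    · exact hone F₁ F₂ H₁ H₂ m₁ m₂ ρ f φ hf ⟨h1, h2⟩ h3 hg
    · push Not at hg
      obtain ⟨c, R₀, hg⟩ := hg
      have : Fol m₁ := hpoly H₁ m₁ c 10 R₀ fun r hr => (hg r hr).le.trans
        (Nat.mul_le_mul_left _ (Nat.pow_le_pow_left (Nat.le_succ r) 10))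
      exact hfol F₁ F₂ H₁ H₂ m₁ m₂ ρ f φ hf this hiso

lemma no_two (htwo : S_TWO) (h12 : S_12) {F₁ F₂ H₁ H₂ : Type} [Group F₁] [Group F₂] [Group H₁]
    [Group H₂] [Finite F₁]
    [Finite F₂] [Nontrivial F₁] [Nontrivial F₂] {m₁ : WM H₁} {m₂ : WM H₂} {ρ : ℕ}
    {f : Lm F₁ H₁ → Lm F₂ H₂}
    {φ : Lm F₂ H₂ → Lm F₁ H₁} (hf : LP (lw F₁ m₁) (lw F₂ m₂) ρ f φ) (h3 : ¬ HasEnds 3 H₂)
    (h2 : HasEnds 2 H₂) : HasEnds 2 H₁ := by
  by_contra hcon
  have hinf2 : Infinite H₂ := infinite_of_hasEnds (by norm_num) h2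
  have hinf : Infinite H₁ := inf_of hf.symm hinf2
  have h1 : HasEnds 1 H₁ := hasEnds_one_iff.mpr hinf
  obtain ⟨h, C, hl⟩ := htwo H₂ m₂ h2 h3
  exact h12 F₁ F₂ H₁ H₂ m₁ m₂ ρ f φ hf ⟨h1, hcon⟩ h C hl

/-- two cardinals one of which is less than three and that have the same lower bounds up to three
are equal -/
lemma card_eq {c d : Cardinal} (h : ∀ n : ℕ, n ≤ 3 → ((n : Cardinal) ≤ c ↔ (n : Cardinal) ≤ d))
    (h3 : ¬ ((3 : ℕ) : Cardinal) ≤ c) : c = d := by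
  have h3' : ¬ ((3 : ℕ) : Cardinal) ≤ d := fun hd => h3 ((h 3 le_rfl).mpr hd)
  push Not at h3 h3'
  have hc : c < Cardinal.aleph0 := h3.trans (Cardinal.natCast_lt_aleph0)
  have hd : d < Cardinal.aleph0 := h3'.trans (Cardinal.natCast_lt_aleph0)
  obtain ⟨n, rfl⟩ := Cardinal.lt_aleph0.mp hc
  obtain ⟨k, rfl⟩ := Cardinal.lt_aleph0.mp hd
  have hn : n < 3 := by exact_mod_cast h3
  have hk : k < 3 := by exact_mod_cast h3'
  have e1 := (h n (by omega)).mp le_rfl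
  have e2 := (h k (by omega)).mpr le_rfl
  have e1' : n ≤ k := by exact_mod_cast e1
  have e2' : k ≤ n := by exact_mod_cast e2
  rw [le_antisymm e1' e2']

theorem asm (hone : S_ONE) (hnon : S_NONAM) (hfol : S_FOL) (hpoly : S_POLY) (htwo : S_TWO)
    (hlgr : S_LGR) (h12 : S_12) (hqi : S_QI) (hends : S_ENDS) (hcont : S_CONT) :
    ∀ (F₁ F₂ H₁ H₂ : Type) [Group F₁] [Group F₂] [Group H₁] [Group H₂]
      [Finite F₁] [Finite F₂] [Nontrivial F₁] [Nontrivial F₂],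
      Group.FG H₁ → Group.FG H₂ →
      ∀ (L₁ : Subgroup (RegularWreathProduct F₁ H₁)) (L₂ : Subgroup (RegularWreathProduct F₂ H₂)),
        L₁ = Lsub F₁ H₁ → L₂ = Lsub F₂ H₂ →
        (∃ (S₁ : Finset ↥L₁) (S₂ : Finset ↥L₂),
          Subgroup.closure (↑S₁ : Set ↥L₁) = ⊤ ∧ Subgroup.closure (↑S₂ : Set ↥L₂) = ⊤ ∧
          ∃ f : ↥L₁ → ↥L₂, ∃ K C : ℝ, 0 < K ∧ 0 ≤ C ∧
            (∀ x y : ↥L₁,
              ((cay S₂).dist (f x) (f y) : ℝ) ≤ K * ((cay S₁).dist x y : ℝ) + C ∧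
              ((cay S₁).dist x y : ℝ) ≤ K * ((cay S₂).dist (f x) (f y) : ℝ) + C) ∧
            (∀ z : ↥L₂, ∃ x : ↥L₁, ((cay S₂).dist z (f x) : ℝ) ≤ C)) →
        ∀ (T₁ : Finset H₁) (T₂ : Finset H₂),
          Subgroup.closure (↑T₁ : Set H₁) = ⊤ → Subgroup.closure (↑T₂ : Set H₂) = ⊤ →
          ends T₁ = ends T₂ := by
  intro F₁ F₂ H₁ H₂ _ _ _ _ _ _ _ _ hfg₁ hfg₂ L₁ L₂ hL₁ hL₂ hQ T₁ T₂ hT₁ hT₂
  have hq := hqi F₁ F₂ H₁ H₂ L₁ L₂ hL₁ hL₂ hQ
  obtain ⟨m₁⟩ := exists_wm hfg₁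
  obtain ⟨m₂⟩ := exists_wm hfg₂
  obtain ⟨ρ, f, φ, hf⟩ := exists_LP (lw F₁ m₁) (lw F₂ m₂) hq
  by_cases h3 : HasEnds 3 H₂
  · have h3' := no_three hone hnon hfol hpoly htwo hlgr hf h3
    rw [hcont H₁ T₁ hT₁ h3', hcont H₂ T₂ hT₂ h3]
  · have h3' : ¬ HasEnds 3 H₁ := fun h =>
      h3 (no_three hone hnon hfol hpoly htwo hlgr hf.symm h)
    apply card_eq
    · intro n hn
      rw [← hends H₁ T₁ hT₁ n, ← hends H₂ T₂ hT₂ n]
      interval_cases n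
      · constructor <;> intro _ <;> exact ⟨fun i => i.elim0, fun i => i.elim0, fun i => i.elim0,
          fun i => i.elim0⟩
      · rw [hasEnds_one_iff, hasEnds_one_iff]
        exact ⟨fun h => inf_of hf h, fun h => inf_of hf.symm h⟩
      · exact ⟨fun h => no_two htwo h12 hf.symm h3' h, fun h => no_two htwo h12 hf h3 h⟩
      · exact ⟨fun h => absurd h h3', fun h => absurd h h3⟩
    · rw [← hends H₁ T₁ hT₁ 3]
      exact h3'

end Pool.Agent.H351.QE
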