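import Pool.Agent.H351.QE.Stm

/-! # Project QE: one-ended base against a coarse line (S_12 from S_CONC), by helper562 -/

set_option autoImplicit false
set_option linter.unusedSectionVars false
set_option linter.deprecated false

open Pool.Agent.EndsLamp

namespace Pool.Agent.H351.QE.B12

open scoped Classical

/-! ### The tour -/

section Tour

variable {F H : Type} [Group F] [Group H] [Finite F]

/-- Restoring the lamps in the levels `p ≤ h z < p + L`. -/
lemma tour (m : WM H) (h : H → ℤ) (C : ℕ) (hL : Lin m h C) : ∃ K : ℕ, ∀ (L : ℕ) (p : ℤ)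
    (u v : Lm F H), (∀ z, cf u z ≠ cf v z → p ≤ h z ∧ h z < p + L) →
    ((lw F m).d u v : ℤ) ≤ C * |h (ps u) - p| + C * |p + L - h (ps v)| + K * L + C := by
  obtain ⟨M, hM⟩ := lw_bdd (F := F) m C
  refine ⟨2 * C + M, fun L => ?_⟩
  have hC0 : (0 : ℤ) ≤ C := Int.natCast_nonneg _
  induction L with
  | zero =>
    intro p u v hz
    have e : cf u = cf v := Cfg.ext fun z => by
      by_contra hne
      have := hz z hne
      push_cast at this
      omega
    have h1 := lw_leaf (F := F) m (cf u) (ps u) (ps v)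
    rw [mk_cf_ps, e, mk_cf_ps] at h1
    have h2 := hL.2 (ps u) (ps v)
    have h3 : |h (ps u) - h (ps v)| ≤ |h (ps u) - p| + |p - h (ps v)| := abs_sub_le _ _ _
    have h4 : ((lw F m).d u v : ℤ) ≤ (m.d (ps u) (ps v) : ℤ) := by exact_mod_cast h1
    have h5 : (C : ℤ) * |h (ps u) - h (ps v)| ≤ C * (|h (ps u) - p| + |p - h (ps v)|) :=
      mul_le_mul_of_nonneg_left h3 hC0
    push_cast
    have e0 : p + 0 - h (ps v) = p - h (ps v) := by ring
    rw [e0]
    nlinarith
  | succ L ih =>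
    intro p u v hz
    have hK : ((2 * C + M : ℕ) : ℤ) * ((L + 1 : ℕ) : ℤ) =
        ((2 * C + M : ℕ) : ℤ) * L + 2 * C + M := by push_cast; ring
    have e0 : p + ((L + 1 : ℕ) : ℤ) = p + 1 + L := by push_cast; ring
    by_cases hex : ∃ z₀, h z₀ = p ∧ cf u z₀ ≠ cf v z₀
    · obtain ⟨z₀, hz₀, -⟩ := hex
      set c' : Cfg F H := comb {z | h z = p} (cf v) (cf u) with hc'
      have h1 := ih (p + 1) (mk c' z₀) v (by
        intro z hne
        rw [cf_mk] at hne
        by_cases hp : h z = p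
        · rw [hc', comb_mem _ _ (show z ∈ {z | h z = p} from hp)] at hne
          exact absurd rfl hne
        · rw [hc', comb_not _ _ (show z ∉ {z | h z = p} from hp)] at hne
          have := hz z hne
          rw [e0] at this
          omega)
      rw [ps_mk, hz₀] at h1
      have h2 := hM z₀ (cf u) c' (by
        intro z hne
        by_cases hp : h z = p
        · have h3 := hL.2 z₀ z
          rw [hz₀, hp, sub_self, abs_zero, mul_zero, zero_add] at h3
          exact_mod_cast h3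
        · rw [hc', comb_not _ _ (show z ∉ {z | h z = p} from hp)] at hne
          exact absurd rfl hne)
      have h3 := lw_leaf (F := F) m (cf u) (ps u) z₀
      rw [mk_cf_ps] at h3
      have h4 := hL.2 (ps u) z₀
      rw [hz₀] at h4
      have h5 := (lw F m).tri u (mk (cf u) z₀) v
      have h6 := (lw F m).tri (mk (cf u) z₀) (mk c' z₀) v
      have h7 : |p - (p + 1)| = 1 := by
        rw [show p - (p + 1) = -1 by ring]; rfl
      rw [h7] at h1
      rw [hK, e0]
      have h8 : ((lw F m).d u v : ℤ) ≤ (m.d (ps u) z₀ : ℤ) + M +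
          ((lw F m).d (mk c' z₀) v : ℤ) := by
        have : (lw F m).d u v ≤ m.d (ps u) z₀ + M + (lw F m).d (mk c' z₀) v := by omega
        exact_mod_cast this
      linarith
    · push Not at hex
      have h1 := ih (p + 1) u v (by
        intro z hne
        have h2 := hz z hne
        have h3 : h z ≠ p := fun e => hne (hex z e)
        rw [e0] at h2
        omega)
      have h3 : |h (ps u) - (p + 1)| ≤ |h (ps u) - p| + 1 := by
        have := abs_sub_le (h (ps u)) p (p + 1)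
        have h7 : |p - (p + 1)| = 1 := by
          rw [show p - (p + 1) = -1 by ring]; rfl
        rw [h7] at this
        exact this
      have h5 : (C : ℤ) * |h (ps u) - (p + 1)| ≤ C * (|h (ps u) - p| + 1) :=
        mul_le_mul_of_nonneg_left h3 hC0
      rw [hK, e0]
      have hM0 : (0 : ℤ) ≤ M := Int.natCast_nonneg _
      nlinarith

/-- Lamps outside the window are not changed along a path whose positions stay in the window. -/
lemma cn_window {m : WM H} (P : H → Prop) {u v : Lm F H}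
    (hcn : Cn (lw F m) {w | P (ps w)} u v) (z : H) (hz : ¬ P z) : cf v z = cf u z := by
  refine hcn.prop (fun w => cf w z = cf u z) (fun a b ha hb hab hPa => ?_) rfl
  rw [← hPa]
  by_contra hne
  have := (lw_step m hab).2 z hne
  simp only [Set.mem_setOf_eq] at ha
  rw [this] at hz
  exact hz ha

end Tour

/-! ### The numeric estimate -/

lemma log_le_two_sqrt {x : ℝ} (hx : 0 < x) : Real.log x ≤ 2 * Real.sqrt x := by
  have h1 : 0 < Real.sqrt x := Real.sqrt_pos.2 hx
  have h2 := Real.log_le_sub_one_of_pos h1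
  rw [Real.log_sqrt hx.le] at h2
  linarith

lemma exists_large (α β : ℝ) (hα : 0 ≤ α) (hβ : 0 ≤ β) : ∃ N : ℕ, 1 ≤ N ∧
    α * Real.sqrt (2 * N * Real.log (100 * (N + 1))) + β < N := by
  obtain ⟨n, hn⟩ := exists_nat_gt (9 * α + β + 1)
  have hn1 : (1 : ℝ) ≤ n := by linarith
  have hn1' : 1 ≤ n := by exact_mod_cast hn1
  refine ⟨n ^ 4, Nat.one_le_pow _ _ hn1', ?_⟩
  have hx : (0 : ℝ) < 100 * (((n ^ 4 : ℕ) : ℝ) + 1) := by positivity
  have h1 := log_le_two_sqrt hx
  have h2 : Real.sqrt (100 * (((n ^ 4 : ℕ) : ℝ) + 1)) ≤ 20 * (n : ℝ) ^ 2 := by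
    rw [Real.sqrt_le_left (by positivity)]
    push_cast
    have : (1 : ℝ) ≤ (n : ℝ) ^ 4 := one_le_pow₀ hn1
    nlinarith
  have h3 : Real.log (100 * (((n ^ 4 : ℕ) : ℝ) + 1)) ≤ 40 * (n : ℝ) ^ 2 := by linarith
  have h4 : Real.sqrt (2 * ((n ^ 4 : ℕ) : ℝ) * Real.log (100 * (((n ^ 4 : ℕ) : ℝ) + 1))) ≤
      9 * (n : ℝ) ^ 3 := by
    rw [Real.sqrt_le_left (by positivity)]
    have h5 : 2 * ((n ^ 4 : ℕ) : ℝ) * Real.log (100 * (((n ^ 4 : ℕ) : ℝ) + 1)) ≤
        2 * ((n ^ 4 : ℕ) : ℝ) * (40 * (n : ℝ) ^ 2) :=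
      mul_le_mul_of_nonneg_left h3 (by positivity)
    refine h5.trans ?_
    push_cast
    have : (0 : ℝ) ≤ (n : ℝ) ^ 6 := by positivity
    nlinarith
  have h5 : α * Real.sqrt (2 * ((n ^ 4 : ℕ) : ℝ) * Real.log (100 * (((n ^ 4 : ℕ) : ℝ) + 1))) ≤
      α * (9 * (n : ℝ) ^ 3) := mul_le_mul_of_nonneg_left h4 hα
  have h6 : (1 : ℝ) ≤ (n : ℝ) ^ 3 := one_le_pow₀ hn1
  push_cast at h5 ⊢
  have h7 : (n : ℝ) ^ 4 = n * (n : ℝ) ^ 3 := by ring
  have h8 : (9 * α + β) * (n : ℝ) ^ 3 < n * (n : ℝ) ^ 3 :=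
    mul_lt_mul_of_pos_right (by linarith) (by positivity)
  have h9 : β ≤ β * (n : ℝ) ^ 3 := le_mul_of_one_le_right hβ h6
  nlinarith

/-! ### Configurations -/

section Conf

variable {F H : Type} [Group F] [Group H] {N r : ℕ}

noncomputable def cc (x : Fin N → Fin r → H) (b : F) (ω : Fin N → Fin r → Bool) : Cfg F H :=
  ⟨fun z => if ∃ i j, x i j = z ∧ ω i j = true then b else 1, by
    apply (Set.finite_range (fun p : Fin N × Fin r => x p.1 p.2)).subset
    intro z hz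
    by_contra hcon
    apply hz
    refine if_neg ?_
    rintro ⟨i, j, h1, -⟩
    exact hcon ⟨(i, j), h1⟩⟩

lemma cc_def (x : Fin N → Fin r → H) (b : F) (ω : Fin N → Fin r → Bool) (z : H) :
    cc x b ω z = if ∃ i j, x i j = z ∧ ω i j = true then b else 1 := rfl

lemma cc_at {x : Fin N → Fin r → H}
    (hx : Function.Injective (fun p : Fin N × Fin r => x p.1 p.2)) (b : F)
    (ω : Fin N → Fin r → Bool) (i : Fin N) (j : Fin r) :
    cc x b ω (x i j) = if ω i j = true then b else 1 := by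
  rw [cc_def]
  by_cases h : ω i j = true
  · rw [if_pos ⟨i, j, rfl, h⟩, if_pos h]
  · rw [if_neg h, if_neg]
    rintro ⟨i', j', h1, h2⟩
    have : (i', j') = (i, j) := hx h1
    simp only [Prod.mk.injEq] at this
    rw [this.1, this.2] at h2
    exact h h2

lemma cc_ne {x : Fin N → Fin r → H}
    (hx : Function.Injective (fun p : Fin N × Fin r => x p.1 p.2)) (b : F)
    (ω ω' : Fin N → Fin r → Bool) {z : H} (h : cc x b ω z ≠ cc x b ω' z) :
    ∃ i j, x i j = z ∧ ω i j ≠ ω' i j := by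
  by_cases hz : ∃ i j, x i j = z
  · obtain ⟨i, j, rfl⟩ := hz
    refine ⟨i, j, rfl, fun e => h ?_⟩
    rw [cc_at hx, cc_at hx, e]
  · exfalso
    apply h
    rw [cc_def, cc_def, if_neg, if_neg]
    · rintro ⟨i, j, h1, -⟩; exact hz ⟨i, j, h1⟩
    · rintro ⟨i, j, h1, -⟩; exact hz ⟨i, j, h1⟩

/-- the number of differences -/
noncomputable def df (ω ω' : Fin N → Fin r → Bool) : ℕ :=
  (Finset.univ.filter fun p : Fin N × Fin r => ω p.1 p.2 ≠ ω' p.1 p.2).card

lemma df_flip (ω ω' : Fin N → Fin r → Bool) :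
    df ω ω' + df ω (fun i j => !ω' i j) = N * r := by
  have h2 : df ω (fun i j => !ω' i j) =
      (Finset.univ.filter fun p : Fin N × Fin r => ¬ (ω p.1 p.2 ≠ ω' p.1 p.2)).card := by
    unfold df
    congr 1
    ext p
    simp
  rw [h2]
  unfold df
  rw [Finset.card_filter_add_card_filter_not]
  simp

lemma df_le [Finite F] (m : WM H) {x : Fin N → Fin r → H}
    (hx : Function.Injective (fun p : Fin N × Fin r => x p.1 p.2)) {b : F} (hb : b ≠ 1)
    (ω ω' : Fin N → Fin r → Bool) :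
    df ω ω' ≤ (lw F m).d (mk (cc x b ω) 1) (mk (cc x b ω') 1) := by
  refine le_trans ?_ (lw_count m _ _)
  simp only [cf_mk]
  unfold df
  rw [← Set.ncard_coe_finset]
  refine Set.ncard_le_ncard_of_injOn (fun p : Fin N × Fin r => x p.1 p.2) ?_ hx.injOn
    (diff_fin _ _)
  rintro ⟨i, j⟩ hp
  simp only [Finset.coe_filter, Finset.mem_univ, true_and, Set.mem_setOf_eq] at hp
  simp only [Set.mem_setOf_eq]
  rw [cc_at hx, cc_at hx]
  have hp' : ω i j ≠ ω' i j := hp
  cases h1 : ω i j <;> cases h2 : ω' i j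
  · exact absurd (h1.trans h2.symm) hp'
  · rw [if_neg (by simp), if_pos rfl]; exact hb.symm
  · rw [if_pos rfl, if_neg (by simp)]; exact hb
  · exact absurd (h1.trans h2.symm) hp'

end Conf

lemma abs_hh {F H : Type} [Group F] [Group H] [Finite F] {m : WM H} {h : H → ℤ} {C : ℕ}
    (hL : Lin m h C) (u v : Lm F H) {a : ℕ} (hd : (lw F m).d u v ≤ a) :
    |(h (ps u) : ℝ) - h (ps v)| ≤ C * a := by
  have h1 := hL.1 (ps u) (ps v)
  have h2 := lw_ps m u v
  have h3 : (m.d (ps u) (ps v) : ℤ) ≤ a := by exact_mod_cast h2.trans hd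
  have h4 : |h (ps u) - h (ps v)| ≤ C * a :=
    h1.trans (mul_le_mul_of_nonneg_left h3 (Int.natCast_nonneg _))
  have h5 : ((|h (ps u) - h (ps v)| : ℤ) : ℝ) ≤ ((C * a : ℤ) : ℝ) := by exact_mod_cast h4
  push_cast at h5
  exact h5

/-- The distance between two good points. -/
lemma good_dist {F H : Type} [Group F] [Group H] [Finite F] {m : WM H} {h : H → ℤ} {C K : ℕ}
    (hL : Lin m h C)
    (hK : ∀ (L : ℕ) (p : ℤ)
      (u v : Lm F H), (∀ z, cf u z ≠ cf v z → p ≤ h z ∧ h z < p + L) →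
      ((lw F m).d u v : ℤ) ≤ C * |h (ps u) - p| + C * |p + L - h (ps v)| + K * L + C)
    {Θ : Type} [Fintype Θ] {N a : ℕ} (Φ : (Fin N → Θ) → Lm F H)
    (hΦ : ∀ η i θ, (lw F m).d (Φ η) (Φ (Function.update η i θ)) ≤ a) {μ τ : ℝ} (hτ : 0 ≤ τ)
    (η η' : Fin N → Θ)
    (hgood : ∀ j, j ≤ N → |(h (ps (Φ (hy j η η'))) : ℝ) - μ| < τ) :
    ((lw F m).d (Φ η) (Φ η') : ℝ) ≤
      (2 * C + K) * (2 * (τ + C * a) + 3) + C := by
  have hCa : (0 : ℝ) ≤ C * a := by positivity
  set P : H → Prop := fun y => |(h y : ℝ) - μ| < τ + C * a with hP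
  have hU : ∀ j, j ≤ N → ∀ z : Lm F H, (lw F m).d (Φ (hy j η η')) z ≤ a → P (ps z) := by
    intro j hj z hz
    have h1 := abs_hh hL _ _ hz
    have h2 := hgood j hj
    have h3 := abs_sub_le (h (ps z) : ℝ) (h (ps (Φ (hy j η η')))) μ
    rw [abs_sub_comm] at h1
    show |(h (ps z) : ℝ) - μ| < τ + C * a
    linarith
  have hcn : ∀ j, j ≤ N → Cn (lw F m) {w | P (ps w)} (Φ η) (Φ (hy j η η')) := by
    intro j
    induction j with
    | zero => intro _; rw [hy_zero]; exact Cn.refl _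
    | succ j ih =>
      intro hj
      refine (ih (by omega)).trans ?_
      refine Cn.of_close (n := a) ?_ (fun z hz => hU j (by omega) z hz)
      rw [hy_succ (show j < N by omega)]
      exact hΦ _ _ _
  have hcnN := hcn N le_rfl
  rw [hy_all le_rfl] at hcnN
  have hP0 : P (ps (Φ η)) := by
    have := hU 0 (by omega) (Φ η) (by rw [hy_zero]; simp)
    exact this
  have hP1 : P (ps (Φ η')) := by
    have := hU N le_rfl (Φ η') (by rw [hy_all le_rfl]; simp)
    exact this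
  set p : ℤ := ⌊μ - τ - C * a⌋ with hp
  set L : ℕ := ⌈2 * (τ + C * a)⌉₊ + 2 with hLdef
  have hp1 : (p : ℝ) ≤ μ - τ - C * a := Int.floor_le _
  have hp2 : μ - τ - C * a < p + 1 := Int.lt_floor_add_one _
  have hL1 : 2 * (τ + C * a) ≤ (⌈2 * (τ + C * a)⌉₊ : ℝ) := Nat.le_ceil _
  have hL2 : (⌈2 * (τ + C * a)⌉₊ : ℝ) < 2 * (τ + C * a) + 1 := Nat.ceil_lt_add_one (by positivity)
  have hL3 : (L : ℝ) = (⌈2 * (τ + C * a)⌉₊ : ℝ) + 2 := by rw [hLdef]; push_cast; ring
  have hwin : ∀ y, P y → p ≤ h y ∧ h y < p + L := by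
    intro y hy
    have hy' : |(h y : ℝ) - μ| < τ + C * a := hy
    rw [abs_lt] at hy'
    constructor
    · have : (p : ℝ) < h y := by linarith
      exact_mod_cast this.le
    · have : (h y : ℝ) < p + L := by linarith
      exact_mod_cast this
  have h1 := hK L p (Φ η) (Φ η') (by
    intro z hz
    apply hwin
    by_contra hcon
    exact hz (cn_window P hcnN z hcon).symm)
  obtain ⟨w1, w2⟩ := hwin _ hP0
  obtain ⟨w3, w4⟩ := hwin _ hP1
  have e1 : |h (ps (Φ η)) - p| ≤ L := by rw [abs_le]; constructor <;> omega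
  have e2 : |p + L - h (ps (Φ η'))| ≤ L := by rw [abs_le]; constructor <;> omega
  have hC0 : (0 : ℤ) ≤ C := Int.natCast_nonneg _
  have e3 := mul_le_mul_of_nonneg_left e1 hC0
  have e4 := mul_le_mul_of_nonneg_left e2 hC0
  have e5 : ((lw F m).d (Φ η) (Φ η') : ℤ) ≤ C * L + C * L + K * L + C := by linarith
  have e6 : ((lw F m).d (Φ η) (Φ η') : ℝ) ≤ C * L + C * L + K * L + C := by exact_mod_cast e5
  have e7 : (L : ℝ) ≤ 2 * (τ + C * a) + 3 := by linarith
  have e8 : (2 * C + K : ℝ) * L ≤ (2 * C + K) * (2 * (τ + C * a) + 3) :=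
    mul_le_mul_of_nonneg_left e7 (by positivity)
  linarith

theorem main (hc : S_CONC) : S_12 := by
  intro F₁ F₂ H₁ H₂ _ _ _ _ _ _ _ m₁ m₂ ρ₀ f φ hf h1 h C₀ hL₀
  set ρ : ℕ := ρ₀ + 1 with hρ
  set C : ℕ := C₀ + 1 with hC
  have hL : Lin m₂ h C := by
    refine ⟨fun x y => (hL₀.1 x y).trans ?_, fun x y => (hL₀.2 x y).trans ?_⟩
    · rw [hC]; push_cast
      have : (0 : ℤ) ≤ m₂.d x y := Int.natCast_nonneg _
      nlinarith
    · rw [hC]; push_cast
      have : (0 : ℤ) ≤ |h x - h y| := abs_nonneg _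
      nlinarith
  have hfl : ∀ x y, (lw F₂ m₂).d (f x) (f y) ≤ ρ * (lw F₁ m₁).d x y := fun x y =>
    (hf.fl x y).trans (Nat.mul_le_mul_right _ (by omega))
  have hlow : ∀ x y, (lw F₁ m₁).d x y ≤ ρ * (lw F₂ m₂).d (f x) (f y) + 2 * ρ := fun x y => by
    have e1 := hf.low x y
    have e2 : ρ₀ * (lw F₂ m₂).d (f x) (f y) ≤ ρ * (lw F₂ m₂).d (f x) (f y) :=
      Nat.mul_le_mul_right _ (by omega)
    omega
  obtain ⟨K, hK⟩ := tour (F := F₂) m₂ h C hL
  have hρ0 : (0 : ℝ) < ρ := by rw [hρ]; positivity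
  have hC0 : (0 : ℝ) < C := by rw [hC]; positivity
  obtain ⟨N, hN1, hN⟩ := exists_large (2 * ρ * (2 * C + K) * (20 * C * ρ))
    (2 * ρ * ((2 * C + K) * (20 * C * ρ + 3) + C + 2)) (by positivity) (by positivity)
  obtain ⟨r, hr, x, hx, -, hrow⟩ := exists_rows (m := m₁) h1 N hN1
  obtain ⟨b, hb⟩ := exists_ne (1 : F₁)
  have hr' : (1 : ℝ) ≤ r := by exact_mod_cast hr
  have hN' : (1 : ℝ) ≤ N := by exact_mod_cast hN1
  set Φ : (Fin N → Fin r → Bool) → Lm F₂ H₂ := fun ω => f (mk (cc x b ω) 1) with hΦ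
  set a : ℕ := ρ * (10 * r) with ha
  have hLipΦ : ∀ ω i θ, (lw F₂ m₂).d (Φ ω) (Φ (Function.update ω i θ)) ≤ a := by
    intro ω i θ
    refine (hfl _ _).trans (Nat.mul_le_mul_left _ ?_)
    obtain ⟨W, hW, hW0, hW1, hWx⟩ := hrow i
    refine rowcost m₁ r W hW hW0 hW1 _ _ ?_
    intro z hz
    obtain ⟨i', j', rfl, hne⟩ := cc_ne hx b _ _ hz
    have : i' = i := by
      by_contra hi
      rw [Function.update_of_ne hi] at hne
      exact hne rfl
    subst this
    exact hWx j'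
  set g : (Fin N → Fin r → Bool) → ℝ := fun ω => (h (ps (Φ ω)) : ℝ) with hg
  set A : ℝ := C * a with hA
  have hA0 : 0 < A := by
    have : (0 : ℝ) < a := by rw [ha]; push_cast; positivity
    positivity
  have hgLip : Lip1 A g := by
    intro ω i θ
    have := abs_hh hL _ _ (hLipΦ ω i θ)
    rw [abs_sub_comm] at this
    exact this
  set X : ℝ := 100 * ((N : ℝ) + 1) with hX
  have hX0 : 0 < X := by rw [hX]; positivity
  have hX1 : 1 ≤ X := by rw [hX]; linarith
  have hlog : 0 ≤ Real.log X := Real.log_nonneg hX1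
  set S : ℝ := Real.sqrt (2 * N * Real.log X) with hS
  set τ : ℝ := A * S with hτ
  have hS0 : 0 ≤ S := Real.sqrt_nonneg _
  have hτ0 : 0 ≤ τ := by positivity
  have hexp : Real.exp (-τ ^ 2 / (2 * A ^ 2 * N)) = X⁻¹ := by
    have e1 : τ ^ 2 = A ^ 2 * (2 * N * Real.log X) := by
      rw [hτ, mul_pow, hS, Real.sq_sqrt (by positivity)]
    have e2 : -τ ^ 2 / (2 * A ^ 2 * N) = - Real.log X := by
      rw [e1]
      field_simp
    rw [e2, Real.exp_neg, Real.exp_log hX0]
  obtain ⟨c1, c2⟩ := hc (Fin r → Bool) N A g hN1 hA0 hgLip τ hτ0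
  rw [hexp] at c1 c2
  set bad : (Fin N → Fin r → Bool) → Prop := fun η => τ ≤ |g η - av g| with hbad
  have hprbad : pr bad ≤ 2 * X⁻¹ := by
    have e1 : pr bad ≤ pr (fun η => av g + τ ≤ g η ∨ g η ≤ av g - τ) := by
      apply pr_mono
      intro η hη
      rcases le_abs.1 (show τ ≤ |g η - av g| from hη) with h' | h'
      · left; linarith
      · right; linarith
    have e2 := pr_or_le (fun η => av g + τ ≤ g η) (fun η => g η ≤ av g - τ)
    linarith
  set badp : (Fin N → Fin r → Bool) × (Fin N → Fin r → Bool) → Prop :=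
    fun p => ∃ j ∈ Finset.range (N + 1), bad (hy j p.1 p.2) with hbadp
  have hprbadp : pr badp ≤ 1 / 50 := by
    have e1 : pr badp ≤ (N + 1) * pr bad := pr_exists_hy bad
    refine e1.trans ?_
    have e2 : ((N : ℝ) + 1) * pr bad ≤ ((N : ℝ) + 1) * (2 * X⁻¹) :=
      mul_le_mul_of_nonneg_left hprbad (by positivity)
    refine e2.trans (le_of_eq ?_)
    rw [hX]
    field_simp
    norm_num
  let fl : (Fin N → Fin r → Bool) ≃ (Fin N → Fin r → Bool) :=
    { toFun := fun ω i j => !ω i j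
      invFun := fun ω i j => !ω i j
      left_inv := fun ω => by funext i j; simp
      right_inv := fun ω => by funext i j; simp }
  have hfl2 : pr (fun p : (Fin N → Fin r → Bool) × (Fin N → Fin r → Bool) =>
      badp (p.1, fl p.2)) ≤ 1 / 50 := by
    have := pr_equiv ((Equiv.refl (Fin N → Fin r → Bool)).prodCongr fl) badp
    refine le_trans (le_of_eq ?_) hprbadp
    exact this
  have hor : pr (fun p : (Fin N → Fin r → Bool) × (Fin N → Fin r → Bool) =>
      badp p ∨ badp (p.1, fl p.2)) < 1 := by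
    have := pr_or_le badp (fun p => badp (p.1, fl p.2))
    linarith
  obtain ⟨⟨ω, ω'⟩, hω⟩ := exists_not_of_pr_lt hor
  push Not at hω
  obtain ⟨hω1, hω2⟩ := hω
  have hgood : ∀ η η' : Fin N → Fin r → Bool, ¬ badp (η, η') →
      ((lw F₂ m₂).d (Φ η) (Φ η') : ℝ) ≤ (2 * C + K) * (2 * (τ + C * a) + 3) + C := by
    intro η η' hη
    apply good_dist hL hK Φ hLipΦ hτ0 (μ := av g)
    intro j hj
    by_contra hcon
    push Not at hcon
    exact hη ⟨j, by rw [Finset.mem_range]; omega, hcon⟩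
  set B : ℝ := (2 * C + K) * (2 * (τ + C * a) + 3) + C with hB
  have hdf : ∀ η η' : Fin N → Fin r → Bool, ¬ badp (η, η') →
      (df η η' : ℝ) ≤ ρ * B + 2 * ρ := by
    intro η η' hη
    have e1 := (df_le m₁ hx hb η η').trans (hlow _ _)
    have e2 : (df η η' : ℝ) ≤ ρ * ((lw F₂ m₂).d (Φ η) (Φ η') : ℝ) + 2 * ρ := by exact_mod_cast e1
    have e3 := mul_le_mul_of_nonneg_left (hgood η η' hη) hρ0.le
    linarith
  have t1 := hdf _ _ hω1
  have t2 := hdf _ _ hω2
  have t3 : ((N * r : ℕ) : ℝ) = (df ω ω' : ℝ) + df ω (fl ω') := by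
    rw [← df_flip ω ω']
    push_cast
    rfl
  push_cast at t3
  have t4 : (N : ℝ) * r ≤ 2 * (ρ * B + 2 * ρ) := by linarith
  have t5 : A = 10 * C * ρ * r := by rw [hA, ha]; push_cast; ring
  have t6 : 2 * (ρ * B + 2 * ρ) =
      2 * ρ * (2 * C + K) * (20 * C * ρ) * S * r + 2 * ρ * (2 * C + K) * (20 * C * ρ) * r +
      2 * ρ * ((2 * C + K) * 3 + C + 2) := by
    rw [hB, ← hA, hτ, t5]
    ring
  have t7 : 2 * ρ * ((2 * C + K) * 3 + C + 2) ≤ 2 * (ρ : ℝ) * ((2 * C + K) * 3 + C + 2) * r :=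
    le_mul_of_one_le_right (by positivity) hr'
  have t8 : (2 * ρ * (2 * C + K) * (20 * C * ρ) * S +
      2 * ρ * ((2 * C + K) * (20 * C * ρ + 3) + C + 2)) * r < N * r :=
    mul_lt_mul_of_pos_right hN (by linarith)
  nlinarith

end Pool.Agent.H351.QE.B12
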