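import Pool.Agent.H351.QE.Defs

/-! # Project QE: averages, resampling, hybrids -/

set_option autoImplicit false
set_option linter.unusedSectionVars false

open Pool.Agent.EndsLamp

namespace Pool.Agent.H351.QE

open scoped Classical

section av

variable {X Y : Type} [Fintype X] [Fintype Y]

lemma av_mono {g h : X → ℝ} (H : ∀ x, g x ≤ h x) : av g ≤ av h := by
  unfold av
  exact div_le_div_of_nonneg_right (Finset.sum_le_sum fun x _ => H x) (by positivity)

lemma av_nonneg {g : X → ℝ} (H : ∀ x, 0 ≤ g x) : 0 ≤ av g := by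
  unfold av
  exact div_nonneg (Finset.sum_nonneg fun x _ => H x) (by positivity)

lemma av_add (g h : X → ℝ) : av (fun x => g x + h x) = av g + av h := by
  unfold av
  rw [Finset.sum_add_distrib, add_div]

lemma av_sub (g h : X → ℝ) : av (fun x => g x - h x) = av g - av h := by
  unfold av
  rw [Finset.sum_sub_distrib, sub_div]

lemma av_const_mul (c : ℝ) (g : X → ℝ) : av (fun x => c * g x) = c * av g := by
  unfold av
  rw [← Finset.mul_sum, mul_div_assoc]

lemma av_mul_const (c : ℝ) (g : X → ℝ) : av (fun x => g x * c) = av g * c := by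
  unfold av
  rw [← Finset.sum_mul, div_mul_eq_mul_div]

lemma av_const [Nonempty X] (c : ℝ) : av (fun _ : X => c) = c := by
  unfold av
  rw [Finset.sum_const, nsmul_eq_mul, Finset.card_univ]
  have : (Fintype.card X : ℝ) ≠ 0 := by
    have := Fintype.card_pos (α := X)
    positivity
  field_simp

lemma av_sum {ι : Type*} (s : Finset ι) (g : ι → X → ℝ) :
    av (fun x => ∑ i ∈ s, g i x) = ∑ i ∈ s, av (g i) := by
  unfold av
  rw [Finset.sum_comm, Finset.sum_div]

lemma av_equiv (e : X ≃ Y) (g : Y → ℝ) : av (fun x => g (e x)) = av g := by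
  unfold av
  rw [Equiv.sum_comp e g, Fintype.card_congr e]

/-- Fubini -/
lemma av_prod (g : X × Y → ℝ) : av g = av fun x => av fun y => g (x, y) := by
  unfold av
  rw [Fintype.sum_prod_type, ← Finset.sum_div, Fintype.card_prod, Nat.cast_mul, div_div,
    mul_comm (Fintype.card X : ℝ)]

lemma av_prod' (g : X × Y → ℝ) : av g = av fun y => av fun x => g (x, y) := by
  rw [← av_equiv (Equiv.prodComm Y X) g, av_prod]
  rfl

lemma av_fst [Nonempty Y] (g : X → ℝ) : av (fun p : X × Y => g p.1) = av g := by
  rw [av_prod]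
  congr 1
  funext x
  exact av_const (X := Y) (g x)

lemma av_snd [Nonempty X] (g : Y → ℝ) : av (fun p : X × Y => g p.2) = av g := by
  rw [av_prod']
  congr 1
  funext y
  exact av_const (X := X) (g y)

lemma exists_le_av [Nonempty X] (g : X → ℝ) : ∃ x, g x ≤ av g := by
  by_contra h
  push Not at h
  have h2 : av g < av g := by
    conv_rhs => unfold av
    rw [lt_div_iff₀ (by have := Fintype.card_pos (α := X); positivity)]
    calc av g * Fintype.card X = ∑ _x : X, av g := by
          rw [Finset.sum_const, nsmul_eq_mul, Finset.card_univ, mul_comm]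
      _ < ∑ x, g x := Finset.sum_lt_sum_of_nonempty Finset.univ_nonempty fun x _ => h x
  exact lt_irrefl _ h2

lemma exists_av_le [Nonempty X] (g : X → ℝ) : ∃ x, av g ≤ g x := by
  obtain ⟨x, hx⟩ := exists_le_av fun x => - g x
  refine ⟨x, ?_⟩
  have : av (fun x => - g x) = - av g := by
    have := av_const_mul (-1) g
    simpa using this
  rw [this] at hx
  linarith

end av

section pr

variable {X Y : Type} [Fintype X] [Fintype Y]

lemma pr_nonneg (P : X → Prop) : 0 ≤ pr P := av_nonneg fun x => by split_ifs <;> norm_num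

lemma pr_mono {P Q : X → Prop} (h : ∀ x, P x → Q x) : pr P ≤ pr Q := by
  apply av_mono
  intro x
  by_cases hP : P x
  · simp [hP, h x hP]
  · by_cases hQ : Q x <;> simp [hP, hQ]

lemma pr_congr {P Q : X → Prop} (h : ∀ x, P x ↔ Q x) : pr P = pr Q := by
  congr 1
  funext x
  exact propext (h x)

lemma pr_le_one (P : X → Prop) : pr P ≤ 1 := by
  unfold pr av
  apply div_le_one_of_le₀ _ (by positivity)
  calc ∑ x, (if P x then (1 : ℝ) else 0) ≤ ∑ _x : X, (1 : ℝ) :=
        Finset.sum_le_sum fun x _ => by split_ifs <;> norm_num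
    _ = _ := by simp

lemma pr_or_le (P Q : X → Prop) : pr (fun x => P x ∨ Q x) ≤ pr P + pr Q := by
  unfold pr
  rw [← av_add]
  apply av_mono
  intro x
  by_cases hP : P x <;> by_cases hQ : Q x <;> simp [hP, hQ]

lemma pr_not [Nonempty X] (P : X → Prop) : pr (fun x => ¬ P x) = 1 - pr P := by
  have h : av (fun _ : X => (1 : ℝ)) = 1 := av_const 1
  have h2 := av_sub (fun _ : X => (1 : ℝ)) (fun x => if P x then (1 : ℝ) else 0)
  rw [h] at h2
  unfold pr
  rw [← h2]
  congr 1
  funext x
  by_cases hP : P x <;> simp [hP]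

lemma pr_exists_le {ι : Type*} (s : Finset ι) (P : ι → X → Prop) :
    pr (fun x => ∃ i ∈ s, P i x) ≤ ∑ i ∈ s, pr (P i) := by
  unfold pr
  rw [← av_sum]
  apply av_mono
  intro x
  by_cases h : ∃ i ∈ s, P i x
  · obtain ⟨i, hi, hP⟩ := h
    refine le_trans (b := (1 : ℝ)) (by split_ifs <;> norm_num) ?_
    calc (1 : ℝ) = if P i x then 1 else 0 := by simp [hP]
      _ ≤ ∑ i ∈ s, if P i x then (1 : ℝ) else 0 :=
        Finset.single_le_sum (f := fun i => if P i x then (1 : ℝ) else 0)
          (fun j _ => by positivity) hi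
  · rw [if_neg h]
    exact Finset.sum_nonneg fun j _ => by positivity

/-- a property of probability less than one fails somewhere -/
lemma exists_not_of_pr_lt [Nonempty X] {P : X → Prop} (h : pr P < 1) : ∃ x, ¬ P x := by
  by_contra hcon
  push Not at hcon
  have : pr P = 1 := by
    rw [pr_congr (Q := fun _ => True) (fun x => by simp [hcon x])]
    unfold pr
    simpa using av_const (X := X) 1
  linarith

lemma exists_of_pr_pos {P : X → Prop} (h : 0 < pr P) : ∃ x, P x := by
  by_contra hcon
  push Not at hcon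
  have : pr P = 0 := by
    unfold pr av
    simp [hcon]
  linarith

lemma pr_equiv (e : X ≃ Y) (P : Y → Prop) : pr (fun x => P (e x)) = pr P :=
  av_equiv e fun y => if P y then (1 : ℝ) else 0

lemma pr_fst [Nonempty Y] (P : X → Prop) : pr (fun p : X × Y => P p.1) = pr P :=
  av_fst (Y := Y) fun x => if P x then (1 : ℝ) else 0

lemma pr_snd [Nonempty X] (P : Y → Prop) : pr (fun p : X × Y => P p.2) = pr P :=
  av_snd (X := X) fun x => if P x then (1 : ℝ) else 0

/-- Markov-type bound -/
lemma pr_eq_card (P : X → Prop) :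
    pr P = ((Finset.univ.filter P).card : ℝ) / Fintype.card X := by
  unfold pr av
  congr 1
  rw [Finset.sum_ite, Finset.sum_const_zero, add_zero, Finset.sum_const, nsmul_eq_mul, mul_one]

end pr

section rs

variable {k : ℕ} {F : Type}

@[simp] lemma rs_self (b : Finset (Fin k)) (η : Fin k → F) : rs b η η = η := by
  funext i; simp [rs]

lemma rs_mem {b : Finset (Fin k)} (η u : Fin k → F) {i : Fin k} (h : i ∈ b) : rs b η u i = u i := by
  simp [rs, h]

lemma rs_not {b : Finset (Fin k)} (η u : Fin k → F) {i : Fin k} (h : i ∉ b) : rs b η u i = η i := by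
  simp [rs, h]

/-- resampling as an involution of the pairs -/
def rsE (b : Finset (Fin k)) : ((Fin k → F) × (Fin k → F)) ≃ ((Fin k → F) × (Fin k → F)) where
  toFun p := (rs b p.1 p.2, rs b p.2 p.1)
  invFun p := (rs b p.1 p.2, rs b p.2 p.1)
  left_inv := by
    rintro ⟨η, u⟩
    simp only [Prod.mk.injEq]
    constructor <;> funext i <;> by_cases h : i ∈ b <;> simp [rs, h]
  right_inv := by
    rintro ⟨η, u⟩
    simp only [Prod.mk.injEq]
    constructor <;> funext i <;> by_cases h : i ∈ b <;> simp [rs, h]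

variable [Fintype F]

/-- If `η, u` are independent and uniform then so are the two resampled points. -/
lemma av_rs (b : Finset (Fin k)) (g : (Fin k → F) × (Fin k → F) → ℝ) :
    av (fun p : (Fin k → F) × (Fin k → F) => g (rs b p.1 p.2, rs b p.2 p.1)) = av g :=
  av_equiv (rsE b) g

lemma pr_rs (b : Finset (Fin k)) (P : (Fin k → F) × (Fin k → F) → Prop) :
    pr (fun p : (Fin k → F) × (Fin k → F) => P (rs b p.1 p.2, rs b p.2 p.1)) = pr P :=
  pr_equiv (rsE b) P

/-- the resampled point is uniform -/
lemma av_rs_fst [Nonempty F] (b : Finset (Fin k)) (g : (Fin k → F) → ℝ) :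
    av (fun p : (Fin k → F) × (Fin k → F) => g (rs b p.1 p.2)) = av g := by
  rw [av_rs b fun p => g p.1, av_fst]

lemma pr_rs_fst [Nonempty F] (b : Finset (Fin k)) (P : (Fin k → F) → Prop) :
    pr (fun p : (Fin k → F) × (Fin k → F) => P (rs b p.1 p.2)) = pr P := by
  rw [pr_rs b fun p => P p.1, pr_fst]

/-- hybrids are resamplings -/
lemma hy_eq_rs (j : ℕ) (η η' : Fin k → F) :
    hy j η η' = rs (Finset.univ.filter fun i : Fin k => (i : ℕ) < j) η η' := by
  funext i
  simp [hy, rs]

@[simp] lemma hy_zero (η η' : Fin k → F) : hy 0 η η' = η := by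
  funext i; simp [hy]

lemma hy_all {j : ℕ} (hj : k ≤ j) (η η' : Fin k → F) : hy j η η' = η' := by
  funext i
  have : (i : ℕ) < j := lt_of_lt_of_le i.2 hj
  simp [hy, this]

lemma hy_succ {j : ℕ} (hj : j < k) (η η' : Fin k → F) :
    hy (j + 1) η η' = Function.update (hy j η η') ⟨j, hj⟩ (η' ⟨j, hj⟩) := by
  funext i
  by_cases h : i = ⟨j, hj⟩
  · subst h; simp [hy]
  · rw [Function.update_of_ne h]
    have h' : (i : ℕ) ≠ j := fun e => h (Fin.ext e)
    unfold hy
    by_cases h2 : (i : ℕ) < j
    · have : (i : ℕ) < j + 1 := by omega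
      simp [h2, this]
    · have : ¬ (i : ℕ) < j + 1 := by omega
      simp [h2, this]

/-- a hybrid of independent uniform points is uniform -/
lemma pr_hy [Nonempty F] (j : ℕ) (P : (Fin k → F) → Prop) :
    pr (fun p : (Fin k → F) × (Fin k → F) => P (hy j p.1 p.2)) = pr P := by
  simp_rw [hy_eq_rs]
  exact pr_rs_fst _ P

/-- union bound over all the hybrids -/
lemma pr_exists_hy [Nonempty F] (P : (Fin k → F) → Prop) :
    pr (fun p : (Fin k → F) × (Fin k → F) => ∃ j ∈ Finset.range (k + 1), P (hy j p.1 p.2)) ≤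
      (k + 1) * pr P := by
  refine (pr_exists_le _ _).trans ?_
  simp_rw [pr_hy]
  rw [Finset.sum_const, nsmul_eq_mul, Finset.card_range]
  push_cast
  exact le_rfl

end rs

end Pool.Agent.H351.QE
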