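import Pool.Agent.H351.QE.Stm

set_option autoImplicit false

/-! # QE/CMT: images of cubes under a quasi-isometry -/

open Pool.Agent.EndsLamp

namespace Pool.Agent.H351.QE.CMT

open scoped Classical
open Pool.Agent.H351.QE

variable {F H : Type} [Group F] [Group H]

lemma cub_update {k : ℕ} (c : Cfg F H) {β : Fin k → H} (hβ : Function.Injective β)
    (η : Fin k → F) (i : Fin k) (θ : F) :
    cub c β (Function.update η i θ) = upd (cub c β η) (β i) θ := by
  apply Cfg.ext
  intro z
  by_cases hz : ∃ j, β j = z
  · obtain ⟨j, rfl⟩ := hz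
    rw [cub_apply c hβ]
    by_cases hj : j = i
    · subst hj
      rw [upd_self, Function.update_self]
    · rw [Function.update_of_ne hj, upd_ne _ _ (fun h => hj (hβ h)), cub_apply c hβ]
  · push Not at hz
    rw [cub_not c _ hz, upd_ne _ _ (fun h => hz i h.symm), cub_not c _ hz]

lemma card_diff [Finite F] (m : WM H) {k : ℕ} (c : Cfg F H) (y : H) {β : Fin k → H}
    (hβ : Function.Injective β) (η η' : Fin k → F) :
    (Finset.univ.filter fun i => η i ≠ η' i).card ≤
      (lw F m).d (mk (cub c β η) y) (mk (cub c β η') y) := by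
  refine le_trans ?_ (lw_count m _ _)
  have hfin : {z | cf (mk (cub c β η) y) z ≠ cf (mk (cub c β η') y) z}.Finite := by
    refine ((cub c β η).2.union (cub c β η').2).subset ?_
    intro z hz
    by_contra hcon
    simp only [Set.mem_union, Function.mem_mulSupport, not_or, not_not] at hcon
    apply hz
    rw [cf_mk, cf_mk]
    change (cub c β η).1 z = (cub c β η').1 z
    rw [hcon.1, hcon.2]
  rw [← Finset.card_map ⟨β, hβ⟩, ← Set.ncard_coe_finset]
  refine Set.ncard_le_ncard ?_ hfin
  intro z hz
  simp only [Finset.coe_map, Function.Embedding.coeFn_mk, Finset.coe_filter, Finset.mem_univ,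
    true_and, Set.mem_image, Set.mem_setOf_eq] at hz
  obtain ⟨i, hi, rfl⟩ := hz
  simp only [Set.mem_setOf_eq, cf_mk]
  rw [cub_apply c hβ, cub_apply c hβ]
  exact hi

lemma swap [Finite F] (m : WM H) {k : ℕ} (r : ℕ) (c : Cfg F H) (y : H) {β β' : Fin k → H}
    (hβ : Function.Injective β) (hβ' : Function.Injective β') (i : Fin k) (b : H)
    (hb : β' = Function.update β i b) (h1 : m.d y (β i) ≤ r) (h2 : m.d y b ≤ r)
    (η : Fin k → F) :
    (lw F m).d (mk (cub c β η) y) (mk (cub c β' η) y) ≤ 2 * (2 * r + 1) := by
  have e : cub c β' η = upd (upd (cub c β η) (β i) (cub c β' η (β i))) b (cub c β' η b) := by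
    apply Cfg.ext
    intro z
    by_cases hzb : z = b
    · rw [hzb, upd_self]
    · rw [upd_ne _ _ hzb]
      by_cases hzi : z = β i
      · rw [hzi, upd_self]
      · rw [upd_ne _ _ hzi]
        by_cases hz : ∃ j, β j = z
        · obtain ⟨j, rfl⟩ := hz
          have hj : j ≠ i := fun h => hzi (by rw [h])
          have e1 : β' j = β j := by rw [hb, Function.update_of_ne hj]
          rw [cub_apply c hβ, ← e1, cub_apply c hβ']
        · push Not at hz
          have hz' : ∀ j, β' j ≠ z := by
            intro j
            by_cases hj : j = i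
            · rw [hj, hb, Function.update_self]
              exact Ne.symm hzb
            · rw [hb, Function.update_of_ne hj]
              exact hz j
          rw [cub_not c _ hz, cub_not c _ hz']
  rw [e]
  generalize cub c β' η (β i) = v1
  generalize cub c β' η b = v2
  have a1 := lw_upd_far m (cub c β η) y (β i) v1
  have a2 := lw_upd_far m (upd (cub c β η) (β i) v1) y b v2
  have a3 := (lw F m).tri (mk (cub c β η) y) (mk (upd (cub c β η) (β i) v1) y)
    (mk (upd (upd (cub c β η) (β i) v1) b v2) y)
  omega

theorem main : S_CMT := by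
  intro F₁ F₂ H₁ H₂ _ _ _ _ _ _ m₁ m₂ ρ f φ hf r k
  refine ⟨?_, ?_⟩
  · rintro ⟨z, β⟩ ⟨hβ, hd⟩
    simp only at hβ hd
    refine ⟨?_, ?_⟩
    · intro η i θ
      have e1 := hf.fl (pt (z, β) η) (pt (z, β) (Function.update η i θ))
      refine e1.trans (Nat.mul_le_mul_left ρ ?_)
      unfold pt
      simp only
      rw [cub_update _ hβ]
      have e2 := lw_upd_far m₁ (cub (cf z) β η) (ps z) (β i) θ
      have e3 := hd i
      omega
    · intro η η'
      have e1 := card_diff m₁ (cf z) (ps z) hβ η η'
      have e2 := hf.low (pt (z, β) η) (pt (z, β) η')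
      exact e1.trans e2
  · rintro ⟨z, β⟩ ⟨z', β'⟩ ⟨⟨hβ, hd⟩, ⟨hβ', hd'⟩, hst⟩ η
    simp only at hβ hd hβ' hd' hst
    have key : (lw F₁ m₁).d (pt (z, β) η) (pt (z', β') η) ≤ 2 * (2 * r + 1) := by
      rcases hst with ⟨h1, i, b, h2⟩ | ⟨h1, h2⟩
      · subst h1
        unfold pt
        simp only
        refine swap m₁ r (cf z) (ps z) hβ hβ' i b h2 (hd i) ?_ η
        have := hd' i
        rwa [h2, Function.update_self] at this
      · subst h1
        unfold pt
        simp only
        rcases lw_step' m₁ h2 with ⟨e1, e2⟩ | ⟨e1, e2⟩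
        · rw [e1]
          have := lw_leaf m₁ (cub (cf z) β η) (ps z) (ps z')
          omega
        · rw [e1]
          have e3 : cub (cf z') β η = upd (cub (cf z) β η) (ps z) (cub (cf z') β η (ps z)) := by
            apply Cfg.ext
            intro x
            by_cases hx : x = ps z
            · rw [hx, upd_self]
            · rw [upd_ne _ _ hx]
              by_cases hz : ∃ j, β j = x
              · obtain ⟨j, rfl⟩ := hz
                rw [cub_apply _ hβ, cub_apply _ hβ]
              · push Not at hz
                rw [cub_not _ _ hz, cub_not _ _ hz, e2, upd_ne _ _ hx]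
          rw [e3]
          generalize cub (cf z') β η (ps z) = v
          have e4 := lw_upd_far m₁ (cub (cf z) β η) (ps z) (ps z) v
          rw [m₁.d_self] at e4
          omega
    have e1 := hf.fl (pt (z, β) η) (pt (z', β') η)
    have e2 := Nat.mul_le_mul_left ρ key
    calc _ ≤ _ := e1
      _ ≤ _ := e2
      _ = 2 * (ρ * (2 * r + 1)) := by ring

end Pool.Agent.H351.QE.CMT
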