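import Pool.Agent.H351.QE.Stm

/-! # Project QE: concentration of measure (S_CONC, S_LOW), by helper562 -/

set_option autoImplicit false

open Pool.Agent.EndsLamp

namespace Pool.Agent.H351.QE.CONC

open scoped Classical

lemma abs_av_le {X : Type} [Fintype X] [Nonempty X] {g : X → ℝ} {c : ℝ} (h : ∀ x, |g x| ≤ c) :
    |av g| ≤ c := by
  rw [abs_le]
  constructor
  · have := av_mono (g := fun _ : X => -c) (h := g) fun x => (abs_le.1 (h x)).1
    rwa [av_const] at this
  · have := av_mono (g := g) (h := fun _ : X => c) fun x => (abs_le.1 (h x)).2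
    rwa [av_const] at this

lemma exp_le_cosh {a x t : ℝ} (ha : 0 < a) (hx : |x| ≤ a) :
    Real.exp (t * x) ≤ Real.cosh (t * a) + (x / a) * Real.sinh (t * a) := by
  obtain ⟨h1, h2⟩ := abs_le.1 hx
  have hA : 0 ≤ (a + x) / (2 * a) := div_nonneg (by linarith) (by linarith)
  have hB : 0 ≤ (a - x) / (2 * a) := div_nonneg (by linarith) (by linarith)
  have hAB : (a + x) / (2 * a) + (a - x) / (2 * a) = 1 := by field_simp; ring
  have h3 := convexOn_exp.2 (Set.mem_univ (t * a)) (Set.mem_univ (-(t * a))) hA hB hAB
  simp only [smul_eq_mul] at h3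
  have e1 : (a + x) / (2 * a) * (t * a) + (a - x) / (2 * a) * -(t * a) = t * x := by
    field_simp; ring
  rw [e1] at h3
  refine h3.trans (le_of_eq ?_)
  rw [Real.cosh_eq, Real.sinh_eq]
  field_simp
  ring

lemma av_exp_le {X : Type} [Fintype X] [Nonempty X] {w : X → ℝ} {a : ℝ} (ha : 0 < a)
    (hw : ∀ x, |w x| ≤ a) (h0 : av w = 0) (t : ℝ) :
    av (fun x => Real.exp (t * w x)) ≤ Real.exp (t ^ 2 * a ^ 2 / 2) := by
  have h1 : av (fun x => Real.exp (t * w x)) ≤
      av (fun x => Real.cosh (t * a) + w x * (Real.sinh (t * a) / a)) := by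
    apply av_mono
    intro x
    refine (exp_le_cosh ha (hw x)).trans (le_of_eq ?_)
    ring
  refine h1.trans ?_
  rw [av_add, av_const, av_mul_const, h0, zero_mul, add_zero]
  refine (Real.cosh_le_exp_half_sq _).trans (le_of_eq ?_)
  congr 1
  ring

lemma mgf {F : Type} [Fintype F] [Nonempty F] {a : ℝ} (ha : 0 < a) (t : ℝ) :
    ∀ (k : ℕ) (g : (Fin k → F) → ℝ), Lip1 a g →
      av (fun η => Real.exp (t * (g η - av g))) ≤ Real.exp (t ^ 2 * a ^ 2 * k / 2) := by
  intro k
  induction k with
  | zero =>
    intro g _
    have h1 : ∀ η : Fin 0 → F, g η = av g := by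
      intro η
      have : g = fun _ => g η := by
        funext x
        rw [Subsingleton.elim x η]
      have h2 : av g = av (fun _ : Fin 0 → F => g η) := by rw [← this]
      rw [h2, av_const]
    have h2 : (fun η => Real.exp (t * (g η - av g))) = fun _ => (1 : ℝ) := by
      funext η
      rw [h1 η, sub_self, mul_zero, Real.exp_zero]
    rw [h2, av_const]
    simp
  | succ k ih =>
    intro g hg
    let e : F × (Fin k → F) ≃ (Fin (k + 1) → F) := Fin.consEquiv (fun _ => F)
    have he : ∀ p : F × (Fin k → F), e p = (Fin.cons p.1 p.2 : Fin (k + 1) → F) := fun p => rfl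
    let h : (Fin k → F) → ℝ := fun η => av fun θ : F => g (e (θ, η))
    have hav : av h = av g := by
      rw [← av_equiv e g, av_prod']
    have hLip : Lip1 a h := by
      intro η i θ
      have e1 : h (Function.update η i θ) - h η =
          av fun θ' : F => g (e (θ', Function.update η i θ)) - g (e (θ', η)) := by
        rw [av_sub]
      rw [e1]
      apply abs_av_le
      intro θ'
      have e2 : e (θ', Function.update η i θ) = Function.update (e (θ', η)) i.succ θ := by
        rw [he, he]
        exact Fin.cons_update (α := fun _ => F) θ' η i θ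
      rw [e2]
      exact hg _ _ _
    have hw : ∀ η θ, |g (e (θ, η)) - h η| ≤ a := by
      intro η θ
      have e1 : g (e (θ, η)) - h η = av fun θ' : F => g (e (θ, η)) - g (e (θ', η)) := by
        rw [av_sub, av_const]
      rw [e1]
      apply abs_av_le
      intro θ'
      have e2 : e (θ, η) = Function.update (e (θ', η)) 0 θ := by
        rw [he, he]
        exact (Fin.update_cons_zero (α := fun _ => F) θ' η θ).symm
      rw [e2]
      exact hg _ _ _
    have hin : ∀ η, av (fun θ : F => Real.exp (t * (g (e (θ, η)) - h η))) ≤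
        Real.exp (t ^ 2 * a ^ 2 / 2) := by
      intro η
      apply av_exp_le ha (hw η)
      rw [av_sub, av_const]
      exact sub_self _
    calc av (fun η => Real.exp (t * (g η - av g)))
        = av (fun p : F × (Fin k → F) => Real.exp (t * (g (e p) - av g))) :=
          (av_equiv e _).symm
      _ = av fun η : Fin k → F => av fun θ : F => Real.exp (t * (g (e (θ, η)) - av g)) :=
          av_prod' _
      _ = av fun η : Fin k → F => Real.exp (t * (h η - av h)) *
            av fun θ : F => Real.exp (t * (g (e (θ, η)) - h η)) := by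
          congr 1
          funext η
          rw [← av_const_mul]
          congr 1
          funext θ
          rw [← Real.exp_add, hav]
          congr 1
          ring
      _ ≤ av fun η : Fin k → F => Real.exp (t * (h η - av h)) *
            Real.exp (t ^ 2 * a ^ 2 / 2) := by
          apply av_mono
          intro η
          exact mul_le_mul_of_nonneg_left (hin η) (Real.exp_nonneg _)
      _ = av (fun η : Fin k → F => Real.exp (t * (h η - av h))) *
            Real.exp (t ^ 2 * a ^ 2 / 2) := av_mul_const _ _
      _ ≤ Real.exp (t ^ 2 * a ^ 2 * k / 2) * Real.exp (t ^ 2 * a ^ 2 / 2) :=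
          mul_le_mul_of_nonneg_right (ih h hLip) (Real.exp_nonneg _)
      _ = Real.exp (t ^ 2 * a ^ 2 * (k + 1 : ℕ) / 2) := by
          rw [← Real.exp_add]
          congr 1
          push_cast
          ring

lemma upper {F : Type} [Fintype F] [Nonempty F] {k : ℕ} {a : ℝ} {g : (Fin k → F) → ℝ}
    (hk : 1 ≤ k) (ha : 0 < a) (hg : Lip1 a g) {s : ℝ} (hs : 0 ≤ s) :
    pr (fun η => av g + s ≤ g η) ≤ Real.exp (-s ^ 2 / (2 * a ^ 2 * k)) := by
  have hk' : (0 : ℝ) < k := by exact_mod_cast hk
  set t : ℝ := s / (a ^ 2 * k) with ht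
  have ht0 : 0 ≤ t := by positivity
  have h1 : pr (fun η => av g + s ≤ g η) ≤
      av (fun η => Real.exp (t * (g η - av g)) * Real.exp (-(t * s))) := by
    apply av_mono
    intro η
    by_cases h : av g + s ≤ g η
    · rw [if_pos h, ← Real.exp_add]
      apply Real.one_le_exp
      have : 0 ≤ t * (g η - av g - s) := mul_nonneg ht0 (by linarith)
      linarith
    · rw [if_neg h]
      positivity
  refine h1.trans ?_
  rw [av_mul_const]
  refine (mul_le_mul_of_nonneg_right (mgf ha t k g hg) (Real.exp_nonneg _)).trans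
    (le_of_eq ?_)
  rw [← Real.exp_add]
  congr 1
  rw [ht]
  field_simp
  ring

theorem conc : S_CONC := by
  intro F _ _ k a g hk ha hg s hs
  refine ⟨upper hk ha hg hs, ?_⟩
  have hg' : Lip1 a (fun η => - g η) := by
    intro η i θ
    have : -g (Function.update η i θ) - -g η = -(g (Function.update η i θ) - g η) := by ring
    rw [this, abs_neg]
    exact hg η i θ
  have h1 := upper hk ha hg' hs
  have h2 : av (fun η => - g η) = - av g := by
    have := av_const_mul (-1) g
    simpa using this
  rw [h2] at h1
  rw [pr_congr (Q := fun η => - av g + s ≤ - g η) fun η => by constructor <;> intro h <;> linarith]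
  exact h1

theorem low (h : S_CONC) : S_LOW := by
  intro F _ _ k a g hk ha hg D δ hδ hδ1 hpr
  by_contra hcon
  push Not at hcon
  have hk' : (0 : ℝ) < k := by exact_mod_cast hk
  set s₀ : ℝ := a * Real.sqrt (2 * k * Real.log (1 / δ)) with hs₀
  have h0 : 0 ≤ s₀ := by positivity
  have hlog : 0 ≤ Real.log (1 / δ) := Real.log_nonneg (by rw [le_div_iff₀ hδ]; linarith)
  have hs : s₀ < av g - D := by linarith
  have h1 := (h F k a g hk ha hg (av g - D) (h0.trans hs.le)).2
  have e1 : av g - (av g - D) = D := by ring
  rw [e1] at h1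
  have h2 : Real.exp (-(av g - D) ^ 2 / (2 * a ^ 2 * k)) < δ := by
    have h3 : Real.exp (-s₀ ^ 2 / (2 * a ^ 2 * k)) = δ := by
      have e2 : s₀ ^ 2 = a ^ 2 * (2 * k * Real.log (1 / δ)) := by
        rw [hs₀, mul_pow, Real.sq_sqrt (by positivity)]
      have e3 : -s₀ ^ 2 / (2 * a ^ 2 * k) = Real.log δ := by
        rw [e2, one_div, Real.log_inv]
        field_simp
      rw [e3, Real.exp_log hδ]
    rw [← h3]
    apply Real.exp_lt_exp.2
    apply div_lt_div_of_pos_right _ (by positivity)
    have : s₀ ^ 2 < (av g - D) ^ 2 := by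
      apply pow_lt_pow_left₀ hs h0 (by norm_num)
    linarith
  linarith

end Pool.Agent.H351.QE.CONC
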