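import Pool.Graph.R_pool_sql_team_seeded_620a6dc7.EndsLamp.Main2

/-!
# Project QE (helper351): frozen S02529, ends of the bases of quasi-isometric lamplighters

Definitions.  All groups, word metrics `WM`, lamplighter groups `Lm F H` with word metric
`lw F m`, pairs of coarse inverse Lipschitz maps `LP`, `HasEnds`, `OneEnded`, ... are those of the
library project `EndsLamp`
(`Pool.Graph.R_pool_sql_team_seeded_620a6dc7.EndsLamp.*`, namespace `Pool.Agent.EndsLamp`).
-/

set_option autoImplicit false

open Pool.Agent.EndsLamp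

namespace Pool.Agent.H351.QE

open scoped Classical

/-! ### averages and probabilities on finite sets -/

/-- the average of a real function on a finite type -/
noncomputable def av {X : Type} [Fintype X] (g : X → ℝ) : ℝ := (∑ x, g x) / Fintype.card X

/-- the proportion of the points of a finite type that satisfy `P` -/
noncomputable def pr {X : Type} [Fintype X] (P : X → Prop) : ℝ := av fun x => if P x then 1 else 0

/-- `g` changes by at most `a` when one coordinate is changed -/
def Lip1 {k : ℕ} {F : Type} (a : ℝ) (g : (Fin k → F) → ℝ) : Prop :=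
  ∀ η i θ, |g (Function.update η i θ) - g η| ≤ a

/-- resampling the coordinates in the block `b`: `u` on `b` and `η` off `b` -/
def rs {k : ℕ} {F : Type} (b : Finset (Fin k)) (η u : Fin k → F) : Fin k → F :=
  fun i => if i ∈ b then u i else η i

/-- hybrid: the first `j` coordinates are those of `η'`, the others those of `η` -/
def hy {k : ℕ} {F : Type} (j : ℕ) (η η' : Fin k → F) : Fin k → F :=
  fun i => if (i : ℕ) < j then η' i else η i

/-! ### cubes of configurations mapped to a lamplighter group -/

section

variable {F₂ H₂ : Type} [Group F₂] [Group H₂]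

/-- A map `Φ` from the cube `Fin k → F` to the lamplighter group `Lm F₂ H₂` which is
`a`-Lipschitz and expanding with constant `ρ` for the Hamming distance. -/
structure CM [Finite F₂] (m₂ : WM H₂) {F : Type} {k : ℕ} (a ρ : ℕ)
    (Φ : (Fin k → F) → Lm F₂ H₂) : Prop where
  lip : ∀ η i θ, (lw F₂ m₂).d (Φ η) (Φ (Function.update η i θ)) ≤ a
  low : ∀ η η', (Finset.univ.filter fun i => η i ≠ η' i).card ≤
    ρ * (lw F₂ m₂).d (Φ η) (Φ η') + 2 * ρ

/-- the average distance between the positions of two points of the image of the cube -/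
noncomputable def spread (m₂ : WM H₂) {X : Type} [Fintype X] (Φ : X → Lm F₂ H₂) : ℝ :=
  av fun p : X × X => (m₂.d (ps (Φ p.1)) (ps (Φ p.2)) : ℝ)

/-- `η` is `δ`-mild for the block `b`: after resampling the coordinates in `b`, the position of
the image is at distance at most `a` from any given point with probability at most `δ`. -/
def Mild (m₂ : WM H₂) {F : Type} [Fintype F] {k : ℕ} (a : ℕ) (δ : ℝ) (b : Finset (Fin k))
    (Φ : (Fin k → F) → Lm F₂ H₂) (η : Fin k → F) : Prop :=
  ∀ y : H₂, pr (fun u : Fin k → F => m₂.d (ps (Φ (rs b η u))) y ≤ a) ≤ δ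

end

/-! ### cubes of lamps and moves between them -/

section

variable {F H : Type} [Group F] [Group H]

/-- the configuration `c`, where the lamp at `β i` has been set to `η i` -/
noncomputable def cub {k : ℕ} (c : Cfg F H) (β : Fin k → H) (η : Fin k → F) : Cfg F H :=
  ⟨fun z => if h : ∃ i, β i = z then η h.choose else c z, by
    apply (c.2.union (Set.finite_range β)).subset
    intro z hz
    by_cases h : ∃ i, β i = z
    · exact Or.inr h
    · left
      simpa [h] using hz⟩

lemma cub_apply {k : ℕ} (c : Cfg F H) {β : Fin k → H} (hβ : Function.Injective β)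
    (η : Fin k → F) (i : Fin k) : cub c β η (β i) = η i := by
  have h : ∃ j, β j = β i := ⟨i, rfl⟩
  have e : (cub c β η) (β i) = if h : ∃ j, β j = β i then η h.choose else c (β i) := rfl
  rw [e, dif_pos h]
  exact congrArg η (hβ h.choose_spec)

lemma cub_not {k : ℕ} (c : Cfg F H) {β : Fin k → H} (η : Fin k → F) {z : H}
    (hz : ∀ i, β i ≠ z) : cub c β η z = c z := by
  have h : ¬ ∃ j, β j = z := fun ⟨j, hj⟩ => hz j hj
  have e : (cub c β η) z = if h : ∃ j, β j = z then η h.choose else c z := rfl
  rw [e, dif_neg h]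

/-- `k` different lamps at distance at most `r` from the position of `z` -/
def Val (m : WM H) (r : ℕ) {k : ℕ} (t : Lm F H × (Fin k → H)) : Prop :=
  Function.Injective t.2 ∧ ∀ i, m.d (ps t.1) (t.2 i) ≤ r

/-- the point of the cube at `(z, β)` with coordinates `η` -/
noncomputable def pt {k : ℕ} (t : Lm F H × (Fin k → H)) (η : Fin k → F) : Lm F H :=
  mk (cub (cf t.1) t.2 η) (ps t.1)

/-- An elementary step: either one of the lamps is replaced by another one, or `z` makes at most
one unit step. -/
def Stp [Finite F] (m : WM H) (r : ℕ) {k : ℕ} (t t' : Lm F H × (Fin k → H)) : Prop :=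
  Val m r t ∧ Val m r t' ∧
    ((t.1 = t'.1 ∧ ∃ i b, t'.2 = Function.update t.2 i b) ∨
      (t.2 = t'.2 ∧ (lw F m).d t.1 t'.1 ≤ 1))

/-- `n` elementary steps -/
def Ch [Finite F] (m : WM H) (r : ℕ) {k : ℕ} :
    ℕ → Lm F H × (Fin k → H) → Lm F H × (Fin k → H) → Prop
  | 0, t, t' => t = t'
  | n + 1, t, t' => ∃ t'', Stp m r t t'' ∧ Ch m r n t'' t'

/-- the number of points of the ball of radius `r` -/
noncomputable def bl (m : WM H) (r : ℕ) : ℕ := {y : H | m.d 1 y ≤ r}.ncard

/-- Some balls are almost as large as larger balls. -/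
def Fol (m : WM H) : Prop := ∀ (R : ℕ) (ε : ℝ), 0 < ε → ∃ r : ℕ,
  (bl m (r + R) : ℝ) ≤ (1 + ε) * bl m r

/-- The group is coarsely a line. -/
def Lin (m : WM H) (h : H → ℤ) (C : ℕ) : Prop :=
  (∀ x y, |h x - h y| ≤ C * (m.d x y : ℤ)) ∧ ∀ x y, (m.d x y : ℤ) ≤ C * |h x - h y| + C

end

end Pool.Agent.H351.QE
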