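import Pool.Agent.H351.QE.Stm

set_option autoImplicit false

open Pool.Agent.EndsLamp

namespace Pool.Agent.H351.QE.ENDS

open scoped Classical Pointwise
open SimpleGraph CategoryTheory

variable {H : Type} [Group H] {T : Finset H} {hT : Subgroup.closure (↑T : Set H) = ⊤}

/-- the word metric of `T` -/
noncomputable abbrev mT (hT : Subgroup.closure (↑T : Set H) = ⊤) : WM H :=
  wm (↑T : Set H) T.finite_toSet hT

lemma adj_iff {x y : H} : (cay T).Adj x y ↔ x ≠ y ∧ ((∃ s ∈ T, y = x * s) ∨ ∃ s ∈ T, x = y * s) := by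
  simp [cay, SimpleGraph.fromRel_adj]

lemma d_le_one {x y : H} : (mT hT).d x y ≤ 1 ↔
    x = y ∨ (cay T).Adj x y := by
  have h1 : (mT hT).d x y ≤ 1 ↔
      x⁻¹ * y ∈ (insert 1 ((↑T : Set H) ∪ (↑T : Set H)⁻¹) : Set H) := by
    have := WM.ofSet_le (insert 1 ((↑T : Set H) ∪ (↑T : Set H)⁻¹) : Set H) (by simp)
      (by
        intro x hx
        rcases hx with rfl | hx | hx
        · simp
        · right; right; simpa using hx
        · right; left; simpa using hx)
      (((T.finite_toSet).union (T.finite_toSet).inv).insert 1) (gen_pow _ hT) (x⁻¹ * y) 1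
    rw [pow_one] at this
    exact this
  rw [h1, adj_iff]
  constructor
  · rintro (h | h | h)
    · left
      exact inv_mul_eq_one.mp h
    · by_cases hxy : x = y
      · exact Or.inl hxy
      · right
        exact ⟨hxy, Or.inl ⟨_, h, by group⟩⟩
    · by_cases hxy : x = y
      · exact Or.inl hxy
      · right
        refine ⟨hxy, Or.inr ⟨_, h, by group⟩⟩
  · rintro (rfl | ⟨-, ⟨s, hs, rfl⟩ | ⟨s, hs, rfl⟩⟩)
    · left; simp
    · right; left; simpa using hs
    · right; right; simpa using hs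

variable (hT)

lemma mk_eq_of_cn {K : Set H} {x y : H} (hx : x ∉ K) (hy : y ∉ K) (h : Cn (mT hT) Kᶜ x y) :
    (cay T).componentComplMk hx = (cay T).componentComplMk hy := by
  have key : ∀ z, Cn (mT hT) Kᶜ x z → ∀ hz : z ∉ K,
      (cay T).componentComplMk hx = (cay T).componentComplMk hz := by
    intro z hz
    unfold Cn at hz
    induction hz with
    | refl => intro _; rfl
    | tail hab hbc ih =>
      intro hc
      rw [ih hbc.1]
      rcases d_le_one.mp hbc.2.2 with h | h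
      · subst h; rfl
      · exact componentComplMk_eq_of_adj _ _ _ h
  exact key y h hy

lemma cn_of_mk_eq {K : Set H} {x y : H} (hx : x ∉ K) (hy : y ∉ K)
    (h : (cay T).componentComplMk hx = (cay T).componentComplMk hy) : Cn (mT hT) Kᶜ x y := by
  rw [ConnectedComponent.eq] at h
  obtain ⟨p⟩ := h
  have key : ∀ (a b : (Kᶜ : Set H)) (_ : ((cay T).induce Kᶜ).Walk a b),
      Cn (mT hT) Kᶜ (a : H) (b : H) := by
    intro a b p
    induction p with
    | nil => exact Cn.refl _
    | cons hadj _ ih =>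
      refine Cn.trans (Cn.step (Subtype.coe_prop _) (Subtype.coe_prop _) ?_) ih
      exact d_le_one.mpr (Or.inr hadj)
  exact key _ _ p

lemma coe_eq_compOf {K : Set H} (C : (cay T).ComponentCompl K) {x : H} (hx : x ∈ C) :
    (C : Set H) = compOf (mT hT) K x := by
  obtain ⟨hxK, rfl⟩ := hx
  ext y
  constructor
  · rintro ⟨hyK, hy⟩
    exact cn_of_mk_eq hT hxK hyK hy.symm
  · intro hy
    have hyK : y ∉ K := Cn.mem hy hxK
    exact ⟨hyK, (mk_eq_of_cn hT hxK hyK hy).symm⟩

lemma coe_isComp {K : Set H} (C : (cay T).ComponentCompl K) : IsComp (mT hT) K (C : Set H) := by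
  obtain ⟨x, hx⟩ := C.nonempty
  rw [coe_eq_compOf hT C hx]
  exact compOf_isComp (ComponentCompl.notMem_of_mem hx)

/-- a decreasing sequence of components -/
structure Seq (m : WM H) where
  K : ℕ → Set H
  C : ℕ → Set H
  comp : ∀ n, IsComp m (K n) (C n)
  ne : ∀ n, (C n).Nonempty
  anti : ∀ n, C (n + 1) ⊆ C n
  exh : ∀ F : Finset H, ∃ n, (F : Set H) ⊆ K n

namespace Seq

variable {hT} (S : Seq (mT hT))

lemma anti' {n n' : ℕ} (h : n ≤ n') : S.C n' ⊆ S.C n := by
  induction h with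
  | refl => exact subset_rfl
  | step _ ih => exact (S.anti _).trans ih

/-- a point of `C n` -/
noncomputable def x (n : ℕ) : H := (S.ne n).choose

lemma hx (n : ℕ) : S.x n ∈ S.C n := (S.ne n).choose_spec

/-- an index with `F ⊆ K n` -/
noncomputable def N (F : Finset H) : ℕ := (S.exh F).choose

lemma hN (F : Finset H) : (F : Set H) ⊆ S.K (S.N F) := (S.exh F).choose_spec

lemma notMem {F : Set H} {n : ℕ} (h : F ⊆ S.K n) {y : H} (hy : y ∈ S.C n) : y ∉ F :=
  fun hF => (S.comp n).disj y hy (h hF)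

/-- the value of the section -/
noncomputable def val (F : Finset H) : (cay T).ComponentCompl (F : Set H) :=
  (cay T).componentComplMk (v := S.x (S.N F)) (S.notMem (S.hN F) (S.hx _))

lemma mk_eq {F : Set H} {n n' : ℕ} (h : F ⊆ S.K n) (h' : F ⊆ S.K n') (hnn : n ≤ n') {y y' : H}
    (hy : y ∈ S.C n) (hy' : y' ∈ S.C n') :
    (cay T).componentComplMk (S.notMem h hy) = (cay T).componentComplMk (S.notMem h' hy') := by
  apply mk_eq_of_cn hT
  apply Cn.mono (fun z hz => ?_) ((S.comp n).conn y hy y' (S.anti' hnn hy'))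
  exact S.notMem h hz

lemma val_eq (F : Finset H) {n : ℕ} (h : (F : Set H) ⊆ S.K n) {y : H} (hy : y ∈ S.C n) :
    S.val F = (cay T).componentComplMk (S.notMem h hy) := by
  rcases le_total (S.N F) n with hle | hle
  · exact S.mk_eq (S.hN F) h hle (S.hx _) hy
  · exact (S.mk_eq h (S.hN F) hle hy (S.hx _)).symm

/-- the section -/
noncomputable def sec : (cay T).componentComplFunctor.sections :=
  ⟨fun F => S.val F.unop, by
    intro L K f
    have hKL : (K.unop : Set H) ⊆ (L.unop : Set H) := le_of_op_hom f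
    exact (S.val_eq K.unop (hKL.trans (S.hN L.unop)) (S.hx _)).symm⟩

lemma sec_apply (F : Finset H) : S.sec.1 (Opposite.op F) = S.val F := rfl

/-- the value at a set containing `K n` is contained in `C n` -/
lemma val_sub (n : ℕ) (F : Finset H) (h : S.K n ⊆ (F : Set H)) :
    ((S.val F : (cay T).ComponentCompl (F : Set H)) : Set H) ⊆ S.C n := by
  have hex : ∃ y ∈ S.C n, y ∈ (S.val F : (cay T).ComponentCompl (F : Set H)) := by
    rcases le_total n (S.N F) with hle | hle
    · exact ⟨S.x (S.N F), S.anti' hle (S.hx _), ⟨S.notMem (S.hN F) (S.hx _), rfl⟩⟩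
    · refine ⟨S.x n, S.hx n, S.notMem (S.hN F) (S.anti' hle (S.hx n)), ?_⟩
      exact (S.val_eq F (S.hN F) (S.anti' hle (S.hx n))).symm
  obtain ⟨y, hy, hyv⟩ := hex
  rw [coe_eq_compOf hT _ hyv]
  intro z hz
  exact Cn.prop hz (fun z => z ∈ S.C n) (fun a b _ hb hab hPa =>
    (S.comp n).clo a hPa b (fun hbK => hb (h hbK)) hab) hy

end Seq

/-- one step: a smaller component outside a larger finite set -/
lemma step_exists (m : WM H) (n : ℕ) {K C : Set H} (hK : K.Finite) (hC : IsComp m K C)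
    (hCi : C.Infinite) : ∃ K' C' : Set H, K'.Finite ∧ IsComp m K' C' ∧ C'.Infinite ∧ C' ⊆ C ∧
      K ⊆ K' ∧ {z | m.d 1 z ≤ n} ⊆ K' := by
  have hf : (K ∪ {z | m.d 1 z ≤ n}).Finite := hK.union (m.ball_fin 1 n)
  obtain ⟨A, hA1, hA2, hA3⟩ := hC.toClo.subcomp hCi Set.subset_union_left hf
    ⟨1, Or.inr (by simp)⟩
  exact ⟨_, A, hf, hA1, hA2, hA3, Set.subset_union_left, Set.subset_union_right⟩

/-- every infinite component contains the value of a section -/
lemma exists_seq {K C : Set H} (hK : K.Finite) (hC : IsComp (mT hT) K C) (hCi : C.Infinite) :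
    ∃ S : Seq (mT hT), S.K 0 = K ∧ S.C 0 = C := by
  let St := {p : Set H × Set H // p.1.Finite ∧ IsComp (mT hT) p.1 p.2 ∧ p.2.Infinite}
  have hstep : ∀ (n : ℕ) (p : St), ∃ q : St, q.1.2 ⊆ p.1.2 ∧ {z | (mT hT).d 1 z ≤ n} ⊆ q.1.1 := by
    rintro n ⟨⟨K, C⟩, h1, h2, h3⟩
    obtain ⟨K', C', h4, h5, h6, h7, -, h8⟩ := step_exists (mT hT) n h1 h2 h3
    exact ⟨⟨⟨K', C'⟩, h4, h5, h6⟩, h7, h8⟩
  choose nx hnx1 hnx2 using hstep
  let sq : ℕ → St := fun n => Nat.rec ⟨⟨K, C⟩, hK, hC, hCi⟩ (fun n p => nx n p) n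
  refine ⟨⟨fun n => (sq n).1.1, fun n => (sq n).1.2, fun n => (sq n).2.2.1,
    fun n => (sq n).2.2.2.nonempty, fun n => hnx1 n (sq n), ?_⟩, rfl, rfl⟩
  intro F
  obtain ⟨n, hn⟩ := (mT hT).bdd F.finite_toSet 1
  exact ⟨n + 1, fun y hy => hnx2 n (sq n) (hn y hy)⟩

lemma sec_ne {S S' : Seq (mT hT)} {n n' : ℕ} (hK : (S.K n).Finite) (hK' : (S'.K n').Finite)
    (hd : Disjoint (S.C n) (S'.C n')) : S.sec ≠ S'.sec := by
  intro h
  let F : Finset H := hK.toFinset ∪ hK'.toFinset
  have h1 : S.val F = S'.val F := by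
    rw [← S.sec_apply, ← S'.sec_apply, h]
  have h2 := S.val_sub n F (by simp [F])
  have h3 := S'.val_sub n' F (by simp [F])
  rw [← h1] at h3
  obtain ⟨y, hy⟩ := (S.val F).nonempty
  exact Set.disjoint_left.mp hd (h2 hy) (h3 hy)

include hT in
lemma hasEnds_of_le (n : ℕ) (h : (n : Cardinal) ≤ ends T) : HasEnds n H := by
  have h1 : Cardinal.mk (Fin n) ≤ Cardinal.mk ↥(cay T).componentComplFunctor.sections := by
    simpa using h
  obtain ⟨e⟩ := Cardinal.le_def _ _ |>.mp h1
  -- a finite set that separates all of them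
  have hsep : ∀ p : Fin n × Fin n, ∃ F : Finset H, p.1 ≠ p.2 →
      (e p.1).1 (Opposite.op F) ≠ (e p.2).1 (Opposite.op F) := by
    rintro ⟨i, j⟩
    by_cases hij : i = j
    · exact ⟨∅, fun h => absurd hij h⟩
    · have hne : (e i) ≠ (e j) := fun h => hij (e.injective h)
      have hne' : ∃ L, (e i).1 L ≠ (e j).1 L := by
        by_contra hcon
        push Not at hcon
        exact hne (Subtype.ext (funext hcon))
      obtain ⟨L, hL⟩ := hne'
      exact ⟨L.unop, fun _ => hL⟩
  choose Fp hFp using hsep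
  let F : Finset H := Finset.univ.biUnion Fp
  have hF : ∀ i j, i ≠ j → (e i).1 (Opposite.op F) ≠ (e j).1 (Opposite.op F) := by
    intro i j hij heq
    have hsub : Fp (i, j) ⊆ F := Finset.subset_biUnion_of_mem Fp (Finset.mem_univ _)
    apply hFp (i, j) hij
    have f : Opposite.op F ⟶ Opposite.op (Fp (i, j)) := opHomOfLE hsub
    exact ((e i).2 f).symm.trans ((congrArg
      (ConcreteCategory.hom ((cay T).componentComplFunctor.map f)) heq).trans ((e j).2 f))
  let D : Fin n → (cay T).ComponentCompl (F : Set H) := fun i => (e i).1 (Opposite.op F)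
  refine ⟨fun i => (D i : Set H), fun i => ?_, fun i => ?_, fun i j hij => ?_⟩
  · exact end_componentCompl_infinite (cay T) (e i) (Opposite.op F)
  · exact (coe_isComp hT (D i)).toClo.almostInvariant F.finite_toSet
  · exact ComponentCompl.pairwise_disjoint (hF i j hij)

include hT in
lemma le_of_hasEnds (n : ℕ) (h : HasEnds n H) : (n : Cardinal) ≤ ends T := by
  obtain ⟨A, hA, hAI, hd⟩ := h
  have hbd : (⋃ i, {x | (∃ y ∈ A i, (mT hT).d x y ≤ 1) ∧ ∃ y, y ∉ A i ∧ (mT hT).d x y ≤ 1}).Finite :=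
    Set.finite_iUnion fun i => ai_bd (hAI i) 1
  obtain ⟨r, hr⟩ := (mT hT).bdd hbd 1
  have hfin : {z | (mT hT).d 1 z ≤ r}.Finite := (mT hT).ball_fin 1 r
  have hclo : ∀ i, Clo (mT hT) {z | (mT hT).d 1 z ≤ r} (A i \ {z | (mT hT).d 1 z ≤ r}) := by
    intro i
    refine ⟨fun x hx => hx.2, fun x hx y hy hxy => ⟨?_, hy⟩⟩
    by_contra hyA
    apply hx.2
    apply hr x
    simp only [Set.mem_iUnion]
    exact ⟨i, ⟨x, hx.1, by simp⟩, y, hyA, hxy⟩
  have hsub : ∀ i, ∃ S : Seq (mT hT), (S.K 0).Finite ∧ S.C 0 ⊆ A i := by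
    intro i
    obtain ⟨C, h1, h2, h3⟩ := (hclo i).subcomp ((hA i).sdiff hfin) subset_rfl hfin ⟨1, by simp⟩
    obtain ⟨S, hS1, hS2⟩ := exists_seq hT hfin h1 h2
    exact ⟨S, hS1 ▸ hfin, hS2 ▸ (h3.trans Set.sdiff_subset)⟩
  choose S hS1 hS2 using hsub
  have hinj : Function.Injective (fun i => (S i).sec) := by
    intro i j hij
    by_contra hne
    exact sec_ne hT (hS1 i) (hS1 j) ((hd hne).mono (hS2 i) (hS2 j)) hij
  have := Cardinal.mk_le_of_injective hinj
  simpa using this

theorem main : S_ENDS := fun _ _ _ hT n => ⟨le_of_hasEnds hT n, hasEnds_of_le hT n⟩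

end Pool.Agent.H351.QE.ENDS

namespace Pool.Agent.H351.QE.CONT

open scoped Classical Pointwise
open SimpleGraph CategoryTheory Pool.Agent.H351.QE.ENDS

variable {H : Type} [Group H] {T : Finset H} (hT : Subgroup.closure (↑T : Set H) = ⊤)

/-- branching step -/
lemma two_steps (m : WM H) (h3 : HasEnds 3 H) (n : ℕ) {K C : Set H} (hK : K.Finite)
    (hC : IsComp m K C) (hCi : C.Infinite) : ∃ K' C₀ C₁ : Set H, K'.Finite ∧ IsComp m K' C₀ ∧
      C₀.Infinite ∧ C₀ ⊆ C ∧ IsComp m K' C₁ ∧ C₁.Infinite ∧ C₁ ⊆ C ∧ Disjoint C₀ C₁ ∧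
      {z | m.d 1 z ≤ n} ⊆ K' := by
  obtain ⟨K', A', A'', hK', hA', hA'i, hA''i, hsub', hsub'', hdis, -⟩ :=
    branch (m := m) h3 hK hC hCi
  set L : Set H := K ∪ K' ∪ {z | m.d 1 z ≤ n} with hL
  have hLf : L.Finite := (hK.union hK').union (m.ball_fin 1 n)
  have hne : L.Nonempty := ⟨1, Or.inr (by simp)⟩
  obtain ⟨C₀, a1, a2, a3⟩ := hA'.toClo.subcomp hA'i (K' := L)
    (fun z hz => Or.inl (Or.inr hz)) hLf hne
  have hclo : Clo m (K ∪ K') (C \ (A' ∪ (K ∪ K'))) := by
    refine ⟨fun x hx hxK => hx.2 (Or.inr hxK), ?_⟩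
    intro x hx y hy hxy
    have hxA : x ∉ A' := fun h => hx.2 (Or.inl h)
    have hyC : y ∈ C := hC.clo x hx.1 y (fun h => hy (Or.inl h)) hxy
    refine ⟨hyC, ?_⟩
    rintro (h | h)
    · apply hxA
      exact hA'.clo y h x (fun hxK => hx.2 (Or.inr (Or.inr hxK))) (by rw [m.d_comm]; exact hxy)
    · exact hy h
  have hinf : (C \ (A' ∪ (K ∪ K'))).Infinite := by
    apply (hA''i.sdiff (hK.union hK')).mono
    rintro z ⟨hz, hzK⟩
    refine ⟨hsub'' hz, ?_⟩
    rintro (h | h)
    · exact Set.disjoint_left.mp hdis h hz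
    · exact hzK h
  obtain ⟨C₁, b1, b2, b3⟩ := hclo.subcomp hinf (K' := L) (fun z hz => Or.inl hz) hLf hne
  refine ⟨L, C₀, C₁, hLf, a1, a2, a3.trans hsub', b1, b2, b3.trans Set.sdiff_subset, ?_,
    Set.subset_union_right⟩
  rw [Set.disjoint_left]
  intro z hz hz'
  exact (b3 hz').2 (Or.inl (a3 hz))

include hT in
lemma lower (h3 : HasEnds 3 H) : Cardinal.continuum ≤ ends T := by
  let St := {p : Set H × Set H // p.1.Finite ∧ IsComp (mT hT) p.1 p.2 ∧ p.2.Infinite}
  have hstep : ∀ (n : ℕ) (p : St), ∃ q : Bool → St, (∀ b, (q b).1.2 ⊆ p.1.2) ∧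
      (∀ b, {z | (mT hT).d 1 z ≤ n} ⊆ (q b).1.1) ∧ Disjoint (q true).1.2 (q false).1.2 := by
    rintro n ⟨⟨K, C⟩, h1, h2, h3'⟩
    obtain ⟨K', C₀, C₁, c1, c2, c3, c4, c5, c6, c7, c8, c9⟩ := two_steps (mT hT) h3 n h1 h2 h3'
    refine ⟨fun b => if b then ⟨⟨K', C₀⟩, c1, c2, c3⟩ else ⟨⟨K', C₁⟩, c1, c5, c6⟩, ?_, ?_, ?_⟩
    · intro b; cases b
      · exact c7
      · exact c4
    · intro b; cases b
      · exact c9
      · exact c9
    · exact c8
  choose nx hnx1 hnx2 hnx3 using hstep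
  -- initial state
  haveI : Infinite H := infinite_of_hasEnds (by norm_num) h3
  have hclo : Clo (mT hT) (∅ : Set H) Set.univ := ⟨fun _ _ h => h, fun _ _ _ _ _ => trivial⟩
  obtain ⟨A, hA1, hA2, -⟩ := hclo.subcomp Set.infinite_univ (K' := {1})
    (Set.empty_subset _) (Set.finite_singleton 1) (Set.singleton_nonempty 1)
  let p₀ : St := ⟨⟨{1}, A⟩, Set.finite_singleton 1, hA1, hA2⟩
  let sq : (ℕ → Bool) → ℕ → St := fun α n => Nat.rec p₀ (fun n p => nx n p (α n)) n
  have sq_succ : ∀ α n, sq α (n + 1) = nx n (sq α n) (α n) := fun _ _ => rfl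
  let S : (ℕ → Bool) → Seq (mT hT) := fun α =>
    ⟨fun n => (sq α n).1.1, fun n => (sq α n).1.2, fun n => (sq α n).2.2.1,
      fun n => (sq α n).2.2.2.nonempty, fun n => hnx1 n (sq α n) (α n), fun F => by
        obtain ⟨n, hn⟩ := (mT hT).bdd F.finite_toSet 1
        exact ⟨n + 1, fun y hy => hnx2 n (sq α n) (α n) (hn y hy)⟩⟩
  have hinj : Function.Injective (fun α => (S α).sec) := by
    intro α β hαβ
    by_contra hne
    have hex : ∃ n, α n ≠ β n := by
      by_contra hcon
      push Not at hcon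
      exact hne (funext hcon)
    let n := Nat.find hex
    have hn : α n ≠ β n := Nat.find_spec hex
    have hlt : ∀ k < n, α k = β k := fun k hk => not_not.mp (Nat.find_min hex hk)
    have heq : ∀ k ≤ n, sq α k = sq β k := by
      intro k
      induction k with
      | zero => intro _; rfl
      | succ k ih =>
        intro hk
        rw [sq_succ, sq_succ, ih (by omega), hlt k (by omega)]
    have hd : Disjoint ((S α).C (n + 1)) ((S β).C (n + 1)) := by
      show Disjoint (sq α (n + 1)).1.2 (sq β (n + 1)).1.2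
      rw [sq_succ, sq_succ, heq n le_rfl]
      have hd0 := hnx3 n (sq β n)
      cases hα : α n <;> cases hβ : β n
      · exact absurd (hα.trans hβ.symm) hn
      · exact hd0.symm
      · exact hd0
      · exact absurd (hα.trans hβ.symm) hn
    exact sec_ne hT (sq α (n + 1)).2.1 (sq β (n + 1)).2.1 hd hαβ
  have := Cardinal.mk_le_of_injective hinj
  simpa using this

include hT in
lemma countable_H : Countable H := by
  have h : (Set.univ : Set H) = ⋃ n : ℕ, {y | (mT hT).d 1 y ≤ n} := by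
    ext y
    simp only [Set.mem_univ, Set.mem_iUnion, Set.mem_setOf_eq, true_iff]
    exact ⟨_, le_rfl⟩
  have h2 : (Set.univ : Set H).Countable := by
    rw [h]
    exact Set.countable_iUnion fun n => ((mT hT).ball_fin 1 n).countable
  exact Set.countable_univ_iff.mp h2

include hT in
lemma upper : ends T ≤ Cardinal.continuum := by
  haveI : Countable H := countable_H hT
  let D : ↥(cay T).componentComplFunctor.sections → (F : Finset H) →
      (cay T).ComponentCompl (F : Set H) := fun s F => s.1 (Opposite.op F)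
  let φ : ↥(cay T).componentComplFunctor.sections → (Finset H → Set H) := fun s F =>
    (D s F : Set H)
  have hφ : Function.Injective φ := by
    intro s s' h
    apply Subtype.ext
    funext F
    have h1 : (D s F.unop : Set H) = (D s' F.unop : Set H) := congrFun h F.unop
    have h2 : D s F.unop = D s' F.unop := SetLike.coe_injective h1
    exact h2
  refine (Cardinal.mk_le_of_injective hφ).trans ?_
  have h1 : Cardinal.mk (Finset H → Set H) =
      (2 ^ Cardinal.mk H) ^ Cardinal.mk (Finset H) := by simp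
  rw [h1, ← Cardinal.power_mul]
  have h2 : Cardinal.mk H * Cardinal.mk (Finset H) ≤ Cardinal.aleph0 := by
    calc _ ≤ Cardinal.aleph0 * Cardinal.aleph0 :=
          mul_le_mul' (Cardinal.mk_le_aleph0) (Cardinal.mk_le_aleph0)
      _ = Cardinal.aleph0 := Cardinal.aleph0_mul_aleph0
  calc _ ≤ (2 : Cardinal) ^ Cardinal.aleph0 := Cardinal.power_le_power_left two_ne_zero h2
    _ = Cardinal.continuum := Cardinal.two_power_aleph0

theorem main : S_CONT := fun _ _ _ hT h3 => le_antisymm (upper hT) (lower hT h3)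

end Pool.Agent.H351.QE.CONT
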