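import Pool.Agent.H351.QE.NONAM

/-! # Project QE: Folner balls in the base give Folner sets in the other base -/

set_option autoImplicit false

open Pool.Agent.EndsLamp

namespace Pool.Agent.H351.QE.FOL

open scoped Classical

open NONAM (card_cover)

/-- The isoperimetric inequality passes from the base to the lamplighter group. -/
lemma iso {F H : Type} [Group F] [Group H] [Finite F] (m : WM H) (C : ℕ)
    (hC : ∀ Ω : Finset H, Ω.card ≤ C * (Ω.filter fun y => ∃ z, z ∉ Ω ∧ m.d y z ≤ 1).card)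
    (Ω : Finset (Lm F H)) :
    Ω.card ≤ C * (Ω.filter fun v => ∃ w, w ∉ Ω ∧ (lw F m).d v w ≤ 1).card := by
  set bd := Ω.filter fun v => ∃ w, w ∉ Ω ∧ (lw F m).d v w ≤ 1 with hbd
  have hinj : ∀ c : Cfg F H, Set.InjOn (ps : Lm F H → H) {v | cf v = c} := by
    intro c v hv w hw h
    rw [← mk_cf_ps v, ← mk_cf_ps w, h, show cf v = c from hv, show cf w = c from hw]
  have h1 : ∀ c : Cfg F H, (Ω.filter fun v => cf v = c).card ≤
      C * (bd.filter fun v => cf v = c).card := by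
    intro c
    set Y := (Ω.filter fun v => cf v = c).image ps with hY
    have hYmem : ∀ y, y ∈ Y ↔ mk c y ∈ Ω := by
      intro y
      rw [hY, Finset.mem_image]
      constructor
      · rintro ⟨v, hv, rfl⟩
        rw [Finset.mem_filter] at hv
        rw [← hv.2, mk_cf_ps]
        exact hv.1
      · intro h
        exact ⟨mk c y, Finset.mem_filter.mpr ⟨h, rfl⟩, rfl⟩
    have e1 : Y.card = (Ω.filter fun v => cf v = c).card := by
      apply Finset.card_image_of_injOn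
      intro v hv w hw h
      rw [Finset.mem_coe, Finset.mem_filter] at hv hw
      exact hinj c hv.2 hw.2 h
    have e2 : (Y.filter fun y => ∃ z, z ∉ Y ∧ m.d y z ≤ 1).card ≤
        (bd.filter fun v => cf v = c).card := by
      apply Finset.card_le_card_of_injOn (fun y => (mk c y : Lm F H))
      · intro y hy
        rw [Finset.mem_coe, Finset.mem_filter] at hy
        obtain ⟨hy, z, hz, hyz⟩ := hy
        rw [Finset.mem_coe, Finset.mem_filter, hbd, Finset.mem_filter]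
        refine ⟨⟨(hYmem y).mp hy, mk c z, fun h => hz ((hYmem z).mpr h), ?_⟩, rfl⟩
        exact (lw_leaf m c y z).trans hyz
      · intro y _ z _ h
        have := congrArg ps h
        simpa using this
    rw [← e1]
    exact (hC Y).trans (Nat.mul_le_mul_left _ e2)
  have h2 : Ω.card = ∑ c ∈ Ω.image cf, (Ω.filter fun v => cf v = c).card :=
    Finset.card_eq_sum_card_image cf Ω
  have h3 : ∑ c ∈ Ω.image cf, (bd.filter fun v => cf v = c).card = bd.card := by
    have hsub : bd.image cf ⊆ Ω.image cf := Finset.image_subset_image (Finset.filter_subset _ _)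
    rw [Finset.card_eq_sum_card_image cf bd]
    symm
    apply Finset.sum_subset hsub
    intro c _ hc
    rw [Finset.card_eq_zero, Finset.filter_eq_empty_iff]
    intro v hv h
    exact hc (h ▸ Finset.mem_image_of_mem _ hv)
  rw [h2, ← h3, Finset.mul_sum]
  exact Finset.sum_le_sum fun c _ => h1 c

lemma cfg_fin {F H : Type} [Group F] [Group H] [Finite F] {B : Set H} (hB : B.Finite) :
    {c : Cfg F H | ∀ z, z ∉ B → c z = 1}.Finite := by
  have h := (fin_supp (F := F) hB {(1 : H)} (Set.finite_singleton 1)).image (cf : Lm F H → Cfg F H)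
  apply h.subset
  intro c hc
  exact ⟨mk c 1, ⟨by simp, hc⟩, rfl⟩

lemma aux1 {x y z ε : ℝ} (h3 : x + z = y) (hr : y ≤ (1 + ε) * x) (h4 : x ≤ y) (hε : 0 < ε) :
    z ≤ ε * y := by
  nlinarith

lemma aux2 {p z ε b : ℝ} (hp : 0 ≤ p) (h : z ≤ ε * b) : p * z ≤ ε * (p * b) := by
  calc p * z ≤ p * (ε * b) := mul_le_mul_of_nonneg_left h hp
    _ = _ := by ring

lemma aux3 {w z D ε : ℝ} (hD : 0 ≤ D) (h5 : w ≤ D * z) (hz : z ≤ ε * w) (h6 : 0 < w)
    (h8 : D * ε < 1) : False := by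
  have h7 : D * z ≤ D * (ε * w) := mul_le_mul_of_nonneg_left hz hD
  have h9 : D * (ε * w) = (D * ε) * w := by ring
  have h10 : (D * ε) * w < 1 * w := mul_lt_mul_of_pos_right h8 h6
  linarith

theorem main : S_FOL := by
  rintro F₁ F₂ H₁ H₂ _ _ _ _ _ _ m₁ m₂ ρ f φ hf hFol ⟨C, hC⟩
  obtain ⟨V, hV⟩ := card_cover (m := lw F₂ m₂) ρ
  obtain ⟨V', hV'⟩ := card_cover (m := lw F₁ m₁) ρ
  set R := ρ + ρ * (ρ + 1) with hR
  set ε : ℝ := 1 / (V' * C * V + 1) with hε
  have hε0 : 0 < ε := by positivity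
  obtain ⟨r, hr⟩ := hFol R ε hε0
  -- the Folner set
  set B : Set H₁ := {y | m₁.d 1 y ≤ r + R} with hB
  have hBf : B.Finite := m₁.ball_fin 1 (r + R)
  have hBf' : {y | m₁.d 1 y ≤ r}.Finite := m₁.ball_fin 1 r
  set P : Finset (Cfg F₁ H₁) := (cfg_fin (F := F₁) hBf).toFinset with hP
  have hPmem : ∀ c, c ∈ P ↔ ∀ z, z ∉ B → c z = 1 := by
    intro c
    rw [hP, Set.Finite.mem_toFinset]
    rfl
  set Ω₁ : Finset (Lm F₁ H₁) := (P ×ˢ hBf.toFinset).image fun p => mk p.1 p.2 with hΩ₁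
  set Z : Finset (Lm F₁ H₁) :=
    (P ×ˢ (hBf.toFinset \ hBf'.toFinset)).image fun p => mk p.1 p.2 with hZ
  have hinj : Function.Injective fun p : Cfg F₁ H₁ × H₁ => (mk p.1 p.2 : Lm F₁ H₁) := by
    rintro ⟨c, y⟩ ⟨c', y'⟩ h
    simp only at h
    have h1 := congrArg cf h
    have h2 := congrArg ps h
    simp only [cf_mk, ps_mk] at h1 h2
    rw [h1, h2]
  have hΩmem : ∀ v, v ∈ Ω₁ ↔ (∀ z, z ∉ B → cf v z = 1) ∧ m₁.d 1 (ps v) ≤ r + R := by
    intro v
    rw [hΩ₁, Finset.mem_image]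
    constructor
    · rintro ⟨⟨c, y⟩, hp, rfl⟩
      rw [Finset.mem_product, hPmem, Set.Finite.mem_toFinset] at hp
      exact ⟨hp.1, hp.2⟩
    · rintro ⟨h1, h2⟩
      refine ⟨(cf v, ps v), ?_, mk_cf_ps v⟩
      rw [Finset.mem_product, hPmem, Set.Finite.mem_toFinset]
      exact ⟨h1, h2⟩
  have hZmem : ∀ v, v ∈ Ω₁ → r < m₁.d 1 (ps v) → v ∈ Z := by
    intro v hv hd
    rw [hΩmem] at hv
    rw [hZ, Finset.mem_image]
    refine ⟨(cf v, ps v), ?_, mk_cf_ps v⟩
    rw [Finset.mem_product, hPmem, Finset.mem_sdiff, Set.Finite.mem_toFinset,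
      Set.Finite.mem_toFinset]
    refine ⟨hv.1, hv.2, fun h => ?_⟩
    have h' : m₁.d 1 (ps v) ≤ r := h
    omega
  have hcardΩ : Ω₁.card = P.card * bl m₁ (r + R) := by
    rw [hΩ₁, Finset.card_image_of_injective _ hinj, Finset.card_product]
    congr 1
    exact (Set.ncard_eq_toFinset_card _ hBf).symm
  have hbl : bl m₁ r + (hBf.toFinset \ hBf'.toFinset).card = bl m₁ (r + R) := by
    have hsub : hBf'.toFinset ⊆ hBf.toFinset := by
      intro y hy
      rw [Set.Finite.mem_toFinset] at hy ⊢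
      have h' : m₁.d 1 y ≤ r := hy
      show m₁.d 1 y ≤ r + R
      omega
    rw [Finset.card_sdiff_of_subset hsub]
    have h1 := Finset.card_le_card hsub
    have e1 : bl m₁ r = hBf'.toFinset.card := Set.ncard_eq_toFinset_card _ hBf'
    have e2 : bl m₁ (r + R) = hBf.toFinset.card := Set.ncard_eq_toFinset_card _ hBf
    omega
  have hcardZ : (Z.card : ℝ) ≤ ε * Ω₁.card := by
    have h1 : Z.card = P.card * (hBf.toFinset \ hBf'.toFinset).card := by
      rw [hZ, Finset.card_image_of_injective _ hinj, Finset.card_product]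
    have h2 : ((hBf.toFinset \ hBf'.toFinset).card : ℝ) ≤ ε * bl m₁ (r + R) := by
      have h3 : (bl m₁ r : ℝ) + ((hBf.toFinset \ hBf'.toFinset).card : ℝ) = bl m₁ (r + R) := by
        exact_mod_cast hbl
      have h4 : (bl m₁ r : ℝ) ≤ bl m₁ (r + R) := by
        have : bl m₁ r ≤ bl m₁ (r + R) := by omega
        exact_mod_cast this
      exact aux1 h3 hr h4 hε0
    rw [h1, hcardΩ, Nat.cast_mul, Nat.cast_mul]
    exact aux2 (Nat.cast_nonneg _) h2
  -- interior points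
  have hint : ∀ v ∈ Ω₁, ∀ v', v' ∉ Ω₁ → (lw F₁ m₁).d v v' ≤ R → v ∈ Z := by
    intro v hv v' hv' hd
    apply hZmem v hv
    by_contra hcon
    push Not at hcon
    apply hv'
    rw [hΩmem] at hv ⊢
    constructor
    · intro z hz
      by_cases hc : cf v z = cf v' z
      · rw [← hc]; exact hv.1 z hz
      · exfalso
        apply hz
        have e1 := lw_lamp m₁ v v' hc
        have e2 := m₁.tri 1 (ps v) z
        show m₁.d 1 z ≤ r + R
        omega
    · have e1 := lw_ps m₁ v v'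
      have e2 := m₁.tri 1 (ps v) (ps v')
      omega
  -- the image
  have hΩ₂f : {g : Lm F₂ H₂ | ∃ v ∈ Ω₁, (lw F₂ m₂).d (f v) g ≤ ρ}.Finite := by
    have : {g : Lm F₂ H₂ | ∃ v ∈ Ω₁, (lw F₂ m₂).d (f v) g ≤ ρ} ⊆
        ⋃ v ∈ (Ω₁ : Set (Lm F₁ H₁)), {g | (lw F₂ m₂).d (f v) g ≤ ρ} := by
      rintro g ⟨v, hv, hg⟩
      simp only [Set.mem_iUnion]
      exact ⟨v, hv, hg⟩
    exact ((Finset.finite_toSet Ω₁).biUnion fun v _ => (lw F₂ m₂).ball_fin (f v) ρ).subset this
  set Ω₂ := hΩ₂f.toFinset with hΩ₂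
  have hΩ₂mem : ∀ g, g ∈ Ω₂ ↔ ∃ v ∈ Ω₁, (lw F₂ m₂).d (f v) g ≤ ρ := by
    intro g
    rw [hΩ₂, Set.Finite.mem_toFinset]
    rfl
  have h1 : Ω₁.card ≤ V' * Ω₂.card := by
    have e1 : Ω₁.card ≤ V' * (Ω₂.image φ).card := by
      apply hV'
      intro v hv
      refine ⟨φ (f v), Finset.mem_image_of_mem _ ((hΩ₂mem _).mpr ⟨v, hv, by simp⟩), hf.gf v⟩
    exact e1.trans (Nat.mul_le_mul_left _ Finset.card_image_le)
  have h2 := iso (F := F₂) m₂ C hC Ω₂
  have h3 : (Ω₂.filter fun v => ∃ w, w ∉ Ω₂ ∧ (lw F₂ m₂).d v w ≤ 1).card ≤ V * Z.card := by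
    have e1 : (Ω₂.filter fun v => ∃ w, w ∉ Ω₂ ∧ (lw F₂ m₂).d v w ≤ 1).card ≤
        V * (Z.image f).card := by
      apply hV
      intro g hg
      rw [Finset.mem_filter] at hg
      obtain ⟨hg, g', hg', hd⟩ := hg
      obtain ⟨v, hv, hvg⟩ := (hΩ₂mem g).mp hg
      refine ⟨f v, Finset.mem_image_of_mem _ ?_, hvg⟩
      apply hint v hv (φ g')
      · intro h
        exact hg' ((hΩ₂mem g').mpr ⟨φ g', h, hf.fg g'⟩)
      · have e1 := (lw F₁ m₁).tri v (φ (f v)) (φ g')
        have e2 := hf.gf v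
        rw [(lw F₁ m₁).d_comm] at e2
        have e3 := hf.gl (f v) g'
        have e4 := (lw F₂ m₂).tri (f v) g g'
        have e5 : ρ * (lw F₂ m₂).d (f v) g' ≤ ρ * (ρ + 1) := Nat.mul_le_mul_left _ (by omega)
        omega
    exact e1.trans (Nat.mul_le_mul_left _ Finset.card_image_le)
  have h4 : Ω₁.card ≤ V' * C * V * Z.card := by
    calc Ω₁.card ≤ V' * Ω₂.card := h1
      _ ≤ V' * (C * (V * Z.card)) :=
        Nat.mul_le_mul_left _ (h2.trans (Nat.mul_le_mul_left _ h3))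
      _ = _ := by ring
  have h5 : (Ω₁.card : ℝ) ≤ (V' * C * V : ℝ) * Z.card := by exact_mod_cast h4
  have h6 : (0 : ℝ) < Ω₁.card := by
    have : (1 : Lm F₁ H₁) ∈ Ω₁ := by
      rw [hΩmem]
      exact ⟨fun z _ => rfl, by rw [ps_one, m₁.d_self]; exact Nat.zero_le _⟩
    exact_mod_cast Finset.card_pos.mpr ⟨_, this⟩
  have h8 : (V' * C * V : ℝ) * ε < 1 := by
    rw [hε, mul_one_div, div_lt_one (by positivity)]
    exact lt_add_one _
  exact aux3 (by positivity) h5 hcardZ h6 h8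

end Pool.Agent.H351.QE.FOL
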