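import Pool.Agent.H351.QE.Stm

/-!
# QE/GAP1: mild blocks imply large spread
-/

set_option autoImplicit false
set_option linter.unusedSectionVars false

open Pool.Agent.EndsLamp

namespace Pool.Agent.H351.QE.GAP1

open scoped Classical

section basic

variable {F : Type} {k : ℕ}

lemma rs_update_mem (b : Finset (Fin k)) (η v : Fin k → F) {i : Fin k} (h : i ∈ b) (θ : F) :
    rs b η (Function.update v i θ) = Function.update (rs b η v) i θ := by
  funext j
  by_cases hj : j = i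
  · subst hj; rw [rs_mem _ _ h, Function.update_self, Function.update_self]
  · rw [Function.update_of_ne hj]
    unfold rs
    rw [Function.update_of_ne hj]

lemma rs_update_not (b : Finset (Fin k)) (η v : Fin k → F) {i : Fin k} (h : i ∉ b) (θ : F) :
    rs b η (Function.update v i θ) = rs b η v := by
  funext j
  by_cases hj : j = i
  · subst hj; rw [rs_not _ _ h, rs_not _ _ h]
  · unfold rs
    rw [Function.update_of_ne hj]

lemma rs_left_mem (b : Finset (Fin k)) (η v : Fin k → F) {i : Fin k} (h : i ∈ b) (θ : F) :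
    rs b (Function.update η i θ) v = rs b η v := by
  funext j
  by_cases hj : j = i
  · subst hj; rw [rs_mem _ _ h, rs_mem _ _ h]
  · unfold rs
    rw [Function.update_of_ne hj]

lemma rs_left_not (b : Finset (Fin k)) (η v : Fin k → F) {i : Fin k} (h : i ∉ b) (θ : F) :
    rs b (Function.update η i θ) v = Function.update (rs b η v) i θ := by
  funext j
  by_cases hj : j = i
  · subst hj; rw [rs_not _ _ h, Function.update_self, Function.update_self]
  · rw [Function.update_of_ne hj]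
    unfold rs
    rw [Function.update_of_ne hj]

lemma rs_insert (s : Finset (Fin k)) (η u : Fin k → F) {i : Fin k} (h : i ∉ s) :
    rs (insert i s) η u = Function.update (rs s η u) i (u i) := by
  funext j
  by_cases hj : j = i
  · subst hj; rw [Function.update_self, rs_mem _ _ (Finset.mem_insert_self _ _)]
  · rw [Function.update_of_ne hj]
    unfold rs
    by_cases h2 : j ∈ s
    · rw [if_pos h2, if_pos (Finset.mem_insert_of_mem h2)]
    · rw [if_neg h2, if_neg (fun h3 => (Finset.mem_insert.mp h3).elim hj h2)]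

lemma rs_empty (η u : Fin k → F) : rs ∅ η u = η := by
  funext j
  unfold rs
  rw [if_neg (Finset.notMem_empty _)]

/-- the indicator of a proposition -/
noncomputable def ind (P : Prop) : ℝ := @ite ℝ P (Classical.propDecidable P) 1 0

lemma ind_true {P : Prop} (h : P) : ind P = 1 := if_pos h
lemma ind_false {P : Prop} (h : ¬ P) : ind P = 0 := if_neg h

lemma ind_nonneg (P : Prop) : 0 ≤ ind P := by
  by_cases h : P
  · rw [ind_true h]; norm_num
  · rw [ind_false h]

lemma pr_ind {X : Type} [Fintype X] (P : X → Prop) : pr P = av fun x => ind (P x) := rfl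

lemma sum_ind {X : Type} (s : Finset X) (P : X → Prop) [DecidablePred P] :
    ∑ x ∈ s, ind (P x) = ((s.filter P).card : ℝ) := by
  rw [Finset.card_filter, Nat.cast_sum]
  refine Finset.sum_congr rfl fun x _ => ?_
  by_cases h : P x
  · rw [ind_true h, if_pos h, Nat.cast_one]
  · rw [ind_false h, if_neg h, Nat.cast_zero]

lemma pr_all {X : Type} [Fintype X] [Nonempty X] {P : X → Prop} (h : ∀ x, P x) : pr P = 1 := by
  unfold pr
  have : (fun x => if P x then (1 : ℝ) else 0) = fun _ => 1 := by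
    funext x; rw [if_pos (h x)]
  rw [this, av_const]

end basic

section main

variable {F₂ H₂ F : Type} [Group F₂] [Group H₂] [Finite F₂] {m₂ : WM H₂} {k a ρ : ℕ}
  {Φ : (Fin k → F) → Lm F₂ H₂}

lemma dist_rs (hΦ : CM m₂ a ρ Φ) (s : Finset (Fin k)) (η u : Fin k → F) :
    (lw F₂ m₂).d (Φ η) (Φ (rs s η u)) ≤ a * s.card := by
  induction s using Finset.induction_on with
  | empty => rw [rs_empty]; simp
  | insert i s hi ih =>
    rw [rs_insert s η u hi, Finset.card_insert_of_notMem hi]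
    have h1 := (lw F₂ m₂).tri (Φ η) (Φ (rs s η u)) (Φ (Function.update (rs s η u) i (u i)))
    have h2 := hΦ.lip (rs s η u) i (u i)
    have h3 : a * (s.card + 1) = a * s.card + a := by ring
    omega

variable [Fintype F] [Nonempty F] {δ : ℝ}

lemma lamp_change (hΦ : CM m₂ a ρ Φ) (b : Finset (Fin k)) (η u u' : Fin k → F) (y : H₂)
    (h : cf (Φ (rs b η u)) y ≠ cf (Φ (rs b η u')) y) :
    ∃ i ∈ b, m₂.d (ps (Φ (rs b η (hy (i : ℕ) u u')))) y ≤ a := by
  by_contra hcon
  push Not at hcon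
  have key : ∀ j, j ≤ k → cf (Φ (rs b η (hy j u u'))) y = cf (Φ (rs b η u)) y := by
    intro j
    induction j with
    | zero => intro _; rw [hy_zero]
    | succ j ih =>
      intro hj
      have hjk : j < k := by omega
      rw [← ih hjk.le, hy_succ hjk]
      by_cases hb : (⟨j, hjk⟩ : Fin k) ∈ b
      · rw [rs_update_mem _ _ _ hb]
        by_contra hne
        have h1 := lw_lamp m₂ (Φ (rs b η (hy j u u')))
          (Φ (Function.update (rs b η (hy j u u')) ⟨j, hjk⟩ (u' ⟨j, hjk⟩))) (Ne.symm hne)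
        have h2 := hΦ.lip (rs b η (hy j u u')) ⟨j, hjk⟩ (u' ⟨j, hjk⟩)
        have h3 := hcon _ hb
        exact absurd (h1.trans h2) (not_le.mpr h3)
      · rw [rs_update_not _ _ _ hb]
  have h1 := key k le_rfl
  rw [hy_all le_rfl] at h1
  exact h h1.symm

variable {b : Finset (Fin k)}

lemma pr_pair (hΦ : CM m₂ a ρ Φ) {η : Fin k → F} (hM : Mild m₂ a δ b Φ η) (y : H₂) :
    pr (fun p : (Fin k → F) × (Fin k → F) =>
      cf (Φ (rs b η p.1)) y ≠ cf (Φ (rs b η p.2)) y) ≤ b.card * δ := by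
  calc pr (fun p : (Fin k → F) × (Fin k → F) =>
      cf (Φ (rs b η p.1)) y ≠ cf (Φ (rs b η p.2)) y)
      ≤ pr (fun p : (Fin k → F) × (Fin k → F) =>
        ∃ i ∈ b, m₂.d (ps (Φ (rs b η (hy (i : ℕ) p.1 p.2)))) y ≤ a) :=
        pr_mono fun p h => lamp_change hΦ b η p.1 p.2 y h
    _ ≤ ∑ i ∈ b, pr (fun p : (Fin k → F) × (Fin k → F) =>
        m₂.d (ps (Φ (rs b η (hy (i : ℕ) p.1 p.2)))) y ≤ a) := pr_exists_le _ _
    _ ≤ ∑ i ∈ b, δ := by
        refine Finset.sum_le_sum fun i _ => ?_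
        rw [pr_hy (i : ℕ) (fun u => m₂.d (ps (Φ (rs b η u))) y ≤ a)]
        exact hM y
    _ = b.card * δ := by rw [Finset.sum_const, nsmul_eq_mul]

lemma exists_val (hΦ : CM m₂ a ρ Φ) {η : Fin k → F} (hM : Mild m₂ a δ b Φ η) (y : H₂) :
    ∃ v : F₂, pr (fun u : Fin k → F => cf (Φ (rs b η u)) y ≠ v) ≤ b.card * δ := by
  have h1 := pr_pair hΦ hM y
  unfold pr at h1
  rw [av_prod'] at h1
  have h2 : av (fun u' : Fin k → F => pr fun u : Fin k → F =>
    cf (Φ (rs b η u)) y ≠ cf (Φ (rs b η u')) y) ≤ b.card * δ := h1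
  obtain ⟨u₀, hu₀⟩ := exists_le_av (fun u' : Fin k → F => pr fun u : Fin k → F =>
    cf (Φ (rs b η u)) y ≠ cf (Φ (rs b η u')) y)
  exact ⟨cf (Φ (rs b η u₀)) y, hu₀.trans h2⟩

/-- `c` is the configuration of the majorities -/
def Maj (b : Finset (Fin k)) (β : ℝ) (Φ : (Fin k → F) → Lm F₂ H₂) (η : Fin k → F)
    (c : Cfg F₂ H₂) : Prop :=
  ∀ y, pr (fun u : Fin k → F => cf (Φ (rs b η u)) y ≠ c y) ≤ β

lemma exists_maj (hΦ : CM m₂ a ρ Φ) {η : Fin k → F} (hM : Mild m₂ a δ b Φ η)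
    (hb : b.card * δ < 1) : ∃ c : Cfg F₂ H₂, Maj b (b.card * δ) Φ η c := by
  choose v hv using exists_val hΦ hM
  refine ⟨⟨v, ?_⟩, hv⟩
  refine (Set.finite_iUnion fun u : Fin k → F => (cf (Φ (rs b η u))).2).subset ?_
  intro y hy
  by_contra hcon
  rw [Set.mem_iUnion, not_exists] at hcon
  have h1 : pr (fun u : Fin k → F => cf (Φ (rs b η u)) y ≠ v y) = 1 := by
    refine pr_all fun u => ?_
    have h2 := hcon u
    rw [Function.mem_mulSupport, not_not] at h2
    rw [Function.mem_mulSupport] at hy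
    intro h3
    exact hy (h3.symm.trans h2)
  have := hv y
  rw [h1] at this
  linarith

lemma maj_step (hΦ : CM m₂ a ρ Φ) {η : Fin k → F} (hM : Mild m₂ a δ b Φ η) {β : ℝ}
    (hβ : 2 * β + δ < 1) {c c' : Cfg F₂ H₂} (i : Fin k) (θ : F)
    (hc : Maj b β Φ η c) (hc' : Maj b β Φ (Function.update η i θ) c') : c = c' := by
  refine Cfg.ext fun y => ?_
  by_contra hne
  have h1 : pr (fun u : Fin k → F => cf (Φ (rs b η u)) y ≠
      cf (Φ (rs b (Function.update η i θ) u)) y) ≤ δ := by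
    refine le_trans (pr_mono fun u hu => ?_) (hM y)
    by_cases hi : i ∈ b
    · rw [rs_left_mem b η u hi] at hu
      exact absurd rfl hu
    · rw [rs_left_not b η u hi] at hu
      exact (lw_lamp m₂ _ _ hu).trans (hΦ.lip _ _ _)
  have h2 : pr (fun u : Fin k → F => (cf (Φ (rs b η u)) y ≠ c y ∨
      cf (Φ (rs b (Function.update η i θ) u)) y ≠ c' y) ∨ cf (Φ (rs b η u)) y ≠
      cf (Φ (rs b (Function.update η i θ) u)) y) = 1 := by
    refine pr_all fun u => ?_
    by_contra h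
    push Not at h
    exact hne (h.1.1.symm.trans (h.2.trans h.1.2))
  have h3 := (pr_or_le (fun u : Fin k → F => cf (Φ (rs b η u)) y ≠ c y ∨
      cf (Φ (rs b (Function.update η i θ) u)) y ≠ c' y) (fun u => cf (Φ (rs b η u)) y ≠
      cf (Φ (rs b (Function.update η i θ) u)) y))
  have h4 := (pr_or_le (fun u : Fin k → F => cf (Φ (rs b η u)) y ≠ c y) (fun u =>
      cf (Φ (rs b (Function.update η i θ) u)) y ≠ c' y))
  have h5 := hc y
  have h6 := hc' y
  rw [h2] at h3
  linarith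

lemma maj_chain (hΦ : CM m₂ a ρ Φ) {η η' : Fin k → F} (hb : 2 * (b.card * δ) + δ < 1)
    (hδ : 0 ≤ δ)
    (hM : ∀ j ∈ Finset.range (k + 1), Mild m₂ a δ b Φ (hy j η η')) :
    ∃ c : Cfg F₂ H₂, Maj b (b.card * δ) Φ η c ∧ Maj b (b.card * δ) Φ η' c := by
  have hb1 : b.card * δ < 1 := by
    have : 0 ≤ (b.card : ℝ) * δ := by positivity
    linarith
  have h0 := hM 0 (Finset.mem_range.mpr (Nat.succ_pos k))
  obtain ⟨c, hc⟩ := exists_maj hΦ h0 hb1
  have key : ∀ j, j ≤ k → Maj b (b.card * δ) Φ (hy j η η') c := by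
    intro j
    induction j with
    | zero => intro _; exact hc
    | succ j ih =>
      intro hj
      have hjk : j < k := by omega
      have h1 := ih hjk.le
      obtain ⟨c', hc'⟩ := exists_maj hΦ (hM (j + 1) (Finset.mem_range.mpr (by omega))) hb1
      have h2 := hc'
      rw [hy_succ hjk] at h2
      have h3 := maj_step hΦ (hM j (Finset.mem_range.mpr (by omega))) hb ⟨j, hjk⟩ _ h1 h2
      rw [h3]
      exact hc'
  refine ⟨c, ?_, ?_⟩
  · have := key 0 (Nat.zero_le _)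
    rwa [hy_zero] at this
  · have := key k le_rfl
    rwa [hy_all le_rfl] at this

/-- a point whose configuration is that of the majorities -/
lemma near_maj (hΦ : CM m₂ a ρ Φ) {η : Fin k → F} {c : Cfg F₂ H₂} {β : ℝ}
    (hc : Maj b β Φ η c) (hβ : β ≤ 1 / 2) (hβ0 : 0 ≤ β) (hab : 2 * (a * b.card : ℝ) * β < 1) :
    ∃ q, (lw F₂ m₂).d (Φ η) (mk c q) ≤ a * b.card := by
  have hfin : {y | cf (Φ η) y ≠ c y}.Finite := by
    refine ((cf (Φ η)).2.union c.2).subset fun y hy => ?_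
    by_contra hcon
    rw [Set.mem_union, not_or, Function.mem_mulSupport, Function.mem_mulSupport, not_not,
      not_not] at hcon
    exact hy (hcon.1.trans hcon.2.symm)
  set Δ : Finset H₂ := hfin.toFinset with hΔ
  have hΔm : ∀ y, y ∈ Δ ↔ cf (Φ η) y ≠ c y := fun y => by rw [hΔ, Set.Finite.mem_toFinset]; rfl
  -- few lamps
  have h1 : ∀ u : Fin k → F, (Δ.card : ℝ) ≤
      (∑ y ∈ Δ, ind (cf (Φ (rs b η u)) y ≠ c y)) + (a * b.card : ℝ) := by
    intro u
    have h2 : ((Δ.filter fun y => ¬ cf (Φ (rs b η u)) y ≠ c y).card : ℝ) ≤ (a * b.card : ℝ) := by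
      have h3 : (Δ.filter fun y => ¬ cf (Φ (rs b η u)) y ≠ c y).card ≤
          {z | cf (Φ η) z ≠ cf (Φ (rs b η u)) z}.ncard := by
        rw [← Set.ncard_coe_finset]
        refine Set.ncard_le_ncard ?_ ?_
        · intro y hy
          rw [Finset.mem_coe, Finset.mem_filter, not_not, hΔm] at hy
          show cf (Φ η) y ≠ cf (Φ (rs b η u)) y
          rw [hy.2]
          exact hy.1
        · refine ((cf (Φ η)).2.union (cf (Φ (rs b η u))).2).subset fun y hy => ?_
          by_contra hcon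
          rw [Set.mem_union, not_or, Function.mem_mulSupport, Function.mem_mulSupport, not_not,
            not_not] at hcon
          exact hy (hcon.1.trans hcon.2.symm)
      have h4 := (h3.trans (lw_count m₂ _ _)).trans (dist_rs hΦ b η u)
      exact_mod_cast h4
    have h5 : (Δ.card : ℝ) = ((Δ.filter fun y => cf (Φ (rs b η u)) y ≠ c y).card : ℝ) +
        ((Δ.filter fun y => ¬ cf (Φ (rs b η u)) y ≠ c y).card : ℝ) := by
      exact_mod_cast (Finset.card_filter_add_card_filter_not (s := Δ)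
        (fun y => cf (Φ (rs b η u)) y ≠ c y)).symm
    have h6 : (∑ y ∈ Δ, ind (cf (Φ (rs b η u)) y ≠ c y)) =
        ((Δ.filter fun y => cf (Φ (rs b η u)) y ≠ c y).card : ℝ) := sum_ind Δ _
    rw [h6]
    linarith
  have h2 : (Δ.card : ℝ) ≤ Δ.card * β + a * b.card := by
    have h3 : av (fun _ : Fin k → F => (Δ.card : ℝ)) ≤
        av (fun u : Fin k → F => (∑ y ∈ Δ, ind (cf (Φ (rs b η u)) y ≠ c y)) +
          (a * b.card : ℝ)) := av_mono h1
    rw [av_const, av_add, av_const, av_sum] at h3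
    have h4 : ∑ y ∈ Δ, av (fun u : Fin k → F => ind (cf (Φ (rs b η u)) y ≠ c y)) ≤
        ∑ y ∈ Δ, β := Finset.sum_le_sum fun y _ => hc y
    rw [Finset.sum_const, nsmul_eq_mul] at h4
    linarith
  have h3 : (Δ.card : ℝ) ≤ 2 * (a * b.card) := by
    have : (Δ.card : ℝ) * β ≤ Δ.card * (1 / 2) := mul_le_mul_of_nonneg_left hβ (Nat.cast_nonneg _)
    linarith
  have h4 : pr (fun u : Fin k → F => ∃ y ∈ Δ, cf (Φ (rs b η u)) y ≠ c y) < 1 := by
    refine lt_of_le_of_lt (pr_exists_le Δ (fun y (u : Fin k → F) => cf (Φ (rs b η u)) y ≠ c y)) ?_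
    refine lt_of_le_of_lt (Finset.sum_le_sum fun y _ => hc y) ?_
    rw [Finset.sum_const, nsmul_eq_mul]
    exact lt_of_le_of_lt (mul_le_mul_of_nonneg_right h3 hβ0) hab
  obtain ⟨u, hu⟩ := exists_not_of_pr_lt h4
  push Not at hu
  refine ⟨ps (Φ (rs b η u)), ?_⟩
  have h5 := modify m₂ (Δ : Set H₂) (Φ η) (Φ (rs b η u))
  have h6 : comb (Δ : Set H₂) (cf (Φ (rs b η u))) (cf (Φ η)) = c := by
    refine Cfg.ext fun y => ?_
    by_cases hy : y ∈ (Δ : Set H₂)
    · rw [comb_mem _ _ hy]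
      exact hu y hy
    · rw [comb_not _ _ hy]
      by_contra hcon
      exact hy (Finset.mem_coe.mpr ((hΔm y).mpr hcon))
  rw [h6] at h5
  exact h5.trans (dist_rs hΦ b η u)

lemma far {η η' : Fin k → F} {c : Cfg F₂ H₂} {q q' : H₂} {n : ℕ}
    (h1 : (lw F₂ m₂).d (Φ η) (mk c q) ≤ n) (h2 : (lw F₂ m₂).d (Φ η') (mk c q') ≤ n) :
    (lw F₂ m₂).d (Φ η) (Φ η') ≤ 4 * n + m₂.d (ps (Φ η)) (ps (Φ η')) := by
  have e1 := (lw F₂ m₂).tri (Φ η) (mk c q) (Φ η')
  have e2 := (lw F₂ m₂).tri (mk c q) (mk c q') (Φ η')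
  have e3 := lw_leaf m₂ c q q'
  have e4 := m₂.tri q (ps (Φ η)) q'
  have e5 := m₂.tri (ps (Φ η)) (ps (Φ η')) q'
  have e6 := lw_ps m₂ (Φ η) (mk c q)
  have e7 := lw_ps m₂ (Φ η') (mk c q')
  rw [ps_mk] at e6 e7
  rw [(lw F₂ m₂).d_comm (mk c q') (Φ η')] at e2
  rw [m₂.d_comm q (ps (Φ η))] at e4
  omega

/-- the proportion of points with a given coordinate -/
lemma pr_coord (i : Fin k) (t : F) : pr (fun u : Fin k → F => u i = t) = 1 / Fintype.card F := by
  have h1 : pr (fun u : Fin k → F => u i = t) =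
      pr (fun p : F × ({j : Fin k // j ≠ i} → F) => p.1 = t) :=
    pr_equiv (Equiv.funSplitAt i F) (fun p => p.1 = t)
  rw [h1, pr_fst (fun x : F => x = t), pr_eq_card]
  congr 1
  have : (Finset.univ.filter fun x : F => x = t) = {t} := by
    ext x; simp
  rw [this, Finset.card_singleton, Nat.cast_one]

lemma pr_coord_ne [Nontrivial F] (i : Fin k) (t : F) :
    1 / 2 ≤ pr (fun u : Fin k → F => t ≠ u i) := by
  have h1 : pr (fun u : Fin k → F => t ≠ u i) = pr (fun u : Fin k → F => ¬ u i = t) :=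
    pr_congr fun u => by rw [ne_comm]
  rw [h1, pr_not (fun u : Fin k → F => u i = t), pr_coord]
  have h2 : (2 : ℝ) ≤ Fintype.card F := by exact_mod_cast Fintype.one_lt_card (α := F)
  have h3 : 1 / (Fintype.card F : ℝ) ≤ 1 / 2 := by
    rw [div_le_div_iff₀ (by linarith) (by norm_num)]
    linarith
  linarith

/-- the mean Hamming distance -/
lemma av_ham [Nontrivial F] : (k : ℝ) / 2 ≤ av (fun p : (Fin k → F) × (Fin k → F) =>
    ((Finset.univ.filter fun i => p.1 i ≠ p.2 i).card : ℝ)) := by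
  have h1 : (fun p : (Fin k → F) × (Fin k → F) =>
      ((Finset.univ.filter fun i => p.1 i ≠ p.2 i).card : ℝ)) =
      fun p => ∑ i : Fin k, ind (p.1 i ≠ p.2 i) := by
    funext p
    exact (sum_ind Finset.univ fun i => p.1 i ≠ p.2 i).symm
  rw [h1, av_sum]
  have h2 : ∀ i : Fin k, 1 / 2 ≤ av (fun p : (Fin k → F) × (Fin k → F) => ind (p.1 i ≠ p.2 i)) := by
    intro i
    rw [av_prod]
    calc (1 / 2 : ℝ) = av (fun _ : Fin k → F => (1 / 2 : ℝ)) := (av_const _).symm
      _ ≤ _ := av_mono fun η => pr_coord_ne i (η i)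
  calc (k : ℝ) / 2 = ∑ _i : Fin k, (1 / 2 : ℝ) := by
        rw [Finset.sum_const, Finset.card_univ, Fintype.card_fin, nsmul_eq_mul]; ring
    _ ≤ _ := Finset.sum_le_sum fun i _ => h2 i

end main

theorem main : S_GAP1 := by
  intro F₂ H₂ F _ _ _ _ _ m₂ k a ρ Φ b hρ ha hk hΦ hk8 hb hmild
  have hkR : (1 : ℝ) ≤ k := by exact_mod_cast hk
  have haR : (1 : ℝ) ≤ a := by exact_mod_cast ha
  have hρR : (1 : ℝ) ≤ ρ := by exact_mod_cast hρ
  set δ : ℝ := 1 / (4 * a * (k : ℝ) ^ 2) with hδ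
  have hδ0 : 0 < δ := by positivity
  have hbk : (b.card : ℝ) ≤ k := by
    have : b.card ≤ k := by
      have := Finset.card_le_univ b
      rwa [Fintype.card_fin] at this
    exact_mod_cast this
  have hb0 : (0 : ℝ) ≤ b.card := Nat.cast_nonneg _
  have hδa : 4 * a * (k : ℝ) ^ 2 * δ = 1 := by rw [hδ]; field_simp
  have hk2 : (2 : ℝ) ≤ k := by
    have h1 : 48 ≤ k := by
      have h2 : 8 * ρ * (4 * a + 2) ≥ 8 * 1 * (4 * 1 + 2) :=
        Nat.mul_le_mul (Nat.mul_le_mul_left _ hρ) (by omega)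
      omega
    have : (48 : ℝ) ≤ k := by exact_mod_cast h1
    linarith
  -- `k δ ≤ 1/8`
  have hkδ : (k : ℝ) * δ ≤ 1 / 8 := by
    have h1 : 4 * (k : ℝ) * (k * δ) ≤ 1 := by
      have : (k : ℝ) ^ 2 * δ ≤ a * ((k : ℝ) ^ 2 * δ) := by
        have : 0 ≤ (k : ℝ) ^ 2 * δ := by positivity
        nlinarith
      nlinarith
    have h2 : 4 * 2 * ((k : ℝ) * δ) ≤ 4 * (k : ℝ) * (k * δ) := by
      have : 0 ≤ (k : ℝ) * δ := by positivity
      nlinarith
    linarith
  have hδ8 : δ ≤ 1 / 8 := by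
    have : 1 * δ ≤ k * δ := mul_le_mul_of_nonneg_right hkR hδ0.le
    linarith
  have hβ0 : 0 ≤ (b.card : ℝ) * δ := by positivity
  have hβ : (b.card : ℝ) * δ ≤ 1 / 8 := (mul_le_mul_of_nonneg_right hbk hδ0.le).trans hkδ
  have hab : 2 * (a * b.card : ℝ) * (b.card * δ) < 1 := by
    have h1 : (b.card : ℝ) * b.card ≤ (k : ℝ) * k := mul_le_mul hbk hbk hb0 (by linarith)
    have h2 : 2 * (a * b.card : ℝ) * (b.card * δ) = 2 * a * δ * (b.card * b.card) := by ring
    have h3 : 2 * a * δ * ((b.card : ℝ) * b.card) ≤ 2 * a * δ * (k * k) :=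
      mul_le_mul_of_nonneg_left h1 (by positivity)
    rw [h2]
    nlinarith
  -- good pairs
  have good : ∀ p : (Fin k → F) × (Fin k → F),
      (∀ j ∈ Finset.range (k + 1), Mild m₂ a δ b Φ (hy j p.1 p.2)) →
      ((Finset.univ.filter fun i => p.1 i ≠ p.2 i).card : ℝ) ≤
        ρ * (4 * (a * b.card) + m₂.d (ps (Φ p.1)) (ps (Φ p.2))) + 2 * ρ := by
    intro p hp
    obtain ⟨c, hc1, hc2⟩ := maj_chain hΦ (b := b) (δ := δ) (by linarith) hδ0.le hp
    obtain ⟨q, hq⟩ := near_maj hΦ hc1 (by linarith) hβ0 hab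
    obtain ⟨q', hq'⟩ := near_maj hΦ hc2 (by linarith) hβ0 hab
    have h1 := far hq hq'
    have h2 := hΦ.low p.1 p.2
    have h3 : (Finset.univ.filter fun i => p.1 i ≠ p.2 i).card ≤
        ρ * (4 * (a * b.card) + m₂.d (ps (Φ p.1)) (ps (Φ p.2))) + 2 * ρ :=
      h2.trans (Nat.add_le_add_right (Nat.mul_le_mul_left _ h1) _)
    exact_mod_cast h3
  -- the probability of a bad pair
  have hbad : pr (fun p : (Fin k → F) × (Fin k → F) =>
      ∃ j ∈ Finset.range (k + 1), ¬ Mild m₂ a δ b Φ (hy j p.1 p.2)) ≤ 1 / 8 := by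
    refine (pr_exists_hy (fun η => ¬ Mild m₂ a δ b Φ η)).trans ?_
    have h1 : ((k : ℝ) + 1) * pr (fun η => ¬ Mild m₂ a δ b Φ η) ≤
        ((k : ℝ) + 1) * (1 / (8 * ((k : ℝ) + 1))) := mul_le_mul_of_nonneg_left hmild (by positivity)
    have h2 : ((k : ℝ) + 1) * (1 / (8 * ((k : ℝ) + 1))) = 1 / 8 := by
      field_simp
    linarith
  -- the pointwise bound
  have hpt : ∀ p : (Fin k → F) × (Fin k → F),
      (1 / ρ : ℝ) * ((Finset.univ.filter fun i => p.1 i ≠ p.2 i).card : ℝ) -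
        (2 + 4 * (a * b.card)) ≤ (m₂.d (ps (Φ p.1)) (ps (Φ p.2)) : ℝ) +
        (k / ρ : ℝ) * ind (∃ j ∈ Finset.range (k + 1), ¬ Mild m₂ a δ b Φ (hy j p.1 p.2)) := by
    intro p
    have hρ0 : (0 : ℝ) < ρ := by linarith
    by_cases hp : ∃ j ∈ Finset.range (k + 1), ¬ Mild m₂ a δ b Φ (hy j p.1 p.2)
    · rw [ind_true hp]
      have h1 : ((Finset.univ.filter fun i => p.1 i ≠ p.2 i).card : ℝ) ≤ k := by
        have : (Finset.univ.filter fun i => p.1 i ≠ p.2 i).card ≤ k := by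
          have := Finset.card_le_univ (Finset.univ.filter fun i => p.1 i ≠ p.2 i)
          rwa [Fintype.card_fin] at this
        exact_mod_cast this
      have h2 : (1 / ρ : ℝ) * ((Finset.univ.filter fun i => p.1 i ≠ p.2 i).card : ℝ) ≤
          (1 / ρ : ℝ) * k := mul_le_mul_of_nonneg_left h1 (by positivity)
      have h3 : (1 / ρ : ℝ) * k = (k / ρ : ℝ) := by ring
      have h4 : (0 : ℝ) ≤ (m₂.d (ps (Φ p.1)) (ps (Φ p.2)) : ℝ) := Nat.cast_nonneg _
      have h5 : (0 : ℝ) ≤ 4 * (a * b.card) := by positivity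
      linarith
    · rw [ind_false hp]
      push Not at hp
      have h1 := good p hp
      have h2 : (1 / ρ : ℝ) * ((Finset.univ.filter fun i => p.1 i ≠ p.2 i).card : ℝ) ≤
          (1 / ρ : ℝ) * (ρ * (4 * (a * b.card) + m₂.d (ps (Φ p.1)) (ps (Φ p.2))) + 2 * ρ) :=
        mul_le_mul_of_nonneg_left h1 (by positivity)
      have h3 : (1 / ρ : ℝ) * (ρ * (4 * (a * b.card) + m₂.d (ps (Φ p.1)) (ps (Φ p.2))) + 2 * ρ) =
          4 * (a * b.card) + m₂.d (ps (Φ p.1)) (ps (Φ p.2)) + 2 := by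
        field_simp
      linarith
  have hav := av_mono hpt
  rw [av_sub, av_const_mul, av_const, av_add, av_const_mul] at hav
  have h1 := av_ham (k := k) (F := F)
  have h2 : (k / ρ : ℝ) * av (fun p : (Fin k → F) × (Fin k → F) =>
      ind (∃ j ∈ Finset.range (k + 1), ¬ Mild m₂ a δ b Φ (hy j p.1 p.2))) ≤ (k / ρ : ℝ) * (1 / 8) :=
    mul_le_mul_of_nonneg_left hbad (by positivity)
  have h3 : (1 / ρ : ℝ) * (k / 2) ≤ (1 / ρ : ℝ) * av (fun p : (Fin k → F) × (Fin k → F) =>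
      ((Finset.univ.filter fun i => p.1 i ≠ p.2 i).card : ℝ)) :=
    mul_le_mul_of_nonneg_left h1 (by positivity)
  have h4 : spread m₂ Φ = av (fun p : (Fin k → F) × (Fin k → F) =>
      (m₂.d (ps (Φ p.1)) (ps (Φ p.2)) : ℝ)) := rfl
  rw [h4]
  -- numbers
  have hbR : 32 * (ρ : ℝ) * a * b.card ≤ k + 32 * ρ * a := by exact_mod_cast hb
  have hk8R : 8 * (ρ : ℝ) * (4 * a + 2) ≤ k := by exact_mod_cast hk8
  have hρ0 : (0 : ℝ) < ρ := by linarith
  have e1 : 4 * (a * b.card : ℝ) ≤ k / (8 * ρ) + 4 * a := by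
    have : 4 * (a * b.card : ℝ) * (8 * ρ) ≤ (k / (8 * ρ) + 4 * a) * (8 * ρ) := by
      have e : (k / (8 * ρ) + 4 * a : ℝ) * (8 * ρ) = k + 32 * ρ * a := by
        field_simp
        ring
      rw [e]
      nlinarith
    exact le_of_mul_le_mul_right this (by positivity)
  have e2 : (4 * a + 2 : ℝ) ≤ k / (8 * ρ) := by
    rw [le_div_iff₀ (by positivity)]
    nlinarith
  have e3 : (1 / ρ : ℝ) * (k / 2) = 4 * (k / (8 * ρ)) := by
    field_simp
    ring
  have e4 : (k / ρ : ℝ) * (1 / 8) = k / (8 * ρ) := by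
    field_simp
  rw [e3] at h3
  rw [e4] at h2
  linarith

end Pool.Agent.H351.QE.GAP1
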