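import Pool.Agent.H351.QE.Stm

/-!
# Project QE: `S_GAP2` from `S_LOW`
-/

set_option autoImplicit false
set_option linter.unusedSectionVars false

open Pool.Agent.EndsLamp

namespace Pool.Agent.H351.QE.GAP2

open scoped Classical

open Pool.Agent.H351.QE

section basic

variable {F₂ H₂ F : Type} [Group F₂] [Group H₂] [Finite F₂] {k : ℕ}

/-- the distance of the positions -/
noncomputable def dd (m₂ : WM H₂) (Φ : (Fin k → F) → Lm F₂ H₂) (x y : Fin k → F) : ℝ :=
  (m₂.d (ps (Φ x)) (ps (Φ y)) : ℝ)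

lemma dd_tri (m₂ : WM H₂) (Φ : (Fin k → F) → Lm F₂ H₂) (x y z : Fin k → F) :
    dd m₂ Φ x z ≤ dd m₂ Φ x y + dd m₂ Φ y z := by
  unfold dd
  exact_mod_cast m₂.tri (ps (Φ x)) (ps (Φ y)) (ps (Φ z))

lemma dd_self (m₂ : WM H₂) (Φ : (Fin k → F) → Lm F₂ H₂) (x : Fin k → F) :
    dd m₂ Φ x x = 0 := by
  unfold dd
  simp

lemma dd_nonneg (m₂ : WM H₂) (Φ : (Fin k → F) → Lm F₂ H₂) (x y : Fin k → F) :
    0 ≤ dd m₂ Φ x y := by
  unfold dd
  exact Nat.cast_nonneg _

lemma dd_comm (m₂ : WM H₂) (Φ : (Fin k → F) → Lm F₂ H₂) (x y : Fin k → F) :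
    dd m₂ Φ x y = dd m₂ Φ y x := by
  unfold dd
  rw [m₂.d_comm]

/-- positions move by at most `a` under an update -/
lemma step {m₂ : WM H₂} {a ρ : ℕ} {Φ : (Fin k → F) → Lm F₂ H₂} (h : CM m₂ a ρ Φ)
    (η : Fin k → F) (i : Fin k) (θ : F) : dd m₂ Φ (Function.update η i θ) η ≤ a := by
  rw [dd_comm]
  unfold dd
  exact_mod_cast (lw_ps m₂ (Φ η) (Φ (Function.update η i θ))).trans (h.lip η i θ)

/-- a resampled update of the second argument -/
lemma rs_update_right (b : Finset (Fin k)) (η u : Fin k → F) (i : Fin k) (θ : F) :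
    rs b η (Function.update u i θ) = rs b η u ∨
      rs b η (Function.update u i θ) = Function.update (rs b η u) i θ := by
  by_cases hi : i ∈ b
  · right
    funext j
    by_cases hj : j = i
    · subst hj
      simp [rs, hi]
    · simp [rs, Function.update_of_ne hj]
  · left
    funext j
    by_cases hj : j = i
    · subst hj
      simp [rs, hi]
    · simp [rs, Function.update_of_ne hj]

/-- a resampled update of the first argument -/
lemma rs_update_left (b : Finset (Fin k)) (η : Fin k → F) (i : Fin k) (θ : F) (u : Fin k → F) :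
    rs b (Function.update η i θ) u = rs b η u ∨
      rs b (Function.update η i θ) u = Function.update (rs b η u) i θ := by
  by_cases hi : i ∈ b
  · left
    funext j
    by_cases hj : j = i
    · subst hj
      simp [rs, hi]
    · simp [rs, Function.update_of_ne hj]
  · right
    funext j
    by_cases hj : j = i
    · subst hj
      simp [rs, hi]
    · simp [rs, Function.update_of_ne hj]

lemma step_right {m₂ : WM H₂} {a ρ : ℕ} {Φ : (Fin k → F) → Lm F₂ H₂} (h : CM m₂ a ρ Φ)
    (b : Finset (Fin k)) (η u : Fin k → F) (i : Fin k) (θ : F) :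
    dd m₂ Φ (rs b η (Function.update u i θ)) (rs b η u) ≤ a := by
  rcases rs_update_right b η u i θ with e | e
  · rw [e, dd_self]; exact Nat.cast_nonneg _
  · rw [e]; exact step h _ _ _

lemma step_left {m₂ : WM H₂} {a ρ : ℕ} {Φ : (Fin k → F) → Lm F₂ H₂} (h : CM m₂ a ρ Φ)
    (b : Finset (Fin k)) (η u : Fin k → F) (i : Fin k) (θ : F) :
    dd m₂ Φ (rs b (Function.update η i θ) u) (rs b η u) ≤ a := by
  rcases rs_update_left b η i θ u with e | e
  · rw [e, dd_self]; exact Nat.cast_nonneg _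
  · rw [e]; exact step h _ _ _

end basic

section main

variable {F₂ H₂ F : Type} [Group F₂] [Group H₂] [Finite F₂] [Fintype F] [Nontrivial F] {k : ℕ}

/-- the average distance of two resamplings of `η` -/
noncomputable def GG (m₂ : WM H₂) (Φ : (Fin k → F) → Lm F₂ H₂) (b : Finset (Fin k))
    (η : Fin k → F) : ℝ :=
  av fun p : (Fin k → F) × (Fin k → F) => dd m₂ Φ (rs b η p.1) (rs b η p.2)

lemma GG_lip {m₂ : WM H₂} {a ρ : ℕ} {Φ : (Fin k → F) → Lm F₂ H₂} (h : CM m₂ a ρ Φ)
    (b : Finset (Fin k)) : Lip1 (2 * (a : ℝ)) (GG m₂ Φ b) := by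
  have : Nonempty F := inferInstance
  intro η i θ
  have key : ∀ η η' : Fin k → F, (∀ u, dd m₂ Φ (rs b η u) (rs b η' u) ≤ a) →
      GG m₂ Φ b η ≤ GG m₂ Φ b η' + 2 * (a : ℝ) := by
    intro η η' hu
    unfold GG
    rw [← av_const (X := (Fin k → F) × (Fin k → F)) (2 * (a : ℝ)), ← av_add]
    apply av_mono
    intro p
    have e1 := dd_tri m₂ Φ (rs b η p.1) (rs b η' p.1) (rs b η p.2)
    have e2 := dd_tri m₂ Φ (rs b η' p.1) (rs b η' p.2) (rs b η p.2)
    have e3 := hu p.1
    have e4 := hu p.2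
    rw [dd_comm] at e4
    linarith
  rw [abs_le]
  constructor
  · have := key η (Function.update η i θ) (fun u => by rw [dd_comm]; exact step_left h b η u i θ)
    linarith
  · have := key (Function.update η i θ) η (fun u => step_left h b η u i θ)
    linarith

/-- if `η` is not mild then the average distance is small -/
lemma GG_small (hL : S_LOW) {m₂ : WM H₂} {a ρ : ℕ} {Φ : (Fin k → F) → Lm F₂ H₂}
    (h : CM m₂ a ρ Φ) (ha : 1 ≤ a) (hk : 1 ≤ k) {δ₁ : ℝ} (h0 : 0 < δ₁) (h1 : δ₁ ≤ 1)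
    (b : Finset (Fin k)) (η : Fin k → F) (hη : ¬ Mild m₂ a δ₁ b Φ η) :
    GG m₂ Φ b η ≤ 2 * a + 2 * a * Real.sqrt (2 * k * Real.log (1 / δ₁)) := by
  have : Nonempty F := inferInstance
  unfold Mild at hη
  push Not at hη
  obtain ⟨y, hy⟩ := hη
  set g : (Fin k → F) → ℝ := fun u => (m₂.d (ps (Φ (rs b η u))) y : ℝ) with hg
  have hlip : Lip1 (a : ℝ) g := by
    intro u i θ
    have e1 := step_right h b η u i θ
    have e2 := e1
    unfold dd at e1
    have t1 : (m₂.d (ps (Φ (rs b η (Function.update u i θ)))) y : ℝ) ≤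
        (m₂.d (ps (Φ (rs b η (Function.update u i θ)))) (ps (Φ (rs b η u))) : ℝ) +
          (m₂.d (ps (Φ (rs b η u))) y : ℝ) := by
      exact_mod_cast m₂.tri _ _ _
    have t2 : (m₂.d (ps (Φ (rs b η u))) y : ℝ) ≤
        (m₂.d (ps (Φ (rs b η u))) (ps (Φ (rs b η (Function.update u i θ)))) : ℝ) +
          (m₂.d (ps (Φ (rs b η (Function.update u i θ)))) y : ℝ) := by
      exact_mod_cast m₂.tri _ _ _
    rw [m₂.d_comm (ps (Φ (rs b η u))) (ps (Φ (rs b η (Function.update u i θ))))] at t2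
    simp only [hg]
    rw [abs_le]
    constructor <;> linarith
  have hav : av g ≤ a + a * Real.sqrt (2 * k * Real.log (1 / δ₁)) := by
    refine hL F k (a : ℝ) g hk (by exact_mod_cast ha) hlip (a : ℝ) δ₁ h0 h1 ?_
    refine hy.le.trans (pr_mono ?_)
    intro u hu
    simp only [hg]
    exact_mod_cast hu
  have h2 : GG m₂ Φ b η ≤ av g + av g := by
    unfold GG
    have e1 : av (fun p : (Fin k → F) × (Fin k → F) => g p.1) = av g := av_fst g
    have e2 : av (fun p : (Fin k → F) × (Fin k → F) => g p.2) = av g := av_snd g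
    calc av (fun p : (Fin k → F) × (Fin k → F) => dd m₂ Φ (rs b η p.1) (rs b η p.2))
        ≤ av (fun p : (Fin k → F) × (Fin k → F) => g p.1 + g p.2) := by
          apply av_mono
          intro p
          simp only [hg]
          unfold dd
          have t1 : (m₂.d (ps (Φ (rs b η p.1))) (ps (Φ (rs b η p.2))) : ℝ) ≤
              (m₂.d (ps (Φ (rs b η p.1))) y : ℝ) + (m₂.d y (ps (Φ (rs b η p.2))) : ℝ) := by
            exact_mod_cast m₂.tri _ _ _
          rw [m₂.d_comm y] at t1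
          exact t1
      _ = av g + av g := by rw [av_add, e1, e2]
  linarith

/-- the average of `GG` -/
lemma av_GG (m₂ : WM H₂) (Φ : (Fin k → F) → Lm F₂ H₂) (b : Finset (Fin k)) :
    av (GG m₂ Φ b) =
      av (fun p : (Fin k → F) × (Fin k → F) => dd m₂ Φ p.1 (rs b p.1 p.2)) := by
  have : Nonempty F := inferInstance
  have hrs : ∀ w u u' : Fin k → F, rs b (rs b w u) u' = rs b w u' := by
    intro w u u'
    funext i
    by_cases hi : i ∈ b <;> simp [rs, hi]
  -- for every `u'`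
  have h1 : ∀ u' : Fin k → F, av (fun p : (Fin k → F) × (Fin k → F) =>
      dd m₂ Φ (rs b p.1 p.2) (rs b p.1 u')) = av (fun v => dd m₂ Φ v (rs b v u')) := by
    intro u'
    have := av_rs_fst b (fun v : Fin k → F => dd m₂ Φ v (rs b v u'))
    rw [← this]
    congr 1
    funext p
    simp only [hrs]
  calc av (GG m₂ Φ b)
      = av (fun q : (Fin k → F) × ((Fin k → F) × (Fin k → F)) =>
          dd m₂ Φ (rs b q.1 q.2.1) (rs b q.1 q.2.2)) := by
        rw [av_prod]
        rfl
    _ = av (fun q : ((Fin k → F) × (Fin k → F)) × (Fin k → F) =>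
          dd m₂ Φ (rs b q.1.1 q.1.2) (rs b q.1.1 q.2)) := by
        rw [← av_equiv (Equiv.prodAssoc (Fin k → F) (Fin k → F) (Fin k → F))]
        rfl
    _ = av (fun u' : Fin k → F => av (fun p : (Fin k → F) × (Fin k → F) =>
          dd m₂ Φ (rs b p.1 p.2) (rs b p.1 u'))) := by
        rw [av_prod']
    _ = av (fun u' : Fin k → F => av (fun v => dd m₂ Φ v (rs b v u'))) := by
        congr 1
        funext u'
        exact h1 u'
    _ = av (fun p : (Fin k → F) × (Fin k → F) => dd m₂ Φ p.1 (rs b p.1 p.2)) := by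
        rw [av_prod']

/-- the telescoping sum -/
lemma tele (m₂ : WM H₂) (Φ : (Fin k → F) → Lm F₂ H₂) (x : ℕ → Fin k → F) (M : ℕ) :
    dd m₂ Φ (x 0) (x M) ≤ ∑ j ∈ Finset.range M, dd m₂ Φ (x j) (x (j + 1)) := by
  induction M with
  | zero => simp [dd_self]
  | succ M ih =>
    rw [Finset.sum_range_succ]
    exact (dd_tri m₂ Φ (x 0) (x M) (x (M + 1))).trans (by linarith)

lemma spread_le (m₂ : WM H₂) {M : ℕ} (Φ : (Fin k → F) → Lm F₂ H₂) (blk : Fin k → Fin M) :
    spread m₂ Φ ≤ ∑ j : Fin M, av (GG m₂ Φ (Finset.univ.filter fun i => blk i = j)) := by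
  have : Nonempty F := inferInstance
  -- the hybrids
  set c : ℕ → Finset (Fin k) := fun j => Finset.univ.filter fun i => (blk i : ℕ) < j with hc
  have h0 : ∀ p : (Fin k → F) × (Fin k → F), rs (c 0) p.1 p.2 = p.1 := by
    intro p
    funext i
    simp [rs, hc]
  have hM : ∀ p : (Fin k → F) × (Fin k → F), rs (c M) p.1 p.2 = p.2 := by
    intro p
    funext i
    simp [rs, hc]
  have h1 : spread m₂ Φ ≤ av (fun p : (Fin k → F) × (Fin k → F) =>
      ∑ j ∈ Finset.range M, dd m₂ Φ (rs (c j) p.1 p.2) (rs (c (j + 1)) p.1 p.2)) := by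
    unfold spread
    apply av_mono
    intro p
    have := tele m₂ Φ (fun j => rs (c j) p.1 p.2) M
    simp only [h0, hM] at this
    exact this
  refine h1.trans ?_
  rw [av_sum, ← Fin.sum_univ_eq_sum_range
    (fun j => av (fun p : (Fin k → F) × (Fin k → F) =>
      dd m₂ Φ (rs (c j) p.1 p.2) (rs (c (j + 1)) p.1 p.2))) M]
  apply Finset.sum_le_sum
  intro j _
  rw [av_GG]
  have h2 := av_rs (c (j : ℕ)) (fun p : (Fin k → F) × (Fin k → F) =>
    dd m₂ Φ p.1 (rs (Finset.univ.filter fun i => blk i = j) p.1 p.2))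
  rw [← h2]
  apply le_of_eq
  congr 1
  funext p
  congr 1
  funext i
  simp only [rs, hc, Finset.mem_filter, Finset.mem_univ, true_and]
  by_cases e1 : blk i = j
  · have e2 : (blk i : ℕ) < (j : ℕ) + 1 := by rw [e1]; omega
    have e3 : ¬ (blk i : ℕ) < (j : ℕ) := by rw [e1]; omega
    simp [e1]
  · have e4 : (blk i : ℕ) ≠ (j : ℕ) := fun e => e1 (Fin.ext e)
    by_cases e5 : (blk i : ℕ) < (j : ℕ)
    · have e2 : (blk i : ℕ) < (j : ℕ) + 1 := by omega
      simp [e1, e5, e2]
    · have e2 : ¬ (blk i : ℕ) < (j : ℕ) + 1 := by omega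
      rw [if_neg e2, if_neg e1, if_neg e5]

end main

/-- `S_GAP2` -/
theorem main (h : S_LOW) : S_GAP2 := by
  intro F₂ H₂ F _ _ _ _ _ m₂ k a ρ M Φ blk δ₁ δ₂ ha hk hΦ h10 h11 h20 h21 hbad
  have : Nonempty F := inferInstance
  refine (spread_le m₂ Φ blk).trans ?_
  have hj : ∀ j : Fin M, av (GG m₂ Φ (Finset.univ.filter fun i => blk i = j)) ≤
      2 * a + 2 * a * Real.sqrt (2 * k * Real.log (1 / δ₁)) +
        2 * a * Real.sqrt (2 * k * Real.log (1 / δ₂)) := by
    intro j
    refine h F k (2 * (a : ℝ)) _ hk (by have : (1 : ℝ) ≤ a := by exact_mod_cast ha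
                                        linarith) (GG_lip hΦ _)
      (2 * a + 2 * a * Real.sqrt (2 * k * Real.log (1 / δ₁))) δ₂ h20 h21 ?_
    refine (hbad j).le.trans (pr_mono ?_)
    intro η hη
    exact GG_small h hΦ ha hk h10 h11 _ η hη
  calc ∑ j : Fin M, av (GG m₂ Φ (Finset.univ.filter fun i => blk i = j))
      ≤ ∑ _j : Fin M, (2 * (a : ℝ) + 2 * a * Real.sqrt (2 * k * Real.log (1 / δ₁)) +
        2 * a * Real.sqrt (2 * k * Real.log (1 / δ₂))) := Finset.sum_le_sum fun j _ => hj j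
    _ = _ := by
      rw [Finset.sum_const, nsmul_eq_mul, Finset.card_univ, Fintype.card_fin]

end Pool.Agent.H351.QE.GAP2
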