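import Pool.Agent.H351.QE.Stm

/-! # Project QE: S_GAP from S_GAP1 and S_GAP2 -/

set_option autoImplicit false

open Pool.Agent.EndsLamp

namespace Pool.Agent.H351.QE

open scoped Classical

/-- A block of the partition into intervals of length `L`. -/
lemma block_card {k L M : ℕ} (hL : 1 ≤ L) (blk : Fin k → Fin M)
    (hblk : ∀ i, (blk i : ℕ) = (i : ℕ) / L) (j : Fin M) :
    (Finset.univ.filter fun i => blk i = j).card ≤ L := by
  have h : (Finset.univ.filter fun i => blk i = j).card ≤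
      (Finset.Ico ((j : ℕ) * L) ((j : ℕ) * L + L)).card := by
    apply Finset.card_le_card_of_injOn (fun i : Fin k => (i : ℕ))
    · intro i hi
      simp only [Finset.coe_filter, Finset.mem_univ, true_and, Set.mem_setOf_eq] at hi
      have e : (i : ℕ) / L = j := by rw [← hblk, hi]
      simp only [Finset.coe_Ico, Set.mem_Ico]
      constructor
      · rw [← e]; exact Nat.div_mul_le_self _ _
      · rw [← e]
        have := Nat.lt_div_mul_add (a := (i : ℕ)) (b := L) (by omega)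
        exact this
    · intro i _ j _ hij
      exact Fin.ext hij
  simpa using h

/-- the numeric estimate for `S_GAP` -/
lemma gap_num {ρ a k : ℝ} (hρ : 1 ≤ ρ) (ha : 25600 * ρ ^ 2 ≤ a) (hk : a ^ 8 ≤ k) :
    32 * ρ * a * (2 * a + 2 * a * Real.sqrt (2 * k * Real.log (4 * a * k ^ 2)) +
      2 * a * Real.sqrt (2 * k * Real.log (8 * (k + 1)))) ≤ k / (16 * ρ) := by
  have hρ0 : 0 < ρ := by linarith
  have ha1 : 25600 ≤ a := by nlinarith
  have ha0 : 0 < a := by linarith
  have ha8 : a ≤ a ^ 8 := by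
    have : (1 : ℝ) ≤ a ^ 7 := one_le_pow₀ (by linarith)
    nlinarith
  have hka : a ≤ k := ha8.trans hk
  have hk0 : 0 < k := by linarith
  set x : ℝ := k ^ ((1 : ℝ) / 16) with hx
  have hx0 : 0 < x := Real.rpow_pos_of_pos hk0 _
  have hx16 : x ^ 16 = k := by
    rw [hx, ← Real.rpow_natCast, ← Real.rpow_mul hk0.le]
    norm_num
  have hx2 : a ≤ x ^ 2 := by
    have h1 : a ^ 8 ≤ (x ^ 2) ^ 8 := by
      rw [← pow_mul]; norm_num; rw [hx16]; exact hk
    exact le_of_pow_le_pow_left₀ (by norm_num) (by positivity) h1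
  have hx1 : 1 ≤ x := by
    by_contra h
    push Not at h
    have : x ^ 2 < 1 := pow_lt_one₀ hx0.le h (by norm_num)
    linarith
  have hlogk : Real.log k ≤ 16 * x := by
    rw [← hx16, Real.log_pow]
    have := Real.log_le_sub_one_of_pos hx0
    push_cast
    linarith
  have hlog1 : Real.log (4 * a * k ^ 2) ≤ 4 * Real.log k := by
    have : 4 * a * k ^ 2 ≤ k ^ 4 := by
      have h1 : 4 * a ≤ k ^ 2 := by nlinarith
      calc 4 * a * k ^ 2 ≤ k ^ 2 * k ^ 2 := by
            apply mul_le_mul_of_nonneg_right h1 (by positivity)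
        _ = k ^ 4 := by ring
    calc Real.log (4 * a * k ^ 2) ≤ Real.log (k ^ 4) := Real.log_le_log (by positivity) this
      _ = 4 * Real.log k := by rw [Real.log_pow]; norm_num
  have hlog2 : Real.log (8 * (k + 1)) ≤ 4 * Real.log k := by
    have : 8 * (k + 1) ≤ k ^ 4 := by
      have h1 : 8 * (k + 1) ≤ k ^ 2 := by nlinarith
      have h2 : k ^ 2 ≤ k ^ 4 := pow_le_pow_right₀ (by linarith) (by norm_num)
      linarith
    calc Real.log (8 * (k + 1)) ≤ Real.log (k ^ 4) := Real.log_le_log (by positivity) this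
      _ = 4 * Real.log k := by rw [Real.log_pow]; norm_num
  have hs : ∀ L : ℝ, L ≤ 4 * Real.log k → Real.sqrt (2 * k * L) ≤ 12 * x ^ 9 := by
    intro L hL
    apply Real.sqrt_le_iff.mpr
    refine ⟨by positivity, ?_⟩
    have h1 : 2 * k * L ≤ 2 * k * (64 * x) := by
      apply mul_le_mul_of_nonneg_left _ (by positivity)
      linarith
    have h2 : 2 * k * (64 * x) = 128 * x ^ 17 := by rw [← hx16]; ring
    have h3 : x ^ 17 ≤ x ^ 18 := pow_le_pow_right₀ hx1 (by norm_num)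
    have h4 : (12 * x ^ 9) ^ 2 = 144 * x ^ 18 := by ring
    have h5 : 0 < x ^ 18 := by positivity
    nlinarith
  have e1 := hs _ hlog1
  have e2 := hs _ hlog2
  have h3 : 2 * a + 2 * a * Real.sqrt (2 * k * Real.log (4 * a * k ^ 2)) +
      2 * a * Real.sqrt (2 * k * Real.log (8 * (k + 1))) ≤ 50 * a * x ^ 9 := by
    have hx9 : 1 ≤ x ^ 9 := one_le_pow₀ hx1
    have f1 : 2 * a * Real.sqrt (2 * k * Real.log (4 * a * k ^ 2)) ≤ 2 * a * (12 * x ^ 9) :=
      mul_le_mul_of_nonneg_left e1 (by positivity)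
    have f2 : 2 * a * Real.sqrt (2 * k * Real.log (8 * (k + 1))) ≤ 2 * a * (12 * x ^ 9) :=
      mul_le_mul_of_nonneg_left e2 (by positivity)
    nlinarith
  have h4 : 32 * ρ * a * (50 * a * x ^ 9) ≤ 1600 * ρ * x ^ 13 := by
    have g1 : a * a ≤ x ^ 2 * x ^ 2 := mul_le_mul hx2 hx2 ha0.le (by positivity)
    have g2 : 32 * ρ * a * (50 * a * x ^ 9) = 1600 * ρ * x ^ 9 * (a * a) := by ring
    rw [g2]
    calc 1600 * ρ * x ^ 9 * (a * a) ≤ 1600 * ρ * x ^ 9 * (x ^ 2 * x ^ 2) :=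
          mul_le_mul_of_nonneg_left g1 (by positivity)
      _ = _ := by ring
  have h5 : 1600 * ρ * x ^ 13 ≤ k / (16 * ρ) := by
    rw [le_div_iff₀ (by positivity)]
    have g1 : 25600 * ρ ^ 2 ≤ x ^ 3 := by
      have : x ^ 2 ≤ x ^ 3 := pow_le_pow_right₀ hx1 (by norm_num)
      linarith
    calc 1600 * ρ * x ^ 13 * (16 * ρ) = 25600 * ρ ^ 2 * x ^ 13 := by ring
      _ ≤ x ^ 3 * x ^ 13 := mul_le_mul_of_nonneg_right g1 (by positivity)
      _ = k := by rw [← hx16]; ring
  calc _ ≤ 32 * ρ * a * (50 * a * x ^ 9) := mul_le_mul_of_nonneg_left h3 (by positivity)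
    _ ≤ _ := h4.trans h5

theorem gap (h1 : S_GAP1) (h2 : S_GAP2) : S_GAP := by
  intro ρ hρ
  refine ⟨25600 * ρ ^ 2, ?_⟩
  intro F₂ H₂ F _ _ _ _ _ m₂ k a Φ ha hk hΦ
  have hρ2 : 1 ≤ ρ ^ 2 := Nat.one_le_pow _ _ (by omega)
  have ha1 : 25600 ≤ a := by nlinarith
  have haa : a * a ≤ a ^ 8 := by
    calc a * a = a ^ 2 := by ring
      _ ≤ a ^ 8 := Nat.pow_le_pow_right (by omega) (by norm_num)
  have hk' : a * a ≤ k := haa.trans hk
  have hk1 : 1 ≤ k := by nlinarith
  set M : ℕ := 32 * ρ * a with hM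
  have hM0 : 0 < M := by positivity
  set L : ℕ := k / M + 1 with hL
  have hlt : k < M * L := by
    rw [hL]
    have := Nat.lt_mul_div_succ k hM0
    exact this
  have hL1 : 1 ≤ L := Nat.succ_le_succ (Nat.zero_le _)
  have hML : M * L ≤ k + M := by
    rw [hL, Nat.mul_add, Nat.mul_one]
    have := Nat.mul_div_le k M
    omega
  set blk : Fin k → Fin M := fun i => ⟨(i : ℕ) / L, by
    rw [Nat.div_lt_iff_lt_mul hL1]
    exact lt_trans i.2 hlt⟩ with hblk
  have hcard : ∀ j : Fin M, (Finset.univ.filter fun i => blk i = j).card ≤ L :=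
    fun j => block_card hL1 blk (fun i => rfl) j
  have hkR : (1 : ℝ) ≤ k := by exact_mod_cast hk1
  have haR : (25600 : ℝ) ≤ a := by exact_mod_cast ha1
  have hρR : (1 : ℝ) ≤ ρ := by exact_mod_cast hρ
  by_cases hc : ∃ j : Fin M, pr (fun η => ¬ Mild m₂ a (1 / (4 * a * (k : ℝ) ^ 2))
      (Finset.univ.filter fun i => blk i = j) Φ η) ≤ 1 / (8 * ((k : ℝ) + 1))
  · obtain ⟨j, hj⟩ := hc
    left
    refine h1 F₂ H₂ F m₂ k a ρ Φ _ hρ (by omega) hk1 hΦ ?_ ?_ hj
    · have : 25600 * ρ ≤ a := by nlinarith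
      nlinarith
    · calc 32 * ρ * a * _ ≤ 32 * ρ * a * L := Nat.mul_le_mul_left _ (hcard j)
        _ ≤ _ := hML
  · push Not at hc
    right
    have hδ₁ : (0 : ℝ) < 1 / (4 * a * (k : ℝ) ^ 2) := by positivity
    have hδ₂ : (0 : ℝ) < 1 / (8 * ((k : ℝ) + 1)) := by positivity
    have h4 := h2 F₂ H₂ F m₂ k a ρ M Φ blk (1 / (4 * a * (k : ℝ) ^ 2)) (1 / (8 * ((k : ℝ) + 1)))
      (by omega) hk1 hΦ hδ₁
      (by
        rw [div_le_one (by positivity)]
        have : (1 : ℝ) ≤ (k : ℝ) ^ 2 := one_le_pow₀ hkR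
        nlinarith)
      hδ₂
      (by
        rw [div_le_one (by positivity)]
        linarith)
      hc
    refine h4.trans ?_
    rw [one_div_one_div, one_div_one_div]
    have h5 := gap_num (ρ := ρ) (a := a) (k := k) hρR (by exact_mod_cast ha) (by exact_mod_cast hk)
    refine le_trans (le_of_eq ?_) h5
    rw [hM]
    push_cast
    ring

end Pool.Agent.H351.QE
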