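import Pool.Agent.H351.QE.Stm

set_option autoImplicit false
set_option linter.unusedSectionVars false
set_option linter.unusedVariables false

open Pool.Agent.EndsLamp

namespace Pool.Agent.H351.QE.HOR

open scoped Classical

/-! ### averages -/

section avg

variable {F : Type} [Fintype F] [Nontrivial F]

lemma pr_ne (c : F) : (1 : ℝ) / 2 ≤ pr (fun x : F => x ≠ c) := by
  have h1 : pr (fun x : F => x = c) = 1 / Fintype.card F := by
    rw [pr_eq_card]
    congr 1
    have : (Finset.univ.filter fun x : F => x = c) = {c} := by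
      ext x; simp
    rw [this]; simp
  have h2 := pr_not (fun x : F => x = c)
  have h3 : (2 : ℝ) ≤ Fintype.card F := by
    exact_mod_cast Fintype.one_lt_card (α := F)
  have h4 : (1 : ℝ) / Fintype.card F ≤ 1 / 2 := one_div_le_one_div_of_le (by norm_num) h3
  have h5 : pr (fun x : F => x ≠ c) = 1 - pr (fun x : F => x = c) := h2
  rw [h5, h1]
  linarith

lemma pr_coord {K : ℕ} (j : Fin K) (P : F → Prop) :
    pr (fun η : Fin K → F => P (η j)) = pr P := by
  have h := pr_equiv (Equiv.funSplitAt j F) (fun p : F × ({i // i ≠ j} → F) => P p.1)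
  have h2 := pr_fst (X := F) (Y := {i // i ≠ j} → F) P
  rw [h2] at h
  rw [← h]
  rfl

lemma av_ite {X : Type} [Fintype X] (P : X → Prop) [DecidablePred P] :
    av (fun x => if P x then (1 : ℝ) else 0) = pr P := by
  unfold pr
  congr 1
  funext x
  by_cases h : P x
  · rw [if_pos h, if_pos h]
  · rw [if_neg h, if_neg h]

lemma card_eq_sum {K : ℕ} (P : Fin K → Prop) [DecidablePred P] :
    ((Finset.univ.filter fun j => P j).card : ℝ) = ∑ j, if P j then (1 : ℝ) else 0 := by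
  rw [Finset.card_filter]
  push_cast
  rfl

lemma av_ham_o {K : ℕ} (o : Fin K → F) :
    (K : ℝ) / 2 ≤ av (fun η : Fin K → F => ((Finset.univ.filter fun j => η j ≠ o j).card : ℝ)) := by
  have h1 : (fun η : Fin K → F => ((Finset.univ.filter fun j => η j ≠ o j).card : ℝ)) =
      fun η => ∑ j, if η j ≠ o j then (1 : ℝ) else 0 := by
    funext η; exact card_eq_sum (fun j => η j ≠ o j)
  rw [h1, av_sum]
  have h2 : ∀ j : Fin K, (1 : ℝ) / 2 ≤ av (fun η : Fin K → F => if η j ≠ o j then (1 : ℝ) else 0) := by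
    intro j
    have := pr_coord j (fun x : F => x ≠ o j)
    have h3 := pr_ne (o j)
    rw [← this] at h3
    rw [av_ite (fun η : Fin K → F => η j ≠ o j)]
    exact h3
  calc (K : ℝ) / 2 = ∑ _j : Fin K, (1 : ℝ) / 2 := by
        rw [Finset.sum_const, Finset.card_univ, Fintype.card_fin, nsmul_eq_mul]; ring
    _ ≤ _ := Finset.sum_le_sum fun j _ => h2 j

lemma av_ham_pair {K : ℕ} (o : Fin K → F) {i : ℕ} (hi : i ≤ K) :
    (i : ℝ) / 2 ≤ av (fun p : (Fin K → F) × (Fin K → F) =>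
      ((Finset.univ.filter fun j => hy i o p.1 j ≠ hy i o p.2 j).card : ℝ)) := by
  have h1 : (fun p : (Fin K → F) × (Fin K → F) =>
      ((Finset.univ.filter fun j => hy i o p.1 j ≠ hy i o p.2 j).card : ℝ)) =
      fun p => ∑ j, if hy i o p.1 j ≠ hy i o p.2 j then (1 : ℝ) else 0 := by
    funext p; exact card_eq_sum (fun j => hy i o p.1 j ≠ hy i o p.2 j)
  rw [h1, av_sum]
  have h2 : ∀ j : Fin K, (if (j : ℕ) < i then (1 : ℝ) / 2 else 0) ≤
      av (fun p : (Fin K → F) × (Fin K → F) =>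
        if hy i o p.1 j ≠ hy i o p.2 j then (1 : ℝ) else 0) := by
    intro j
    by_cases hj : (j : ℕ) < i
    · rw [if_pos hj]
      have h3 : ∀ η : Fin K → F, hy i o η j = η j := fun η => by simp [hy, hj]
      simp only [h3]
      rw [av_prod']
      have h4 : ∀ η' : Fin K → F, (1 : ℝ) / 2 ≤
          av (fun η : Fin K → F => if η j ≠ η' j then (1 : ℝ) else 0) := by
        intro η'
        have := pr_coord j (fun x : F => x ≠ η' j)
        have h3 := pr_ne (η' j)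
        rw [← this] at h3
        rw [av_ite (fun η : Fin K → F => η j ≠ η' j)]
        exact h3
      calc (1 : ℝ) / 2 = av (fun _ : Fin K → F => (1 : ℝ) / 2) := (av_const _).symm
        _ ≤ _ := av_mono h4
    · rw [if_neg hj]
      exact av_nonneg fun x => by split_ifs <;> norm_num
  calc (i : ℝ) / 2 = ∑ j : Fin K, (if (j : ℕ) < i then (1 : ℝ) / 2 else 0) := by
        rw [Fin.sum_univ_eq_sum_range (fun j => if j < i then (1 : ℝ) / 2 else 0) K,
          ← Finset.sum_filter]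
        have : (Finset.range K).filter (fun j => j < i) = Finset.range i := by
          ext j; simp; omega
        rw [this, Finset.sum_const, Finset.card_range, nsmul_eq_mul]; ring
    _ ≤ _ := Finset.sum_le_sum fun j _ => h2 j

end avg

/-! ### truncated points -/

section trunc

variable {F : Type} [Fintype F] {K : ℕ}

lemma hy_update (i : ℕ) (o η : Fin K → F) (j : Fin K) (θ : F) :
    hy i o (Function.update η j θ) = hy i o η ∨
    hy i o (Function.update η j θ) = Function.update (hy i o η) j θ := by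
  by_cases h : (j : ℕ) < i
  · right
    funext l
    by_cases hl : l = j
    · subst hl; simp [hy, h]
    · simp [hy, Function.update_of_ne hl]
  · left
    funext l
    by_cases hl : l = j
    · subst hl; simp [hy, h]
    · simp [hy, Function.update_of_ne hl]

variable {F₂ H₂ : Type} [Group F₂] [Group H₂] [Finite F₂] {m₂ : WM H₂} {a ρ : ℕ}
  {Φ : (Fin K → F) → Lm F₂ H₂}

lemma hstep (hΦ : CM m₂ a ρ Φ) (i : ℕ) (o η : Fin K → F) (j : Fin K) (θ : F) :
    (lw F₂ m₂).d (Φ (hy i o η)) (Φ (hy i o (Function.update η j θ))) ≤ a := by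
  rcases hy_update i o η j θ with h | h
  · rw [h]; simp
  · rw [h]; exact hΦ.lip _ _ _

lemma d_one_le (x y : H₂) : (m₂.d 1 x : ℝ) ≤ m₂.d 1 y + m₂.d x y := by
  have := m₂.tri 1 y x
  rw [m₂.d_comm y x] at this
  exact_mod_cast this

lemma abs_d_le (u v : Lm F₂ H₂) {b : ℕ} (h : (lw F₂ m₂).d u v ≤ b) :
    |(m₂.d 1 (ps v) : ℝ) - m₂.d 1 (ps u)| ≤ b := by
  have h1 := d_one_le (m₂ := m₂) (ps u) (ps v)
  have h2 := d_one_le (m₂ := m₂) (ps v) (ps u)
  have h3 : (m₂.d (ps u) (ps v) : ℝ) ≤ b := by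
    exact_mod_cast (lw_ps m₂ u v).trans h
  rw [m₂.d_comm (ps v) (ps u)] at h2
  rw [abs_le]
  constructor <;> linarith

lemma lip_g (hΦ : CM m₂ a ρ Φ) (i : ℕ) (o : Fin K → F) :
    Lip1 (a : ℝ) (fun η => (m₂.d 1 (ps (Φ (hy i o η))) : ℝ)) := by
  intro η j θ
  exact abs_d_le _ _ (hstep hΦ i o η j θ)

lemma dist_levels (hΦ : CM m₂ a ρ Φ) (i G : ℕ) (hiG : i + G ≤ K) (o η : Fin K → F) :
    (lw F₂ m₂).d (Φ (hy i o η)) (Φ (hy (i + G) o η)) ≤ G * a := by
  have key : ∀ t, t ≤ G → (lw F₂ m₂).d (Φ (hy i o η)) (Φ (hy (i + t) o η)) ≤ t * a := by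
    intro t
    induction t with
    | zero => intro _; simp
    | succ t ih =>
      intro ht
      have e1 := ih (by omega)
      have e2 := (lw F₂ m₂).tri (Φ (hy i o η)) (Φ (hy (i + t) o η)) (Φ (hy (i + (t + 1)) o η))
      have e3 : (lw F₂ m₂).d (Φ (hy (i + t) o η)) (Φ (hy (i + (t + 1)) o η)) ≤ a := by
        rw [← add_assoc, hy_succ (by omega : i + t < K)]
        exact hΦ.lip _ _ _
      rw [Nat.succ_mul]; omega
  exact key G le_rfl

/-- the deterministic part -/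
lemma good_dist (hΦ : CM m₂ a ρ Φ) {i G s : ℕ} (hiG : i + G ≤ K) (o η η' : Fin K → F)
    (h1 : ∀ j ≤ K, m₂.d 1 (ps (Φ (hy i o (hy j η η')))) + a ≤ s)
    (h2 : ∀ j ≤ K, s + a < m₂.d 1 (ps (Φ (hy (i + G) o (hy j η η'))))) :
    (lw F₂ m₂).d (Φ (hy i o η)) (Φ (hy i o η')) ≤
      4 * (G * a) + m₂.d (ps (Φ (hy i o η))) (ps (Φ (hy i o η'))) := by
  have hlow : Cn (lw F₂ m₂) {w | m₂.d 1 (ps w) ≤ s} (Φ (hy i o η)) (Φ (hy i o η')) := by
    have key : ∀ j, j ≤ K → Cn (lw F₂ m₂) {w | m₂.d 1 (ps w) ≤ s} (Φ (hy i o η))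
        (Φ (hy i o (hy j η η'))) := by
      intro j
      induction j with
      | zero => intro _; rw [hy_zero]; exact Cn.refl _
      | succ j ih =>
        intro hj
        refine (ih (by omega)).trans ?_
        rw [hy_succ (by omega : j < K) η η']
        refine Cn.of_close (hstep hΦ i o _ _ _) fun w hw => ?_
        have e1 := h1 j (by omega)
        have e2 := lw_ps m₂ (Φ (hy i o (hy j η η'))) w
        have e3 := m₂.tri 1 (ps (Φ (hy i o (hy j η η')))) (ps w)
        simp only [Set.mem_ofPred_eq]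
        omega
    have := key K le_rfl
    rwa [hy_all le_rfl] at this
  have hhigh : Cn (lw F₂ m₂) {w | s < m₂.d 1 (ps w)} (Φ (hy (i + G) o η))
      (Φ (hy (i + G) o η')) := by
    have key : ∀ j, j ≤ K → Cn (lw F₂ m₂) {w | s < m₂.d 1 (ps w)} (Φ (hy (i + G) o η))
        (Φ (hy (i + G) o (hy j η η'))) := by
      intro j
      induction j with
      | zero => intro _; rw [hy_zero]; exact Cn.refl _
      | succ j ih =>
        intro hj
        refine (ih (by omega)).trans ?_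
        rw [hy_succ (by omega : j < K) η η']
        refine Cn.of_close (hstep hΦ (i + G) o _ _ _) fun w hw => ?_
        have e1 := h2 j (by omega)
        have e2 := lw_ps m₂ (Φ (hy (i + G) o (hy j η η'))) w
        have e3 := m₂.tri 1 (ps w) (ps (Φ (hy (i + G) o (hy j η η'))))
        rw [m₂.d_comm (ps w)] at e3
        simp only [Set.mem_ofPred_eq]
        omega
    have := key K le_rfl
    rwa [hy_all le_rfl] at this
  have hd := dist_levels hΦ i G hiG o η
  have hd' := dist_levels hΦ i G hiG o η'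
  set u := Φ (hy i o η) with hu
  set v := Φ (hy i o η') with hv
  set u' := Φ (hy (i + G) o η) with hu'
  set v' := Φ (hy (i + G) o η') with hv'
  set S : Set H₂ := {z | m₂.d 1 z ≤ s} with hS
  have hcomb : comb S (cf u') (cf u) = comb S (cf v') (cf v) := by
    apply Cfg.ext
    intro z
    by_cases hz : z ∈ S
    · rw [comb_mem _ _ hz, comb_mem _ _ hz]
      exact ((cn_high hhigh).1 z hz).symm
    · rw [comb_not _ _ hz, comb_not _ _ hz]
      simp only [hS, Set.mem_ofPred_eq, not_le] at hz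
      exact (cn_low hlow z hz).symm
  have e1 := modify m₂ S u u'
  have e2 := modify m₂ S v v'
  rw [← hcomb] at e2
  have e3 := lw_leaf (F := F₂) m₂ (comb S (cf u') (cf u)) (ps u') (ps v')
  have e4 := (lw F₂ m₂).tri u (mk (comb S (cf u') (cf u)) (ps u')) v
  have e5 := (lw F₂ m₂).tri (mk (comb S (cf u') (cf u)) (ps u'))
    (mk (comb S (cf u') (cf u)) (ps v')) v
  rw [(lw F₂ m₂).d_comm (mk (comb S (cf u') (cf u)) (ps v')) v] at e5
  have e6 := m₂.tri (ps u') (ps u) (ps v')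
  have e7 := m₂.tri (ps u) (ps v) (ps v')
  have e8 := lw_ps m₂ u u'
  have e9 := lw_ps m₂ v v'
  rw [m₂.d_comm (ps u') (ps u)] at e6
  omega

end trunc

/-! ### the sequence of means -/

lemma exists_i {M : ℕ → ℝ} {a C K i₀ G : ℕ} {τ : ℝ} (hC : 1 ≤ C) (hG : 1 ≤ G)
    (hGτ : 40 * (C : ℝ) * τ ≤ G) (hτ : 0 ≤ τ) (hi₀ : i₀ ≤ K)
    (hi₀' : (a : ℝ) * i₀ ≤ K / (8 * C)) (h0 : M 0 ≤ C * a)
    (hstep : ∀ i < K, M (i + 1) ≤ M i + a) (hK : (K : ℝ) / (2 * C) - a ≤ M K)
    (hN : ((C : ℝ) + 1) * a + a * G < K / (4 * C)) :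
    ∃ i, i₀ ≤ i ∧ i + G ≤ K ∧ M i + 5 * τ ≤ M (i + G) := by
  by_contra hcon
  push Not at hcon
  have hC0 : (0 : ℝ) < C := by exact_mod_cast hC
  have hG0 : (0 : ℝ) < G := by exact_mod_cast hG
  have ha0 : (0 : ℝ) ≤ a := Nat.cast_nonneg _
  have hs : ∀ (i t : ℕ), i + t ≤ K → M (i + t) ≤ M i + a * t := by
    intro i t
    induction t with
    | zero => intro _; simp
    | succ t ih =>
      intro h
      have e1 := ih (by omega)
      have e2 := hstep (i + t) (by omega)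
      rw [show i + (t + 1) = i + t + 1 by ring]
      push_cast
      linarith
  have hb : ∀ n : ℕ, i₀ + n * G ≤ K → M (i₀ + n * G) ≤ M i₀ + n * (5 * τ) := by
    intro n
    induction n with
    | zero => intro _; simp
    | succ n ih =>
      intro h
      have hle : i₀ + n * G + G ≤ K := by rw [Nat.succ_mul] at h; omega
      have e1 := ih (by omega)
      have e2 := hcon (i₀ + n * G) (by omega) hle
      rw [show i₀ + (n + 1) * G = i₀ + n * G + G by ring]
      push_cast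
      linarith
  set n := (K - i₀) / G with hn
  have hnG : n * G ≤ K - i₀ := Nat.div_mul_le_self _ _
  have hlt : K - i₀ < n * G + G := by
    have := Nat.lt_div_mul_add (a := K - i₀) (b := G) (by omega)
    omega
  have e1 := hb n (by omega)
  have e2 := hs (i₀ + n * G) (K - (i₀ + n * G)) (by omega)
  rw [show i₀ + n * G + (K - (i₀ + n * G)) = K by omega] at e2
  have e3 : ((K - (i₀ + n * G) : ℕ) : ℝ) ≤ G := by
    have : K - (i₀ + n * G) ≤ G := by omega
    exact_mod_cast this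
  have e4 := hs 0 i₀ (by omega)
  rw [Nat.zero_add] at e4
  have e5 : (n : ℝ) * (5 * τ) ≤ K / (8 * C) := by
    rw [le_div_iff₀ (by positivity)]
    have h1 : (n : ℝ) * G ≤ K := by
      have : n * G ≤ K := by omega
      exact_mod_cast this
    have h2 : (n : ℝ) * (40 * C * τ) ≤ n * G := mul_le_mul_of_nonneg_left hGτ (Nat.cast_nonneg _)
    nlinarith
  have e6 : (a : ℝ) * ((K - (i₀ + n * G) : ℕ) : ℝ) ≤ a * G := mul_le_mul_of_nonneg_left e3 ha0
  have e7 : (K : ℝ) / (2 * C) = K / (8 * C) + K / (8 * C) + K / (4 * C) := by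
    field_simp; ring
  have e8 : ((C : ℝ) + 1) * a = C * a + a := by ring
  rw [e7] at hK
  rw [e8] at hN
  linarith

/-! ### numerics -/

lemma log_small (c : ℝ) (hc : 0 < c) : ∃ K₀ : ℕ, ∀ K a : ℕ, K₀ ≤ K → a ^ 10 ≤ K →
    c * (a : ℝ) ^ 6 * Real.log (100 * (K + 1)) ≤ K := by
  have h1 : ∀ᶠ x : ℝ in Filter.atTop, |Real.log x ^ 5| ≤ (1 / (200 * c ^ 5)) * |x| := by
    have := (Real.isLittleO_pow_log_id_atTop (n := 5)).bound (c := 1 / (200 * c ^ 5)) (by positivity)
    simpa using this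
  obtain ⟨X, hX⟩ := Filter.eventually_atTop.1 h1
  refine ⟨max 1 ⌈X⌉₊, fun K a hK ha => ?_⟩
  have hK1 : (1 : ℝ) ≤ K := by exact_mod_cast (le_max_left _ _).trans hK
  have hKX : X ≤ K := (Nat.le_ceil X).trans (by exact_mod_cast (le_max_right _ _).trans hK)
  have h2 := hX (100 * ((K : ℝ) + 1)) (by linarith)
  set L := Real.log (100 * ((K : ℝ) + 1)) with hL
  have hL0 : 0 ≤ L := Real.log_nonneg (by linarith)
  rw [abs_of_nonneg (by positivity), abs_of_nonneg (by positivity)] at h2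
  have h3 : (c * L) ^ 5 ≤ K := by
    have : (c * L) ^ 5 = c ^ 5 * L ^ 5 := by ring
    rw [this]
    calc c ^ 5 * L ^ 5 ≤ c ^ 5 * (1 / (200 * c ^ 5) * (100 * ((K : ℝ) + 1))) :=
          mul_le_mul_of_nonneg_left h2 (by positivity)
      _ = (K + 1) / 2 := by field_simp; ring
      _ ≤ K := by linarith
  have h4 : ((a : ℝ) ^ 6) ^ 5 ≤ (K : ℝ) ^ 3 := by
    have : ((a : ℝ) ^ 10) ≤ K := by exact_mod_cast ha
    calc ((a : ℝ) ^ 6) ^ 5 = ((a : ℝ) ^ 10) ^ 3 := by ring
      _ ≤ (K : ℝ) ^ 3 := pow_le_pow_left₀ (by positivity) this 3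
  have h5 : (c * (a : ℝ) ^ 6 * L) ^ 5 ≤ (K : ℝ) ^ 5 := by
    calc (c * (a : ℝ) ^ 6 * L) ^ 5 = ((a : ℝ) ^ 6) ^ 5 * (c * L) ^ 5 := by ring
      _ ≤ (K : ℝ) ^ 3 * K := mul_le_mul h4 h3 (by positivity) (by positivity)
      _ ≤ (K : ℝ) ^ 5 := by
        have : (K : ℝ) ^ 3 * K = (K : ℝ) ^ 4 := by ring
        rw [this]
        exact pow_le_pow_right₀ hK1 (by norm_num)
  exact le_of_pow_le_pow_left₀ (by norm_num) (by positivity) h5


set_option maxHeartbeats 2000000 in
/-- all the numerical estimates -/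
lemma numerics (ρ C : ℕ) (hρ : 1 ≤ ρ) (hC : 1 ≤ C) : ∃ A₀ : ℕ, ∀ (K a : ℕ), A₀ ≤ a → a ^ 10 ≤ K →
    ∀ τ : ℝ, τ = a * Real.sqrt (2 * K * Real.log (100 * (K + 1))) →
      1 ≤ K ∧ 1 ≤ a ∧ (a : ℝ) ≤ τ ∧
      ((C : ℝ) + 1) * a + a * (⌈40 * (C : ℝ) * τ⌉₊ : ℝ) < K / (4 * C) ∧
      a ^ 8 ≤ K / (8 * C * a) ∧
      ∀ i : ℕ, K / (8 * C * a) ≤ i → 4 * ((⌈40 * (C : ℝ) * τ⌉₊ : ℝ) * a) + 2 ≤ i / (4 * ρ) := by
  have hρ1 : (1 : ℝ) ≤ ρ := by exact_mod_cast hρ
  have hC1 : (1 : ℝ) ≤ C := by exact_mod_cast hC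
  set c : ℝ := 20480 * ρ * C ^ 2 with hc
  have hc0 : 0 < c := by positivity
  obtain ⟨K₀, hK₀⟩ := log_small (2 * c ^ 2) (by positivity)
  refine ⟨K₀ + 4000 * ρ * C ^ 2, ?_⟩
  intro K a ha haK τ hτ
  have ha1 : 1 ≤ a := by
    have : 1 ≤ ρ * C ^ 2 := Nat.one_le_iff_ne_zero.2 (by positivity)
    nlinarith
  have hKa : a ≤ K := le_trans (by
    calc a = a ^ 1 := (pow_one a).symm
      _ ≤ a ^ 10 := Nat.pow_le_pow_right ha1 (by norm_num)) haK
  have hK1 : 1 ≤ K := le_trans ha1 hKa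
  have haR1 : (1 : ℝ) ≤ a := by exact_mod_cast ha1
  have hKR1 : (1 : ℝ) ≤ K := by exact_mod_cast hK1
  have haR : 4000 * (ρ : ℝ) * C ^ 2 ≤ a := by
    have : 4000 * ρ * C ^ 2 ≤ a := by omega
    exact_mod_cast this
  have haK' : (a : ℝ) ^ 10 ≤ K := by exact_mod_cast haK
  set L := Real.log (100 * ((K : ℝ) + 1)) with hL
  have hL1 : 1 ≤ L := by
    rw [hL, Real.le_log_iff_exp_le (by positivity)]
    have := Real.exp_one_lt_d9
    linarith
  have hsq : Real.sqrt (2 * K * L) ^ 2 = 2 * K * L := Real.sq_sqrt (by positivity)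
  have hsq0 : 0 ≤ Real.sqrt (2 * K * L) := Real.sqrt_nonneg _
  have hsq1 : 1 ≤ Real.sqrt (2 * K * L) := by
    apply Real.le_sqrt_of_sq_le
    nlinarith
  have hτa : (a : ℝ) ≤ τ := by
    rw [hτ]; nlinarith
  have hτ0 : 0 ≤ τ := by linarith
  have hlog := hK₀ K a (by omega) haK
  rw [← hL] at hlog
  -- the main estimate
  have hmain : c * ((a : ℝ) ^ 2 * τ) ≤ K := by
    apply le_of_pow_le_pow_left₀ (n := 2) (by norm_num) (by positivity)
    have : (c * ((a : ℝ) ^ 2 * τ)) ^ 2 = (2 * c ^ 2 * (a : ℝ) ^ 6 * L) * K := by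
      rw [hτ]
      calc (c * ((a : ℝ) ^ 2 * (a * Real.sqrt (2 * K * L)))) ^ 2
          = c ^ 2 * (a : ℝ) ^ 6 * Real.sqrt (2 * K * L) ^ 2 := by ring
        _ = _ := by rw [hsq]; ring
    rw [this]
    nlinarith
  have ha2 : (a : ℝ) ^ 3 ≤ K := by
    calc (a : ℝ) ^ 3 ≤ (a : ℝ) ^ 10 := pow_le_pow_right₀ haR1 (by norm_num)
      _ ≤ K := haK'
  have hG : (⌈40 * (C : ℝ) * τ⌉₊ : ℝ) ≤ 40 * C * τ + 1 := by
    exact (Nat.ceil_lt_add_one (by positivity)).le
  refine ⟨hK1, ha1, hτa, ?_, ?_, ?_⟩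
  · rw [lt_div_iff₀ (by positivity)]
    have h1 : (a : ℝ) * (⌈40 * (C : ℝ) * τ⌉₊ : ℝ) ≤ a * (40 * C * τ + 1) :=
      mul_le_mul_of_nonneg_left hG (by linarith)
    have h2 : (a : ℝ) * τ ≤ (a : ℝ) ^ 2 * τ :=
      mul_le_mul_of_nonneg_right (by nlinarith) hτ0
    have h3 : (C : ℝ) ^ 2 * (a * τ) * 160 * 4 ≤ K := by
      have : (C : ℝ) ^ 2 * (a * τ) ≤ ρ * C ^ 2 * ((a : ℝ) ^ 2 * τ) := by
        calc (C : ℝ) ^ 2 * (a * τ) ≤ C ^ 2 * ((a : ℝ) ^ 2 * τ) :=
              mul_le_mul_of_nonneg_left h2 (by positivity)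
          _ ≤ ρ * C ^ 2 * ((a : ℝ) ^ 2 * τ) := by
            apply mul_le_mul_of_nonneg_right _ (by positivity)
            nlinarith [sq_nonneg (C : ℝ)]
      have h4 : 20480 * (ρ * C ^ 2 * ((a : ℝ) ^ 2 * τ)) ≤ K := by
        have : 20480 * ((ρ : ℝ) * C ^ 2 * ((a : ℝ) ^ 2 * τ)) = c * ((a : ℝ) ^ 2 * τ) := by
          rw [hc]; ring
        rw [this]; exact hmain
      nlinarith [show 0 ≤ (C : ℝ) ^ 2 * (a * τ) by positivity]
    have h5 : 48 * (C : ℝ) ^ 2 * a ≤ (a : ℝ) ^ 3 := by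
      have e1 : 48 * (C : ℝ) ^ 2 ≤ a := by nlinarith [sq_nonneg (C : ℝ)]
      have e2 : (a : ℝ) ≤ (a : ℝ) ^ 2 := by nlinarith
      calc 48 * (C : ℝ) ^ 2 * a ≤ (a : ℝ) ^ 2 * a := by
            apply mul_le_mul_of_nonneg_right (e1.trans e2) (by linarith)
        _ = _ := by ring
    have h6 : (((C : ℝ) + 1) * a + a * (40 * C * τ + 1)) * (4 * C) =
        4 * C ^ 2 * a + 8 * C * a + 160 * (C ^ 2 * (a * τ)) := by ring
    have h7 : (((C : ℝ) + 1) * a + a * (⌈40 * (C : ℝ) * τ⌉₊ : ℝ)) * (4 * C) ≤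
        (((C : ℝ) + 1) * a + a * (40 * C * τ + 1)) * (4 * C) :=
      mul_le_mul_of_nonneg_right (by linarith) (by positivity)
    have h8 : (C : ℝ) * a ≤ (C : ℝ) ^ 2 * a := by
      apply mul_le_mul_of_nonneg_right _ (by linarith)
      nlinarith
    have h9 : 12 * ((C : ℝ) ^ 2 * a) ≤ K / 4 := by
      have : 48 * ((C : ℝ) ^ 2 * a) ≤ K := by
        calc 48 * ((C : ℝ) ^ 2 * a) = 48 * (C : ℝ) ^ 2 * a := by ring
          _ ≤ (a : ℝ) ^ 3 := h5
          _ ≤ K := ha2
      linarith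
    have h10 : (0 : ℝ) < K := by linarith
    rw [h6] at h7
    refine lt_of_le_of_lt h7 ?_
    have h11 : 160 * ((C : ℝ) ^ 2 * (a * τ)) ≤ K / 4 := by linarith
    have h12 : 4 * (C : ℝ) ^ 2 * a = 4 * ((C : ℝ) ^ 2 * a) := by ring
    have h13 : 8 * (C : ℝ) * a = 8 * ((C : ℝ) * a) := by ring
    rw [h12, h13]
    linarith
  · rw [Nat.le_div_iff_mul_le (by positivity)]
    calc a ^ 8 * (8 * C * a) = a ^ 9 * (8 * C) := by ring
      _ ≤ a ^ 9 * a := by
        apply Nat.mul_le_mul_left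
        have : 8 * C ≤ 4000 * ρ * C ^ 2 := by nlinarith [Nat.mul_le_mul hρ hC, Nat.mul_le_mul_left C hC]
        omega
      _ = a ^ 10 := by ring
      _ ≤ K := haK
  · intro i hi
    rw [le_div_iff₀ (by positivity)]
    have h1 : (K : ℝ) < (i + 1) * (8 * C * a) := by
      have h2 : K < (K / (8 * C * a) + 1) * (8 * C * a) := by
        have h3 : 0 < 8 * C * a := Nat.mul_pos (Nat.mul_pos (by norm_num) hC) ha1
        have := Nat.lt_div_mul_add (a := K) h3
        rw [Nat.add_mul, Nat.one_mul]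
        exact this
      have h3 : K < (i + 1) * (8 * C * a) :=
        lt_of_lt_of_le h2 (Nat.mul_le_mul_right _ (by omega))
      exact_mod_cast h3
    have h2 : 4 * ((⌈40 * (C : ℝ) * τ⌉₊ : ℝ) * a) ≤ 4 * ((40 * C * τ + 1) * a) := by
      have := mul_le_mul_of_nonneg_right hG (show (0 : ℝ) ≤ a by linarith)
      linarith
    have h3 : (4 * ((40 * (C : ℝ) * τ + 1) * a) + 2) * (4 * ρ) * (8 * C * a) + 8 * C * a ≤ K := by
      have e1 : (4 * ((40 * (C : ℝ) * τ + 1) * a) + 2) * (4 * ρ) * (8 * C * a) + 8 * C * a =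
          5120 * (ρ * C ^ 2 * ((a : ℝ) ^ 2 * τ)) + 128 * (ρ * C * a ^ 2) + 64 * (ρ * C * a) +
            8 * (C * a) := by ring
      have e2 : 20480 * (ρ * C ^ 2 * ((a : ℝ) ^ 2 * τ)) ≤ K := by
        have : 20480 * ((ρ : ℝ) * C ^ 2 * ((a : ℝ) ^ 2 * τ)) = c * ((a : ℝ) ^ 2 * τ) := by
          rw [hc]; ring
        rw [this]; exact hmain
      have e3 : (ρ : ℝ) * C * a ≤ ρ * C * a ^ 2 := by
        apply mul_le_mul_of_nonneg_left _ (by positivity)
        nlinarith
      have e4 : (C : ℝ) * a ≤ ρ * C * a ^ 2 := by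
        refine le_trans ?_ e3
        apply mul_le_mul_of_nonneg_right _ (by linarith)
        nlinarith
      have e5 : 800 * ((ρ : ℝ) * C * a ^ 2) ≤ K := by
        have e6 : 800 * ((ρ : ℝ) * C) ≤ a := by
          have : (ρ : ℝ) * C ≤ ρ * C ^ 2 := by
            apply mul_le_mul_of_nonneg_left _ (by positivity)
            nlinarith
          nlinarith [show 0 ≤ (ρ : ℝ) * C ^ 2 by positivity]
        calc 800 * ((ρ : ℝ) * C * a ^ 2) = 800 * ((ρ : ℝ) * C) * a ^ 2 := by ring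
          _ ≤ (a : ℝ) * (a : ℝ) ^ 2 := mul_le_mul_of_nonneg_right e6 (by positivity)
          _ = (a : ℝ) ^ 3 := by ring
          _ ≤ K := ha2
      rw [e1]
      linarith
    have h4 : (4 * ((40 * (C : ℝ) * τ + 1) * a) + 2) * (4 * ρ) ≤ i := by
      have h5 : (0 : ℝ) < 8 * C * a := by positivity
      have h6 : (4 * ((40 * (C : ℝ) * τ + 1) * a) + 2) * (4 * ρ) * (8 * C * a) ≤ i * (8 * C * a) := by
        nlinarith
      exact le_of_mul_le_mul_right h6 h5
    calc (4 * ((⌈40 * (C : ℝ) * τ⌉₊ : ℝ) * a) + 2) * (4 * ρ)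
        ≤ (4 * ((40 * (C : ℝ) * τ + 1) * a) + 2) * (4 * ρ) :=
          mul_le_mul_of_nonneg_right (by linarith) (by positivity)
      _ ≤ i := h4

/-! ### restriction to the first coordinates -/

lemma av_restrict {F : Type} [Fintype F] [Nonempty F] {i K : ℕ} (hi : i ≤ K)
    (h : (Fin i → F) → ℝ) :
    av (fun η : Fin K → F => h (fun j => η (Fin.castLE hi j))) = av h := by
  obtain ⟨m, rfl⟩ := Nat.exists_eq_add_of_le hi
  rw [← av_equiv (Fin.appendEquiv i m) (fun η : Fin (i + m) → F => h (fun j => η (Fin.castLE hi j)))]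
  have : (fun x : (Fin i → F) × (Fin m → F) => h (fun j => (Fin.appendEquiv i m) x (Fin.castLE hi j)))
      = fun x => h x.1 := by
    funext x
    congr 1
    funext j
    exact Fin.append_left x.1 x.2 j
  rw [this]
  exact av_fst h

lemma av_restrict2 {F : Type} [Fintype F] [Nonempty F] {i K : ℕ} (hi : i ≤ K)
    (h : (Fin i → F) → (Fin i → F) → ℝ) :
    av (fun p : (Fin K → F) × (Fin K → F) =>
      h (fun j => p.1 (Fin.castLE hi j)) (fun j => p.2 (Fin.castLE hi j))) =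
    av (fun p : (Fin i → F) × (Fin i → F) => h p.1 p.2) := by
  rw [av_prod, av_prod]
  have h1 : ∀ x : Fin K → F, av (fun y : Fin K → F =>
      h (fun j => x (Fin.castLE hi j)) (fun j => y (Fin.castLE hi j))) =
      av (fun y : Fin i → F => h (fun j => x (Fin.castLE hi j)) y) := fun x =>
    av_restrict hi (fun y => h (fun j => x (Fin.castLE hi j)) y)
  simp only [h1]
  exact av_restrict hi (fun x => av (fun y : Fin i → F => h x y))

/-! ### the main statement -/

theorem main (h : S_CONC) : S_HOR := by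
  intro ρ C hρ hC
  obtain ⟨A₀, hA₀⟩ := numerics ρ C hρ hC
  refine ⟨A₀, ?_⟩
  intro F₂ H₂ F _ _ _ _ _ m₂ K a Φ o ha haK hΦ hgrow ho
  have hρ1 : (1 : ℝ) ≤ ρ := by exact_mod_cast hρ
  have hC1 : (1 : ℝ) ≤ C := by exact_mod_cast hC
  set τ : ℝ := a * Real.sqrt (2 * K * Real.log (100 * (K + 1))) with hτ
  obtain ⟨hK1, ha1, hτa, hN1, hN3, hN2⟩ := hA₀ K a ha haK τ hτ
  have haR1 : (1 : ℝ) ≤ a := by exact_mod_cast ha1
  have hKR1 : (1 : ℝ) ≤ K := by exact_mod_cast hK1
  set G : ℕ := ⌈40 * (C : ℝ) * τ⌉₊ with hG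
  set i₀ : ℕ := K / (8 * C * a) with hi₀
  have hτ0 : 0 < τ := by linarith
  -- the means
  let g : ℕ → (Fin K → F) → ℝ := fun i η => (m₂.d 1 (ps (Φ (hy i o η))) : ℝ)
  let M : ℕ → ℝ := fun i => av (g i)
  have hM0 : M 0 ≤ C * a := by
    have : g 0 = fun _ => (m₂.d 1 (ps (Φ o)) : ℝ) := by
      funext η; simp only [g]; rw [hy_zero]
    simp only [M, this]
    rw [av_const]
    exact_mod_cast ho
  have hMs : ∀ i < K, M (i + 1) ≤ M i + a := by
    intro i hi
    have h1 : M i + a = av (fun η => g i η + a) := by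
      rw [av_add, av_const]
    rw [h1]
    apply av_mono
    intro η
    have h2 := abs_d_le (m₂ := m₂) (Φ (hy i o η)) (Φ (hy (i + 1) o η)) (b := a)
      (by rw [hy_succ hi]; exact hΦ.lip _ _ _)
    have h3 := (abs_le.1 h2).2
    simp only [g]
    linarith
  have hMK : (K : ℝ) / (2 * C) - a ≤ M K := by
    have h1 : ∀ η : Fin K → F,
        ((Finset.univ.filter fun j => η j ≠ o j).card : ℝ) * (1 / C) - a ≤ g K η := by
      intro η
      have h2 : ((Finset.univ.filter fun j => η j ≠ o j).card : ℝ) ≤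
          C * ((m₂.d 1 (ps (Φ η)) : ℝ) + a) := by exact_mod_cast hgrow η
      simp only [g]
      rw [hy_all le_rfl, mul_one_div, sub_le_iff_le_add, div_le_iff₀ (by linarith)]
      linarith
    have h2 := av_mono h1
    rw [av_sub, av_mul_const, av_const] at h2
    have h3 := av_ham_o o
    have h4 : (K : ℝ) / (2 * C) = K / 2 * (1 / C) := by field_simp
    rw [h4]
    have h5 := mul_le_mul_of_nonneg_right h3 (show (0 : ℝ) ≤ 1 / C by positivity)
    linarith
  have hG1 : 1 ≤ G := by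
    rw [hG, Nat.one_le_ceil_iff]; positivity
  have hGτ : 40 * (C : ℝ) * τ ≤ G := Nat.le_ceil _
  have hi₀K : i₀ * (8 * C * a) ≤ K := Nat.div_mul_le_self _ _
  have hi₀le : i₀ ≤ K := Nat.div_le_self _ _
  have hi₀' : (a : ℝ) * i₀ ≤ K / (8 * C) := by
    rw [le_div_iff₀ (by positivity)]
    have : (i₀ : ℝ) * (8 * C * a) ≤ K := by exact_mod_cast hi₀K
    linarith
  obtain ⟨i, hi0, hiG, hMi⟩ := exists_i (M := M) hC hG1 hGτ hτ0.le hi₀le hi₀' hM0 hMs hMK hN1
  have hiK : i ≤ K := by omega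
  refine ⟨i, hN3.trans hi0, hiK, ?_⟩
  -- concentration
  set ε : ℝ := 1 / (100 * (K + 1)) with hε
  have hexp : Real.exp (-τ ^ 2 / (2 * (a : ℝ) ^ 2 * K)) = ε := by
    have h1 : τ ^ 2 = (a : ℝ) ^ 2 * (2 * K * Real.log (100 * (K + 1))) := by
      rw [hτ, mul_pow, Real.sq_sqrt]
      have : 0 ≤ Real.log (100 * ((K : ℝ) + 1)) := Real.log_nonneg (by linarith)
      positivity
    have h2 : -τ ^ 2 / (2 * (a : ℝ) ^ 2 * K) = - Real.log (100 * (K + 1)) := by
      rw [h1]
      have : (a : ℝ) ≠ 0 := by positivity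
      have : (K : ℝ) ≠ 0 := by positivity
      field_simp
    rw [h2, Real.exp_neg, Real.exp_log (by positivity), hε, one_div]
  have hbad : ∀ j : ℕ, pr (fun η => τ ≤ |g j η - M j|) ≤ 2 * ε := by
    intro j
    have h1 := h F K a (g j) hK1 (by linarith) (lip_g hΦ j o) τ hτ0.le
    rw [hexp] at h1
    have h2 : pr (fun η => τ ≤ |g j η - M j|) ≤
        pr (fun η => (av (g j) + τ ≤ g j η) ∨ (g j η ≤ av (g j) - τ)) := by
      apply pr_mono
      intro η hη
      rcases le_abs'.1 hη with h3 | h3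
      · right
        have : M j = av (g j) := rfl
        rw [this] at h3
        linarith
      · left
        have : M j = av (g j) := rfl
        rw [this] at h3
        linarith
    have h3 := pr_or_le (fun η => av (g j) + τ ≤ g j η) (fun η => g j η ≤ av (g j) - τ)
    linarith [h1.1, h1.2]
  let BAD : (Fin K → F) → Prop := fun η => τ ≤ |g i η - M i| ∨ τ ≤ |g (i + G) η - M (i + G)|
  have hBAD : pr BAD ≤ 4 * ε := by
    have := pr_or_le (fun η => τ ≤ |g i η - M i|) (fun η => τ ≤ |g (i + G) η - M (i + G)|)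
    linarith [hbad i, hbad (i + G)]
  let Bp : (Fin K → F) × (Fin K → F) → Prop := fun p =>
    ∃ j ∈ Finset.range (K + 1), BAD (hy j p.1 p.2)
  have hBp : pr Bp ≤ 4 / 100 := by
    have h1 := pr_exists_hy (k := K) BAD
    have h2 : ((K : ℝ) + 1) * pr BAD ≤ (K + 1) * (4 * ε) :=
      mul_le_mul_of_nonneg_left hBAD (by linarith)
    have h3 : ((K : ℝ) + 1) * (4 * ε) = 4 / 100 := by
      rw [hε]; field_simp
    exact (h1.trans h2).trans h3.le
  -- the good pairs
  set s : ℕ := ⌊M i + τ⌋₊ + a + 1 with hs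
  have hMi0 : 0 ≤ M i := av_nonneg fun η => Nat.cast_nonneg _
  have hgood : ∀ p : (Fin K → F) × (Fin K → F), ¬ Bp p →
      (lw F₂ m₂).d (Φ (hy i o p.1)) (Φ (hy i o p.2)) ≤
        4 * (G * a) + m₂.d (ps (Φ (hy i o p.1))) (ps (Φ (hy i o p.2))) := by
    intro p hp
    have hp' : ∀ j ≤ K, |g i (hy j p.1 p.2) - M i| < τ ∧
        |g (i + G) (hy j p.1 p.2) - M (i + G)| < τ := by
      intro j hj
      by_contra hcon
      apply hp
      refine ⟨j, Finset.mem_range.2 (by omega), ?_⟩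
      by_contra hB
      apply hcon
      constructor
      · by_contra h1
        exact hB (Or.inl (not_lt.1 h1))
      · by_contra h1
        exact hB (Or.inr (not_lt.1 h1))
    apply good_dist hΦ hiG o p.1 p.2 (s := s)
    · intro j hj
      have h1 := (abs_lt.1 (hp' j hj).1).2
      have h2 : (m₂.d 1 (ps (Φ (hy i o (hy j p.1 p.2)))) : ℝ) ≤ M i + τ := by
        have : g i (hy j p.1 p.2) = (m₂.d 1 (ps (Φ (hy i o (hy j p.1 p.2)))) : ℝ) := rfl
        linarith
      have h3 := Nat.le_floor h2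
      omega
    · intro j hj
      have h1 := (abs_lt.1 (hp' j hj).2).1
      have h2 : M i + 4 * τ < (m₂.d 1 (ps (Φ (hy (i + G) o (hy j p.1 p.2)))) : ℝ) := by
        have : g (i + G) (hy j p.1 p.2) =
          (m₂.d 1 (ps (Φ (hy (i + G) o (hy j p.1 p.2)))) : ℝ) := rfl
        linarith
      have h3 : (⌊M i + τ⌋₊ : ℝ) ≤ M i + τ := Nat.floor_le (by linarith)
      have h4 : ((s + a : ℕ) : ℝ) < (m₂.d 1 (ps (Φ (hy (i + G) o (hy j p.1 p.2)))) : ℝ) := by
        rw [hs]
        push_cast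
        linarith
      exact_mod_cast h4
  -- averaging
  let N : (Fin K → F) × (Fin K → F) → ℝ := fun p =>
    ((Finset.univ.filter fun j => hy i o p.1 j ≠ hy i o p.2 j).card : ℝ)
  have hNi : ∀ p, N p ≤ i := by
    intro p
    have h1 : (Finset.univ.filter fun j => hy i o p.1 j ≠ hy i o p.2 j).card ≤
        (Finset.range i).card := by
      apply Finset.card_le_card_of_injOn (fun j : Fin K => (j : ℕ))
      · intro j hj
        simp only [Finset.coe_filter, Finset.mem_univ, true_and] at hj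
        simp only [Finset.coe_range, Set.mem_Iio]
        by_contra hcon
        apply hj
        have : ¬ (j : ℕ) < i := hcon
        simp [hy, this]
      · intro x _ y _ hxy
        exact Fin.ext hxy
    rw [Finset.card_range] at h1
    simp only [N]
    exact_mod_cast h1
  have hpt : ∀ p : (Fin K → F) × (Fin K → F),
      N p * (1 / ρ) - (4 * ((G : ℝ) * a) + 2) - (i / ρ : ℝ) * (if Bp p then (1 : ℝ) else 0) ≤
        (m₂.d (ps (Φ (hy i o p.1))) (ps (Φ (hy i o p.2))) : ℝ) := by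
    intro p
    have hd0 : (0 : ℝ) ≤ (m₂.d (ps (Φ (hy i o p.1))) (ps (Φ (hy i o p.2))) : ℝ) := Nat.cast_nonneg _
    by_cases hp : Bp p
    · rw [if_pos hp]
      have h1 : N p * (1 / ρ) ≤ i / ρ := by
        rw [mul_one_div]
        exact div_le_div_of_nonneg_right (hNi p) (by linarith)
      have h2 : (0 : ℝ) ≤ (G : ℝ) * a := by positivity
      linarith
    · rw [if_neg hp]
      have h1 := hgood p hp
      have h2 := hΦ.low (hy i o p.1) (hy i o p.2)
      have h3 : N p ≤ ρ * (4 * ((G : ℝ) * a) +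
          (m₂.d (ps (Φ (hy i o p.1))) (ps (Φ (hy i o p.2))) : ℝ)) + 2 * ρ := by
        have h4 : (Finset.univ.filter fun j => hy i o p.1 j ≠ hy i o p.2 j).card ≤
            ρ * (4 * (G * a) + m₂.d (ps (Φ (hy i o p.1))) (ps (Φ (hy i o p.2)))) + 2 * ρ :=
          h2.trans (Nat.add_le_add_right (Nat.mul_le_mul_left _ h1) _)
        simp only [N]
        exact_mod_cast h4
      rw [mul_one_div, mul_zero, sub_zero, sub_le_iff_le_add, div_le_iff₀ (by linarith)]
      linarith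
  have hav := av_mono hpt
  rw [av_sub, av_sub, av_mul_const, av_const_mul, av_const] at hav
  have hN2' := hN2 i hi0
  have hNav := av_ham_pair o hiK
  have hprB : av (fun p => if Bp p then (1 : ℝ) else 0) = pr Bp := av_ite Bp
  rw [hprB] at hav
  have hfin : (i : ℝ) / (8 * ρ) ≤ av (fun p : (Fin K → F) × (Fin K → F) =>
      (m₂.d (ps (Φ (hy i o p.1))) (ps (Φ (hy i o p.2))) : ℝ)) := by
    have hir : (0 : ℝ) ≤ i / ρ := by positivity
    have e1 : (i : ℝ) / 2 * (1 / ρ) ≤ av N * (1 / ρ) :=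
      mul_le_mul_of_nonneg_right hNav (by positivity)
    have e2 : (i / ρ : ℝ) * pr Bp ≤ i / ρ * (4 / 100) := mul_le_mul_of_nonneg_left hBp hir
    have e3 : (i : ℝ) / (4 * ρ) = (i / ρ) / 4 := by field_simp
    have e4 : (i : ℝ) / (8 * ρ) = (i / ρ) / 8 := by field_simp
    have e5 : (i : ℝ) / 2 * (1 / ρ) = (i / ρ) / 2 := by field_simp
    rw [e3] at hN2'
    rw [e5] at e1
    rw [e4]
    linarith
  refine hfin.trans (le_of_eq ?_)
  have h5 := av_restrict2 (F := F) hiK (fun x y : Fin i → F =>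
    (m₂.d (ps (Φ fun j => if h : (j : ℕ) < i then x ⟨j, h⟩ else o j))
      (ps (Φ fun j => if h : (j : ℕ) < i then y ⟨j, h⟩ else o j)) : ℝ))
  unfold spread
  rw [← h5]
  rfl

end Pool.Agent.H351.QE.HOR
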