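import Pool.Agent.H351.QE.Stm

set_option autoImplicit false
set_option linter.unusedSectionVars false

open Pool.Agent.EndsLamp

namespace Pool.Agent.H351.QE.MOVE

open scoped Classical

section

variable {F H : Type} [Group F] [Group H] [Finite F] {m : WM H} {r k : ℕ}

lemma Stp.symm {t t' : Lm F H × (Fin k → H)} (h : Stp m r t t') : Stp m r t' t := by
  obtain ⟨h1, h2, h3⟩ := h
  refine ⟨h2, h1, ?_⟩
  rcases h3 with ⟨h3, i, b, h4⟩ | ⟨h3, h4⟩
  · refine Or.inl ⟨h3.symm, i, t.2 i, ?_⟩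
    rw [h4, Function.update_idem, Function.update_eq_self]
  · refine Or.inr ⟨h3.symm, ?_⟩
    rw [WM.d_comm]
    exact h4

lemma Ch.trans {n l : ℕ} {t t' t'' : Lm F H × (Fin k → H)} (h : Ch m r n t t')
    (h' : Ch m r l t' t'') : Ch m r (n + l) t t'' := by
  induction n generalizing t with
  | zero =>
    have h1 : t = t' := h
    rw [h1, Nat.zero_add]
    exact h'
  | succ n ih =>
    obtain ⟨s, h1, h2⟩ := h
    rw [Nat.succ_add]
    exact ⟨s, h1, ih h2⟩

lemma Ch.one {t t' : Lm F H × (Fin k → H)} (h : Stp m r t t') : Ch m r 1 t t' := ⟨t', h, rfl⟩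

lemma Ch.symm {n : ℕ} {t t' : Lm F H × (Fin k → H)} (h : Ch m r n t t') : Ch m r n t' t := by
  induction n generalizing t with
  | zero =>
    have h1 : t = t' := h
    exact h1.symm
  | succ n ih =>
    obtain ⟨s, h1, h2⟩ := h
    exact Ch.trans (ih h2) (Ch.one (Stp.symm h1))

/-- the intermediate tuples of a swap -/
def hyb {k : ℕ} (β γ : Fin k → H) (j : ℕ) : Fin k → H := fun i => if (i : ℕ) < j then γ i else β i

lemma val_hyb {z : Lm F H} {β γ : Fin k → H} (hβ : Val m r (z, β)) (hγ : Val m r (z, γ))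
    (hne : ∀ i j, γ i ≠ β j) (j : ℕ) : Val m r (z, hyb β γ j) := by
  constructor
  · intro i i' h
    have h' : hyb β γ j i = hyb β γ j i' := h
    unfold hyb at h'
    by_cases h1 : (i : ℕ) < j <;> by_cases h2 : (i' : ℕ) < j
    · rw [if_pos h1, if_pos h2] at h'
      exact hγ.1 h'
    · rw [if_pos h1, if_neg h2] at h'
      exact absurd h' (hne _ _)
    · rw [if_neg h1, if_pos h2] at h'
      exact absurd h'.symm (hne _ _)
    · rw [if_neg h1, if_neg h2] at h'
      exact hβ.1 h'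
  · intro i
    show m.d (ps z) (hyb β γ j i) ≤ r
    unfold hyb
    split_ifs
    · exact hγ.2 i
    · exact hβ.2 i

lemma swap {z : Lm F H} {β γ : Fin k → H} (hβ : Val m r (z, β)) (hγ : Val m r (z, γ))
    (hne : ∀ i j, γ i ≠ β j) : Ch m r k (z, β) (z, γ) := by
  have key : ∀ j, j ≤ k → Ch m r j (z, β) (z, hyb β γ j) := by
    intro j
    induction j with
    | zero =>
      intro _
      show (z, β) = (z, hyb β γ 0)
      congr 1
    | succ j ih =>
      intro hj
      refine Ch.trans (ih (by omega)) (Ch.one ⟨val_hyb hβ hγ hne j, val_hyb hβ hγ hne (j + 1),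
        Or.inl ⟨rfl, ⟨j, hj⟩, γ ⟨j, hj⟩, ?_⟩⟩)
      funext i
      show hyb β γ (j + 1) i = Function.update (hyb β γ j) ⟨j, hj⟩ (γ ⟨j, hj⟩) i
      by_cases hi : i = ⟨j, hj⟩
      · subst hi
        rw [Function.update_self]
        unfold hyb
        rw [if_pos (Nat.lt_succ_self j)]
      · rw [Function.update_of_ne hi]
        have h1 : (i : ℕ) ≠ j := fun h => hi (Fin.ext h)
        unfold hyb
        by_cases h2 : (i : ℕ) < j
        · rw [if_pos h2, if_pos (by omega)]
        · rw [if_neg h2, if_neg (by omega)]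
  have h1 := key k le_rfl
  have h2 : hyb β γ k = γ := by
    funext i
    unfold hyb
    rw [if_pos i.2]
  rwa [h2] at h1

lemma ball_card (x : H) (n : ℕ) : (m.ball_fin x n).toFinset.card = bl m n := by
  rw [← Set.ncard_eq_toFinset_card _ (m.ball_fin x n)]
  unfold bl
  have : {y | m.d x y ≤ n} = (fun y => x * y) '' {y : H | m.d 1 y ≤ n} := by
    ext y
    constructor
    · intro h
      refine ⟨x⁻¹ * y, ?_, by simp⟩
      have h1 := m.d_mul x 1 (x⁻¹ * y)
      rw [mul_one, mul_inv_cancel_left] at h1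
      show m.d 1 (x⁻¹ * y) ≤ n
      rw [← h1]
      exact h
    · rintro ⟨g, hg, rfl⟩
      have h1 := m.d_mul x 1 g
      rw [mul_one] at h1
      show m.d x (x * g) ≤ n
      rw [h1]
      exact hg
  rw [this]
  exact Set.ncard_image_of_injective _ (mul_right_injective x)

/-- room for another tuple -/
lemma exists_tuple (x : H) (n : ℕ) (h : 3 * k ≤ bl m n) (A : Finset H) (hA : A.card ≤ 2 * k) :
    ∃ γ : Fin k → H, Function.Injective γ ∧ (∀ i, m.d x (γ i) ≤ n) ∧ ∀ i, γ i ∉ A := by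
  let B := (m.ball_fin x n).toFinset \ A
  have hB : k ≤ B.card := by
    have h1 := Finset.le_card_sdiff A (m.ball_fin x n).toFinset
    rw [ball_card] at h1
    refine le_trans ?_ h1
    omega
  have h2 : Fintype.card (Fin k) ≤ Fintype.card B := by
    rw [Fintype.card_fin, Fintype.card_coe]
    exact hB
  obtain ⟨e⟩ := Function.Embedding.nonempty_of_card_le h2
  refine ⟨fun i => (e i).1, fun i j hij => e.injective (Subtype.ext hij), fun i => ?_, fun i => ?_⟩
  · have := (Finset.mem_sdiff.1 (e i).2).1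
    simpa using this
  · exact (Finset.mem_sdiff.1 (e i).2).2

lemma card_im (β : Fin k → H) : (Finset.univ.image β).card ≤ k := by
  refine Finset.card_image_le.trans ?_
  rw [Finset.card_univ, Fintype.card_fin]

/-- two tuples at the same point -/
lemma same (hr : 1 ≤ r) (hb : 3 * k ≤ bl m (r - 1)) {z : Lm F H} {β β' : Fin k → H}
    (h : Val m r (z, β)) (h' : Val m r (z, β')) : Ch m r (k + k) (z, β) (z, β') := by
  obtain ⟨γ, h1, h2, h3⟩ := exists_tuple (m := m) (ps z) (r - 1) hb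
    (Finset.univ.image β ∪ Finset.univ.image β')
    ((Finset.card_union_le _ _).trans (by have := card_im β; have := card_im β'; omega))
  have hγ : Val m r (z, γ) := ⟨h1, fun i => (h2 i).trans (by omega)⟩
  refine Ch.trans (swap h hγ fun i j he => h3 i ?_) (Ch.symm (swap h' hγ fun i j he => h3 i ?_))
  · rw [he]
    exact Finset.mem_union_left _ (Finset.mem_image_of_mem _ (Finset.mem_univ _))
  · rw [he]
    exact Finset.mem_union_right _ (Finset.mem_image_of_mem _ (Finset.mem_univ _))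

lemma move (hr : 1 ≤ r) (hb : 3 * k ≤ bl m (r - 1)) {z z' : Lm F H} {β : Fin k → H}
    (h : Val m r (z, β)) (hz : (lw F m).d z z' ≤ 1) :
    ∃ γ : Fin k → H, Val m r (z', γ) ∧ Ch m r (k + 1) (z, β) (z', γ) := by
  obtain ⟨γ, h1, h2, h3⟩ := exists_tuple (m := m) (ps z) (r - 1) hb (Finset.univ.image β)
    ((card_im β).trans (by omega))
  have hγ : Val m r (z, γ) := ⟨h1, fun i => (h2 i).trans (by omega)⟩
  have hγ' : Val m r (z', γ) := ⟨h1, fun i => by
    have h4 := m.tri (ps z') (ps z) (γ i)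
    have h5 := (lw_step m hz).1
    have h6 := h2 i
    rw [m.d_comm (ps z') (ps z)] at h4
    show m.d (ps z') (γ i) ≤ r
    omega⟩
  refine ⟨γ, hγ', Ch.trans (swap h hγ fun i j he => h3 i ?_) (Ch.one ⟨hγ, hγ', Or.inr ⟨rfl, hz⟩⟩)⟩
  rw [he]
  exact Finset.mem_image_of_mem _ (Finset.mem_univ _)

lemma moves (hr : 1 ≤ r) (hb : 3 * k ≤ bl m (r - 1)) (n : ℕ) (t : Lm F H × (Fin k → H))
    (h : Val m r t) (z' : Lm F H) (hn : (lw F m).d t.1 z' = n) :
    ∃ β' : Fin k → H, Val m r (z', β') ∧ Ch m r ((k + 1) * n) t (z', β') := by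
  induction n generalizing z' with
  | zero =>
    have h1 : t.1 = z' := (lw F m).eq_of_d hn
    subst h1
    exact ⟨t.2, h, rfl⟩
  | succ n ih =>
    obtain ⟨y, h1, h2⟩ := (lw F m).prev hn
    obtain ⟨β, h3, h4⟩ := ih y h1
    obtain ⟨γ, h5, h6⟩ := move hr hb h3 h2
    refine ⟨γ, h5, ?_⟩
    have h7 := Ch.trans h4 h6
    rwa [Nat.mul_succ]

end

theorem main : S_MOVE := by
  intro F H _ _ _ m r k hr hb
  refine ⟨fun t t' ht ht' => ?_, fun t ht z' => moves hr hb _ t ht z' rfl⟩
  obtain ⟨β, h1, h2⟩ := moves hr hb _ t ht t'.1 rfl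
  exact ⟨_, Ch.trans h2 (same hr hb h1 ht')⟩

end Pool.Agent.H351.QE.MOVE
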