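import Pool.Agent.H351.QE.Stm

/-! # Project QE: groups with at least three ends satisfy a linear isoperimetric inequality -/

set_option autoImplicit false

open Pool.Agent.EndsLamp

namespace Pool.Agent.H351.QE.NONAM

open scoped Classical

variable {H : Type} [Group H] {m : WM H}

/-- the ball -/
def B (m : WM H) (n : ℕ) (y : H) : Set H := {z | m.d y z ≤ n}

lemma mem_B (n : ℕ) (y : H) : y ∈ B m n y := by simp [B]

lemma disj_B {n : ℕ} {y y' : H} (h : 2 * n < m.d y y') {z : H} (hz : z ∈ B m n y)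
    (hz' : z ∈ B m n y') : False := by
  have h1 : m.d y z ≤ n := hz
  have h2 : m.d y' z ≤ n := hz'
  have h3 := m.tri y z y'
  rw [m.d_comm z y'] at h3
  omega

lemma conn_B (n : ℕ) {y z : H} (h : z ∈ B m n y) : Cn m (B m n y) y z := ball_conn y n h

/-- a component is the component of each of its points -/
lemma compOf_eq' {K A : Set H} (h : IsComp m K A) {x : H} (hx : x ∈ A) : compOf m K x = A := by
  ext z
  constructor
  · intro hz
    exact Cn.prop hz (fun z => z ∈ A) (fun a b _ hb hab hPa => h.clo a hPa b hb hab) hx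
  · intro hz
    exact (h.conn x hx z hz).mono fun w hw => h.disj w hw

/-- the component is linked to the ball -/
lemma adj {n : ℕ} {y : H} {E : Set H} (h : IsComp m (B m n y) E) (hne : E.Nonempty) :
    ∃ a ∈ E, ∃ b ∈ B m n y, m.d a b ≤ 1 := by
  obtain ⟨x, hx⟩ := hne
  obtain ⟨a, b, ha, hb, hab, -, -⟩ := m.change (fun z => z ∈ E) hx (y := y)
    (fun hy => h.disj y hy (mem_B n y))
  refine ⟨a, ha, b, ?_, hab⟩
  by_contra hcon
  exact hb (h.clo a ha b hcon hab)

lemma link {n : ℕ} {y : H} {E V : Set H} (h : IsComp m (B m n y) E) (hE : E ⊆ V)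
    (hB : B m n y ⊆ V) {z : H} (hz : z ∈ E) : Cn m V y z := by
  obtain ⟨a, ha, b, hb, hab⟩ := adj h ⟨z, hz⟩
  refine ((conn_B n hb).mono hB).trans (Cn.trans ?_ ((h.conn a ha z hz).mono hE))
  exact Cn.step (hB hb) (hE ha) (by rw [m.d_comm]; exact hab)

/-- a component of the complement of `B y` that misses `y₀` misses `B y₀` -/
lemma miss {n : ℕ} {y y₀ : H} (hd : 2 * n < m.d y y₀) {E : Set H} (h : IsComp m (B m n y) E)
    (h0 : y₀ ∉ E) {z : H} (hz : z ∈ E) : z ∉ B m n y₀ := by
  intro hzB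
  apply h0
  have h1 := (conn_B n hzB).symm
  refine h1.prop (fun w => w ∈ E) (fun a b ha hb hab hPa => ?_) hz
  exact h.clo a hPa b (fun hbB => disj_B hd hbB hb) hab

/-- the counting argument -/
lemma count (n : ℕ) (h3 : ∀ y : H, ∃ C : Fin 3 → Set H, (∀ i, IsComp m (B m n y) (C i)) ∧
    (∀ i, (C i).Infinite) ∧ Pairwise fun i j => Disjoint (C i) (C j)) :
    ∀ (N : ℕ) (Y D : Finset H), Y.card = N + 1 →
      (∀ y ∈ Y, ∀ y' ∈ Y, y ≠ y' → 2 * n < m.d y y') →
      (∀ y ∈ Y, ∀ E : Set H, IsComp m (B m n y) E → E.Infinite → ∃ z ∈ D, z ∈ E) →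
      N + 3 ≤ D.card := by
  intro N
  induction N with
  | zero =>
    intro Y D hY _ hD
    obtain ⟨y, rfl⟩ := Finset.card_eq_one.mp hY
    obtain ⟨C, hC, hCi, hCd⟩ := h3 y
    have hz : ∀ i, ∃ z ∈ D, z ∈ C i := fun i => hD y (by simp) (C i) (hC i) (hCi i)
    choose z hz1 hz2 using hz
    have hinj : Function.Injective z := by
      intro i j hij
      by_contra hne
      exact Set.disjoint_left.mp (hCd hne) (hz2 i) (hij ▸ hz2 j)
    have := Finset.card_le_card_of_injOn (s := (Finset.univ : Finset (Fin 3))) (t := D) z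
      (fun i _ => hz1 i) hinj.injOn
    simpa using this
  | succ N ih =>
    intro Y D hY hsep hD
    -- the maximal component
    have hne : Y.offDiag.Nonempty := by
      rw [← Finset.card_pos, Finset.offDiag_card, hY]
      have : N + 1 + 1 ≤ (N + 1 + 1) * (N + 1 + 1) := Nat.le_mul_of_pos_left _ (by omega)
      have h2 : N + 1 + 1 < (N + 1 + 1) * (N + 1 + 1) := by nlinarith
      omega
    obtain ⟨⟨y₀, y₁⟩, hyy, hmax⟩ := Finset.exists_max_image Y.offDiag
      (fun p => (Y.filter fun y => y ∈ compOf m (B m n p.1) p.2).card) hne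
    rw [Finset.mem_offDiag] at hyy
    obtain ⟨hy₀, hy₁, hne01⟩ := hyy
    simp only at hy₀ hy₁ hne01 hmax
    have hd01 := hsep y₀ hy₀ y₁ hy₁ hne01
    have hy1B : y₁ ∉ B m n y₀ := by
      intro h
      have : m.d y₀ y₁ ≤ n := h
      omega
    have hCc := compOf_isComp (m := m) hy1B
    set C := compOf m (B m n y₀) y₁ with hCdef
    have hall : ∀ y ∈ Y, y ≠ y₀ → y ∈ C := by
      intro y₂ hy₂ hne2
      by_contra hcon
      have hd20 := hsep y₂ hy₂ y₀ hy₀ hne2
      have hd02 : 2 * n < m.d y₀ y₂ := by rw [m.d_comm]; exact hd20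
      have hmiss : ∀ z ∈ C, z ∉ B m n y₂ := fun z hz => miss hd02 hCc hcon hz
      have hV : ∀ z ∈ C, Cn m (B m n y₂)ᶜ y₀ z := fun z hz =>
        link hCc (fun w hw => hmiss w hw) (fun w hw hw2 => disj_B hd20 hw2 hw) hz
      have hlt : (Y.filter fun y => y ∈ C).card <
          (Y.filter fun y => y ∈ compOf m (B m n y₂) y₀).card := by
        apply Finset.card_lt_card
        rw [Finset.ssubset_iff_of_subset]
        · refine ⟨y₀, ?_, ?_⟩
          · simp only [Finset.mem_filter]
            exact ⟨hy₀, mem_compOf y₀⟩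
          · simp only [Finset.mem_filter, not_and]
            intro _ h
            exact hCc.disj y₀ h (mem_B n y₀)
        · intro y hy
          simp only [Finset.mem_filter] at hy ⊢
          exact ⟨hy.1, hV y hy.2⟩
      have := hmax (y₂, y₀) (by
        rw [Finset.mem_offDiag]
        exact ⟨hy₂, hy₀, hne2⟩)
      simp only at this
      omega
    -- two other components
    obtain ⟨A, hA, hAi, hAd⟩ := h3 y₀
    have hcase : ∀ i, (∃ z ∈ A i, z ∈ C) → A i = C := by
      rintro i ⟨z, hz1, hz2⟩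
      rw [← compOf_eq' (hA i) hz1, ← compOf_eq' hCc hz2]
    have htwo : ∀ i j, i ≠ j → (∃ z ∈ A i, z ∈ C) → (∃ z ∈ A j, z ∈ C) → False := by
      intro i j hij hi hj
      obtain ⟨z, hz⟩ := (hAi i).nonempty
      have e1 := hcase i hi
      have e2 := hcase j hj
      exact Set.disjoint_left.mp (hAd hij) hz (by rw [e2, ← e1]; exact hz)
    have hpick : ∃ i j, i ≠ j ∧ (∀ z ∈ A i, z ∉ C) ∧ (∀ z ∈ A j, z ∉ C) := by
      by_contra hcon
      push Not at hcon
      by_cases h0 : ∃ z ∈ A 0, z ∈ C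
      · by_cases h1 : ∃ z ∈ A 1, z ∈ C
        · exact htwo 0 1 (by decide) h0 h1
        · push Not at h1
          exact htwo 0 2 (by decide) h0 (hcon 1 2 (by decide) h1)
      · push Not at h0
        exact htwo 1 2 (by decide) (hcon 0 1 (by decide) h0) (hcon 0 2 (by decide) h0)
    obtain ⟨i, j, hij, hi, hj⟩ := hpick
    obtain ⟨di, hdi1, hdi2⟩ := hD y₀ hy₀ (A i) (hA i) (hAi i)
    obtain ⟨dj, hdj1, hdj2⟩ := hD y₀ hy₀ (A j) (hA j) (hAi j)
    have hdij : di ≠ dj := by
      intro h
      exact Set.disjoint_left.mp (hAd hij) hdi2 (h ▸ hdj2)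
    have hcard1 : (D.filter fun z => z ∈ C).card + 2 ≤ D.card := by
      have hsub : (D.filter fun z => z ∈ C) ⊆ (D.erase di).erase dj := by
        intro z hz
        rw [Finset.mem_filter] at hz
        rw [Finset.mem_erase, Finset.mem_erase]
        refine ⟨?_, ?_, hz.1⟩
        · rintro rfl; exact hj _ hdj2 hz.2
        · rintro rfl; exact hi _ hdi2 hz.2
      have h1 := Finset.card_le_card hsub
      have h2 : dj ∈ D.erase di := Finset.mem_erase.mpr ⟨hdij.symm, hdj1⟩
      rw [Finset.card_erase_of_mem h2, Finset.card_erase_of_mem hdi1] at h1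
      have h3 : 1 < D.card := Finset.one_lt_card.mpr ⟨di, hdi1, dj, hdj1, hdij⟩
      omega
    have hih := ih (Y.erase y₀) (insert y₀ (D.filter fun z => z ∈ C))
      (by rw [Finset.card_erase_of_mem hy₀, hY]; rfl)
      (fun y hy y' hy' hne => hsep y (Finset.mem_of_mem_erase hy) y'
        (Finset.mem_of_mem_erase hy') hne)
      (by
        intro y hy E hE hEi
        rw [Finset.mem_erase] at hy
        by_cases h0 : y₀ ∈ E
        · exact ⟨y₀, Finset.mem_insert_self _ _, h0⟩
        · have hdy := hsep y hy.2 y₀ hy₀ hy.1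
          have hmiss : ∀ z ∈ E, z ∉ B m n y₀ := fun z hz => miss hdy hE h0 hz
          obtain ⟨z, hz1, hz2⟩ := hD y hy.2 E hE hEi
          refine ⟨z, Finset.mem_insert_of_mem (Finset.mem_filter.mpr ⟨hz1, ?_⟩), hz2⟩
          have hyC := hall y hy.2 hy.1
          have hc : Cn m (B m n y₀)ᶜ y z :=
            link hE (fun w hw => hmiss w hw) (fun w hw hw2 => disj_B hdy hw hw2) hz2
          have e : compOf m (B m n y₀) y = C := compOf_eq' hCc hyC
          rw [← e]
          exact hc)
    have := Finset.card_insert_le y₀ (D.filter fun z => z ∈ C)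
    omega

lemma comps (h : HasEnds 3 H) : ∃ n : ℕ, ∀ y : H, ∃ C : Fin 3 → Set H,
    (∀ i, IsComp m (B m n y) (C i)) ∧
    (∀ i, (C i).Infinite) ∧ Pairwise fun i j => Disjoint (C i) (C j) := by
  obtain ⟨n, C, hC, hCi, hd⟩ := three_comps (m := m) h
  refine ⟨n, fun y => ⟨fun i => (fun z => y * z) '' C i, ?_, ?_, ?_⟩⟩
  · intro i
    have := (hC i).translate y
    rwa [ball_translate] at this
  · intro i
    exact (hCi i).image (mul_right_injective y).injOn
  · intro i j hij
    exact (Set.disjoint_image_iff (mul_right_injective y)).mpr (hd hij)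

/-- covering by balls -/
lemma card_cover (n : ℕ) : ∃ v : ℕ, ∀ (S T : Finset H), (∀ x ∈ S, ∃ y ∈ T, m.d y x ≤ n) →
    S.card ≤ v * T.card := by
  have hfin : ∀ y : H, {z | m.d y z ≤ n}.Finite := fun y => m.ball_fin y n
  refine ⟨(hfin 1).toFinset.card, fun S T h => ?_⟩
  have hsub : S ⊆ T.biUnion fun y => (hfin 1).toFinset.image fun z => y * z := by
    intro x hx
    obtain ⟨y, hy, hxy⟩ := h x hx
    rw [Finset.mem_biUnion]
    refine ⟨y, hy, ?_⟩
    rw [Finset.mem_image]
    refine ⟨y⁻¹ * x, ?_, by simp⟩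
    rw [Set.Finite.mem_toFinset]
    have := m.d_mul y 1 (y⁻¹ * x)
    rw [mul_one, mul_inv_cancel_left] at this
    show m.d 1 (y⁻¹ * x) ≤ n
    omega
  calc S.card ≤ _ := Finset.card_le_card hsub
    _ ≤ ∑ y ∈ T, ((hfin 1).toFinset.image fun z => y * z).card := Finset.card_biUnion_le
    _ ≤ ∑ _y ∈ T, (hfin 1).toFinset.card := Finset.sum_le_sum fun y _ => Finset.card_image_le
    _ = _ := by rw [Finset.sum_const, smul_eq_mul, mul_comm]

/-- separated sets -/
def Sp (m : WM H) (n : ℕ) (Y : Finset H) : Prop :=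
  ∀ y ∈ Y, ∀ y' ∈ Y, y ≠ y' → 2 * n < m.d y y'

theorem main : S_NONAM := by
  intro H _ m h
  obtain ⟨n, h3⟩ := comps (m := m) h
  obtain ⟨v₁, hv₁⟩ := card_cover (m := m) (n + 1)
  obtain ⟨v₂, hv₂⟩ := card_cover (m := m) (2 * n)
  refine ⟨v₁ + v₂, fun Ω => ?_⟩
  set bd := Ω.filter fun y => ∃ z, z ∉ Ω ∧ m.d y z ≤ 1 with hbd
  set I := Ω.filter fun y => ∀ z, m.d y z ≤ n + 1 → z ∈ Ω with hI
  -- the points near the boundary
  have h1 : (Ω.filter fun y => ¬ ∀ z, m.d y z ≤ n + 1 → z ∈ Ω).card ≤ v₁ * bd.card := by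
    apply hv₁
    intro x hx
    rw [Finset.mem_filter] at hx
    obtain ⟨hxΩ, hx⟩ := hx
    push Not at hx
    obtain ⟨z, hz, hzΩ⟩ := hx
    obtain ⟨a, b, ha, hb, hab, h4, -⟩ := m.change (fun z => z ∈ Ω) hxΩ hzΩ
    refine ⟨a, Finset.mem_filter.mpr ⟨ha, b, hb, hab⟩, ?_⟩
    rw [m.d_comm]
    omega
  -- a maximal separated set
  obtain ⟨Y, hY, hYmax⟩ := Finset.exists_max_image
    (I.powerset.filter fun Y => Sp m n Y) Finset.card
    ⟨∅, Finset.mem_filter.mpr ⟨Finset.empty_mem_powerset _, fun y hy => absurd hy (by simp)⟩⟩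
  rw [Finset.mem_filter, Finset.mem_powerset] at hY
  obtain ⟨hYI, hYsep⟩ := hY
  have h2 : I.card ≤ v₂ * Y.card := by
    apply hv₂
    intro x hx
    by_contra hcon
    push Not at hcon
    have hxY : x ∉ Y := by
      intro hxY
      have := hcon x hxY
      simp at this
    have := hYmax (insert x Y) (by
      rw [Finset.mem_filter, Finset.mem_powerset]
      refine ⟨Finset.insert_subset hx hYI, ?_⟩
      intro y hy y' hy' hne
      rw [Finset.mem_insert] at hy hy'
      rcases hy with rfl | hy <;> rcases hy' with rfl | hy'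
      · exact absurd rfl hne
      · rw [m.d_comm]; exact hcon y' hy'
      · exact hcon y hy
      · exact hYsep y hy y' hy' hne)
    rw [Finset.card_insert_of_notMem hxY] at this
    omega
  have h4 : Y.card ≤ bd.card := by
    rcases Nat.eq_zero_or_pos Y.card with h0 | h0
    · omega
    · obtain ⟨N, hN⟩ : ∃ N, Y.card = N + 1 := ⟨Y.card - 1, by omega⟩
      have := count n h3 N Y bd hN hYsep (by
        intro y hy E hE hEi
        by_contra hcon
        push Not at hcon
        obtain ⟨a, ha, b, hb, hab⟩ := adj hE hEi.nonempty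
        have hyI := hYI hy
        rw [Finset.mem_filter] at hyI
        have haΩ : a ∈ Ω := by
          apply hyI.2
          have e1 : m.d y b ≤ n := hb
          have e2 := m.tri y b a
          rw [m.d_comm b a] at e2
          omega
        obtain ⟨e, he⟩ := (hEi.sdiff Ω.finite_toSet).nonempty
        have h5 : e ∈ Ω := by
          refine (hE.conn a ha e he.1).prop (fun z => z ∈ Ω) (fun x x' hx hx' hxx hPx => ?_) haΩ
          by_contra hx'Ω
          exact hcon x (Finset.mem_filter.mpr ⟨hPx, x', hx'Ω, hxx⟩) hx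
        exact he.2 (Finset.mem_coe.mpr h5))
      omega
  have h5 : Ω.card = I.card + (Ω.filter fun y => ¬ ∀ z, m.d y z ≤ n + 1 → z ∈ Ω).card := by
    rw [hI, Finset.card_filter_add_card_filter_not]
  rw [h5]
  have h6 := Nat.mul_le_mul_left v₂ h4
  rw [Nat.add_mul]
  omega

end Pool.Agent.H351.QE.NONAM
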