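import Pool.Agent.H351.QE.Stm

/-! # Project QE: S_PATH (helper154) -/

set_option autoImplicit false
set_option linter.unusedSectionVars false
set_option linter.unusedVariables false
set_option linter.deprecated false

open Pool.Agent.EndsLamp

namespace Pool.Agent.H351.QE.PATH

open scoped Classical

/-! ### two components -/

/-- Two infinite components outside a ball. -/
lemma two_comps {H : Type} [Group H] {m : WM H} (h : HasEnds 2 H) :
    ∃ (n : ℕ) (C : Fin 2 → Set H),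
    (∀ i, IsComp m {z | m.d 1 z ≤ n} (C i)) ∧ (∀ i, (C i).Infinite) ∧
    Pairwise fun i j => Disjoint (C i) (C j) := by
  obtain ⟨A, hA, hAI, hd⟩ := h
  have hbd : (⋃ i, {x | (∃ y ∈ A i, m.d x y ≤ 1) ∧ ∃ y, y ∉ A i ∧ m.d x y ≤ 1}).Finite :=
    Set.finite_iUnion fun i => ai_bd (hAI i) 1
  obtain ⟨n, hn⟩ := m.bdd hbd 1
  have hclo : ∀ i, Clo m {z | m.d 1 z ≤ n} (A i \ {z | m.d 1 z ≤ n}) := by
    intro i
    refine ⟨fun x hx => hx.2, fun x hx y hy hxy => ⟨?_, hy⟩⟩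
    by_contra hyA
    apply hx.2
    apply hn x
    simp only [Set.mem_iUnion]
    exact ⟨i, ⟨x, hx.1, by simp⟩, y, hyA, hxy⟩
  have hfin : {z | m.d 1 z ≤ n}.Finite := m.ball_fin 1 n
  have hsub : ∀ i, ∃ C, IsComp m {z | m.d 1 z ≤ n} C ∧ C.Infinite ∧
      C ⊆ (A i \ {z | m.d 1 z ≤ n}) := fun i =>
    (hclo i).subcomp ((hA i).diff hfin) subset_rfl hfin ⟨1, by simp⟩
  choose C hC1 hC2 hC3 using hsub
  refine ⟨n, C, hC1, hC2, fun i j hij => ?_⟩
  exact (hd hij).mono ((hC3 i).trans Set.diff_subset) ((hC3 j).trans Set.diff_subset)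

/-- a point of an infinite component at a given distance from `1` -/
lemma exists_at {H : Type} [Group H] {m : WM H} {n : ℕ} {U : Set H}
    (hU : Clo m {z | m.d 1 z ≤ n} U) (hi : U.Infinite) (D : ℕ) (hD : n < D) :
    ∃ y ∈ U, m.d 1 y = D := by
  obtain ⟨y₀, hy₀, hfar⟩ := m.exists_far_of_infinite hi 1 D
  obtain ⟨z, hz1, hz2⟩ := m.mid D _ rfl hfar.le (x := 1) (y := y₀)
  refine ⟨z, ?_, hz1⟩
  by_contra hz
  obtain ⟨b, hb, h1⟩ := hU.exit hy₀ hz
  simp only [Set.mem_setOf_eq] at hb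
  have h2 := m.tri 1 b y₀
  have h3 := m.d_comm y₀ b
  have h4 := m.d_comm z y₀
  omega

/-! ### distances from the image of the base point -/

section

variable {F₁ F₂ H₁ H₂ : Type} [Group F₁] [Group F₂] [Group H₁] [Group H₂] [Finite F₁]
  [Fintype F₁] [Finite F₂] {m₁ : WM H₁} {m₂ : WM H₂}

lemma cub_self {k : ℕ} (c : Cfg F₁ H₁) {β : Fin k → H₁} (hβ : Function.Injective β) :
    cub c β (fun i => c (β i)) = c := by
  apply Cfg.ext
  intro z
  by_cases h : ∃ i, β i = z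
  · obtain ⟨i, rfl⟩ := h
    rw [cub_apply c hβ]
  · rw [cub_not]
    intro i hi
    exact h ⟨i, hi⟩

lemma pt_self {k : ℕ} (t : Lm F₁ H₁ × (Fin k → H₁)) (hβ : Function.Injective t.2) :
    pt t (fun i => cf t.1 (t.2 i)) = t.1 := by
  unfold pt
  rw [cub_self (cf t.1) hβ]
  exact mk_cf_ps t.1

/-- all the points of the image of a cube are close to each other -/
lemma cm_diam {k a ρ : ℕ} {Φ : (Fin k → F₁) → Lm F₂ H₂} (h : CM m₂ a ρ Φ)
    (η η' : Fin k → F₁) : (lw F₂ m₂).d (Φ η) (Φ η') ≤ a * k := by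
  have key : ∀ j, j ≤ k → (lw F₂ m₂).d (Φ η) (Φ (hy j η η')) ≤ a * j := by
    intro j
    induction j with
    | zero => intro _; simp
    | succ j ih =>
      intro hj
      have h1 := ih (by omega)
      have h2 := h.lip (hy j η η') ⟨j, hj⟩ (η' ⟨j, hj⟩)
      rw [← hy_succ hj] at h2
      have h3 := (lw F₂ m₂).tri (Φ η) (Φ (hy j η η')) (Φ (hy (j + 1) η η'))
      rw [Nat.mul_succ]
      omega
  have := key k le_rfl
  rwa [hy_all le_rfl] at this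

/-- the distance of the position from `1` -/
noncomputable def gg (m₂ : WM H₂) {k : ℕ} (Φ : (Fin k → F₁) → Lm F₂ H₂) (η : Fin k → F₁) : ℝ :=
  (m₂.d 1 (ps (Φ η)) : ℝ)

lemma gg_lip {k a ρ : ℕ} {Φ : (Fin k → F₁) → Lm F₂ H₂} (h : CM m₂ a ρ Φ) :
    Lip1 (a : ℝ) (gg m₂ Φ) := by
  intro η i θ
  unfold gg
  have h1 := h.lip η i θ
  have h2 := lw_ps m₂ (Φ η) (Φ (Function.update η i θ))
  have h3 := m₂.tri 1 (ps (Φ η)) (ps (Φ (Function.update η i θ)))
  have h4 := m₂.tri 1 (ps (Φ (Function.update η i θ))) (ps (Φ η))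
  have h5 := m₂.d_comm (ps (Φ (Function.update η i θ))) (ps (Φ η))
  rw [abs_le]
  constructor
  · have : m₂.d 1 (ps (Φ η)) ≤ a + m₂.d 1 (ps (Φ (Function.update η i θ))) := by omega
    have h6 : (m₂.d 1 (ps (Φ η)) : ℝ) ≤ a + m₂.d 1 (ps (Φ (Function.update η i θ))) := by
      exact_mod_cast this
    linarith
  · have : m₂.d 1 (ps (Φ (Function.update η i θ))) ≤ a + m₂.d 1 (ps (Φ η)) := by omega
    have h6 : (m₂.d 1 (ps (Φ (Function.update η i θ))) : ℝ) ≤ a + m₂.d 1 (ps (Φ η)) := by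
      exact_mod_cast this
    linarith

lemma spread_le {k : ℕ} (Φ : (Fin k → F₁) → Lm F₂ H₂) :
    spread m₂ Φ ≤ 2 * av (gg m₂ Φ) := by
  unfold spread
  have h1 : av (fun p : (Fin k → F₁) × (Fin k → F₁) =>
      (m₂.d (ps (Φ p.1)) (ps (Φ p.2)) : ℝ)) ≤
      av (fun p : (Fin k → F₁) × (Fin k → F₁) => gg m₂ Φ p.1 + gg m₂ Φ p.2) := by
    apply av_mono
    intro p
    unfold gg
    have h := m₂.tri (ps (Φ p.1)) 1 (ps (Φ p.2))
    rw [m₂.d_comm (ps (Φ p.1)) 1] at h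
    exact_mod_cast h
  refine h1.trans (le_of_eq ?_)
  rw [av_add, av_fst (Y := Fin k → F₁) (gg m₂ Φ), av_snd (X := Fin k → F₁) (gg m₂ Φ)]
  ring

/-! ### the chain argument -/

/-- the probability that the position is in `U` -/
noncomputable def MM (f : Lm F₁ H₁ → Lm F₂ H₂) (U : Set H₂) {k : ℕ}
    (t : Lm F₁ H₁ × (Fin k → H₁)) : ℝ :=
  pr fun η : Fin k → F₁ => ps (f (pt t η)) ∈ U

lemma step_le {n₀ a k r : ℕ} {f : Lm F₁ H₁ → Lm F₂ H₂} {U : Set H₂}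
    (hU : Clo m₂ {z | m₂.d 1 z ≤ n₀} U) {t t' : Lm F₁ H₁ × (Fin k → H₁)}
    (hclose : ∀ η : Fin k → F₁, (lw F₂ m₂).d (f (pt t η)) (f (pt t' η)) ≤ 2 * a) {δ : ℝ}
    (hδ : pr (fun η : Fin k → F₁ => gg m₂ (fun η => f (pt t η)) η ≤ ((2 * a + n₀ : ℕ) : ℝ)) ≤ δ) :
    MM f U t ≤ MM f U t' + δ := by
  unfold MM
  refine le_trans ?_ (add_le_add le_rfl hδ)
  refine le_trans ?_ (pr_or_le _ _)
  apply pr_mono
  intro η hη
  by_cases h : ps (f (pt t' η)) ∈ U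
  · exact Or.inl h
  · right
    obtain ⟨b, hb, h1⟩ := hU.exit hη h
    simp only [Set.mem_setOf_eq] at hb
    have h2 := hclose η
    have h3 := lw_ps m₂ (f (pt t η)) (f (pt t' η))
    have h4 := m₂.tri 1 b (ps (f (pt t η)))
    have h5 := m₂.d_comm b (ps (f (pt t η)))
    unfold gg
    have : m₂.d 1 (ps (f (pt t η))) ≤ 2 * a + n₀ := by omega
    exact_mod_cast this

lemma chain_le {n₀ a k r : ℕ} {f : Lm F₁ H₁ → Lm F₂ H₂} {U : Set H₂}
    (hU : Clo m₂ {z | m₂.d 1 z ≤ n₀} U)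
    (hclose : ∀ t t' : Lm F₁ H₁ × (Fin k → H₁), Stp m₁ r t t' → ∀ η : Fin k → F₁,
      (lw F₂ m₂).d (f (pt t η)) (f (pt t' η)) ≤ 2 * a) {δ : ℝ}
    (hδ : ∀ t : Lm F₁ H₁ × (Fin k → H₁), Val m₁ r t →
      pr (fun η : Fin k → F₁ => gg m₂ (fun η => f (pt t η)) η ≤ ((2 * a + n₀ : ℕ) : ℝ)) ≤ δ)
    (n : ℕ) : ∀ (t t' : Lm F₁ H₁ × (Fin k → H₁)), Ch m₁ r n t t' →
      MM f U t ≤ MM f U t' + n * δ := by
  induction n with
  | zero =>
    intro t t' h
    have : t = t' := h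
    subst this
    simp
  | succ n ih =>
    intro t t' h
    obtain ⟨t'', h1, h2⟩ := h
    have h3 := ih t'' t' h2
    have h4 := step_le (r := r) hU (hclose t t'' h1) (hδ t h1.1)
    push_cast
    linarith

end

/-! ### numerical part -/

lemma num {a k n₀ ρ : ℕ} (hρ : 1 ≤ ρ) (ha : n₀ + ρ + 200 ≤ a) (hk : a ^ 8 ≤ k)
    (L : ℕ) (hL : L = (k + 1) * (2 * ρ * (n₀ + ρ + a * k + 1))) :
    2 * (((2 * a + n₀ : ℕ) : ℝ) + a * Real.sqrt (2 * k * Real.log (1 / (1 / ((L : ℝ) + 1))))) <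
      (k : ℝ) / (8 * ρ) := by
  have ha1 : 1 ≤ a := by omega
  have hk1 : 1 ≤ k := le_trans (Nat.one_le_pow _ _ ha1) hk
  have hak : a ≤ k := le_trans (Nat.le_self_pow (by norm_num) a) hk
  -- bound for L
  have hL1 : L + 1 ≤ k ^ 3 := by
    have e1 : n₀ + ρ + a * k + 1 ≤ 2 * a * k := by nlinarith
    have e2 : (k + 1) ≤ 2 * k := by omega
    have e3 : 2 * ρ ≤ 2 * a := by omega
    have e4 : L ≤ (2 * k) * ((2 * a) * (2 * a * k)) := by
      rw [hL]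
      exact Nat.mul_le_mul e2 (Nat.mul_le_mul e3 e1)
    have e5 : (2 * k) * ((2 * a) * (2 * a * k)) = 8 * a ^ 2 * k ^ 2 := by ring
    have e6 : 9 * a ^ 2 ≤ a ^ 8 := by
      have : a ^ 8 = a ^ 6 * a ^ 2 := by ring
      rw [this]
      have h9 : 9 ≤ a ^ 6 := by
        calc 9 ≤ a := by omega
          _ ≤ a ^ 6 := Nat.le_self_pow (by norm_num) a
      exact Nat.mul_le_mul_right _ h9
    have e7 : 1 ≤ a ^ 2 * k ^ 2 := Nat.one_le_iff_ne_zero.mpr (by positivity)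
    calc L + 1 ≤ 8 * a ^ 2 * k ^ 2 + a ^ 2 * k ^ 2 := by omega
      _ = (9 * a ^ 2) * k ^ 2 := by ring
      _ ≤ k * k ^ 2 := Nat.mul_le_mul_right _ (e6.trans hk)
      _ = k ^ 3 := by ring
  -- the fourth root of k
  set w : ℝ := Real.sqrt (Real.sqrt k) with hw
  have hkpos : (0 : ℝ) < k := by exact_mod_cast hk1
  have hw2 : w ^ 2 = Real.sqrt k := Real.sq_sqrt (Real.sqrt_nonneg _)
  have hw4 : w ^ 4 = k := by
    have : w ^ 4 = (w ^ 2) ^ 2 := by ring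
    rw [this, hw2, Real.sq_sqrt hkpos.le]
  have hw0 : 0 < w := Real.sqrt_pos.mpr (Real.sqrt_pos.mpr hkpos)
  have hap : (0 : ℝ) < a := by exact_mod_cast ha1
  have ha200 : (200 : ℝ) ≤ a := by
    have : 200 ≤ a := by omega
    exact_mod_cast this
  have hwa : (a : ℝ) ^ 2 ≤ w := by
    have h8 : ((a : ℝ) ^ 2) ^ 4 ≤ w ^ 4 := by
      rw [hw4]
      have : ((a : ℝ) ^ 2) ^ 4 = ((a ^ 8 : ℕ) : ℝ) := by push_cast; ring
      rw [this]
      exact_mod_cast hk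
    exact le_of_pow_le_pow_left₀ (by norm_num) hw0.le h8
  have hlog : Real.log (1 / (1 / ((L : ℝ) + 1))) ≤ 12 * w := by
    rw [one_div_one_div]
    have h1 : (L : ℝ) + 1 ≤ (w ^ 4) ^ 3 := by
      rw [hw4]
      exact_mod_cast hL1
    have h2 : Real.log ((L : ℝ) + 1) ≤ Real.log ((w ^ 4) ^ 3) :=
      Real.log_le_log (by positivity) h1
    have h3 : Real.log ((w ^ 4) ^ 3) = 12 * Real.log w := by
      rw [Real.log_pow, Real.log_pow]; push_cast; ring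
    have h4 : Real.log w ≤ w - 1 := Real.log_le_sub_one_of_pos hw0
    linarith
  have hsq : (a : ℝ) * Real.sqrt (2 * k * Real.log (1 / (1 / ((L : ℝ) + 1)))) ≤ 5 * w ^ 3 := by
    have h1 : Real.sqrt (2 * k * Real.log (1 / (1 / ((L : ℝ) + 1)))) ≤
        Real.sqrt (24 * w ^ 5) := by
      apply Real.sqrt_le_sqrt
      calc 2 * (k : ℝ) * Real.log (1 / (1 / ((L : ℝ) + 1))) ≤ 2 * k * (12 * w) :=
            mul_le_mul_of_nonneg_left hlog (by positivity)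
        _ = 24 * w ^ 5 := by rw [← hw4]; ring
    have h2 : (a : ℝ) * Real.sqrt (24 * w ^ 5) ≤ 5 * w ^ 3 := by
      have h3 : (a : ℝ) = Real.sqrt ((a : ℝ) ^ 2) := (Real.sqrt_sq hap.le).symm
      rw [h3, ← Real.sqrt_mul (by positivity)]
      apply Real.sqrt_le_iff.mpr
      refine ⟨by positivity, ?_⟩
      calc (a : ℝ) ^ 2 * (24 * w ^ 5) ≤ w * (24 * w ^ 5) :=
            mul_le_mul_of_nonneg_right hwa (by positivity)
        _ ≤ (5 * w ^ 3) ^ 2 := by nlinarith [pow_pos hw0 6]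
    exact (mul_le_mul_of_nonneg_left h1 hap.le).trans h2
  have h3 : (((2 * a + n₀ : ℕ) : ℝ)) ≤ 3 * w := by
    have : 2 * a + n₀ ≤ 3 * a := by omega
    have h4 : (((2 * a + n₀ : ℕ) : ℝ)) ≤ 3 * a := by exact_mod_cast this
    have h5 : (a : ℝ) ≤ w := by nlinarith
    linarith
  have hw1 : 1 ≤ w := by nlinarith
  have h6 : (a : ℝ) * w ^ 3 ≤ (k : ℝ) / ρ := by
    rw [le_div_iff₀ (by exact_mod_cast hρ)]
    have hρa : (ρ : ℝ) ≤ a := by
      have : ρ ≤ a := by omega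
      exact_mod_cast this
    calc (a : ℝ) * w ^ 3 * ρ ≤ a * w ^ 3 * a := by
          apply mul_le_mul_of_nonneg_left hρa (by positivity)
      _ = a ^ 2 * w ^ 3 := by ring
      _ ≤ w * w ^ 3 := mul_le_mul_of_nonneg_right hwa (by positivity)
      _ = k := by rw [← hw4]; ring
  have h7 : (k : ℝ) / (8 * ρ) = (k : ℝ) / ρ / 8 := by
    rw [div_div, mul_comm (8 : ℝ)]
  rw [h7]
  have h8 : w ≤ w ^ 3 := le_self_pow₀ hw1 (by norm_num)
  have h9 : 200 * w ^ 3 ≤ (a : ℝ) * w ^ 3 := mul_le_mul_of_nonneg_right ha200 (by positivity)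
  have h10 : 0 < w ^ 3 := by positivity
  linarith

/-! ### main -/

lemma exists_val {F₁ H₁ : Type} [Group F₁] [Group H₁] [Finite F₁] (m₁ : WM H₁) {r k : ℕ}
    (hk : 3 * k ≤ bl m₁ (r - 1)) (z : Lm F₁ H₁) :
    ∃ β : Fin k → H₁, Val m₁ r (z, β) := by
  have hfin : {y : H₁ | m₁.d 1 y ≤ r - 1}.Finite := m₁.ball_fin 1 (r - 1)
  have hcard : k ≤ hfin.toFinset.card := by
    rw [← Set.ncard_eq_toFinset_card _ hfin]
    unfold bl at hk
    omega
  obtain ⟨s, hs, hsk⟩ := Finset.exists_subset_card_eq hcard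
  have e : Fin k ≃ s := (finCongr hsk.symm).trans s.equivFin.symm
  refine ⟨fun i => ps z * (e i : H₁), ?_, ?_⟩
  · intro i j hij
    simp only [mul_right_inj] at hij
    exact e.injective (Subtype.ext hij)
  · intro i
    have h1 : (e i : H₁) ∈ hfin.toFinset := hs (e i).2
    simp only [Set.Finite.mem_toFinset, Set.mem_setOf_eq] at h1
    have h2 := m₁.d_mul (ps z) 1 (e i : H₁)
    rw [mul_one] at h2
    show m₁.d (ps z) (ps z * (e i : H₁)) ≤ r
    omega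

theorem main (hl : S_LOW) (hm : S_MOVE) (hc : S_CMT) : S_PATH := by
  intro F₁ F₂ H₁ H₂ _ _ _ _ _ _ _ _ m₁ m₂ ρ f φ hρ hLP hE
  obtain ⟨n₀, C, hC, hCi, hCd⟩ := two_comps (m := m₂) hE
  refine ⟨n₀ + ρ + 200, ?_⟩
  intro r k hr hk hkb hall
  set a : ℕ := ρ * (2 * r + 1) with ha
  have har : 2 * r + 1 ≤ a := Nat.le_mul_of_pos_left _ hρ
  have ha0 : n₀ + ρ + 200 ≤ a := by omega
  have hk1 : 1 ≤ k := le_trans (Nat.one_le_pow _ _ (by omega)) hk
  obtain ⟨hCM, hStp⟩ := hc F₁ F₂ H₁ H₂ m₁ m₂ ρ f φ hLP r k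
  obtain ⟨-, hMove⟩ := hm F₁ H₁ m₁ r k (by omega) hkb
  set D' : ℕ := n₀ + ρ + a * k + 1 with hD'
  set L : ℕ := (k + 1) * (2 * ρ * D') with hL
  have hnum := num hρ ha0 hk L hL
  have hδ0 : (0 : ℝ) < 1 / ((L : ℝ) + 1) := by positivity
  have hδ1 : 1 / ((L : ℝ) + 1) ≤ 1 := by
    rw [div_le_one (by positivity)]
    have : (0 : ℝ) ≤ L := by positivity
    linarith
  -- the position is far from `1` with large probability
  have hfar : ∀ t : Lm F₁ H₁ × (Fin k → H₁), Val m₁ r t →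
      pr (fun η : Fin k → F₁ => gg m₂ (fun η => f (pt t η)) η ≤ ((2 * a + n₀ : ℕ) : ℝ)) ≤
        1 / ((L : ℝ) + 1) := by
    intro t ht
    by_contra hcon
    push Not at hcon
    have h1 := hl F₁ k (a : ℝ) (gg m₂ (fun η => f (pt t η))) hk1
      (by exact_mod_cast (show 0 < a by omega)) (gg_lip (hCM t ht))
      (((2 * a + n₀ : ℕ) : ℝ)) (1 / ((L : ℝ) + 1)) hδ0 hδ1 hcon.le
    have h2 := spread_le (m₂ := m₂) (fun η : Fin k → F₁ => f (pt t η))
    have h3 := hall t ht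
    linarith
  -- the two points
  obtain ⟨y, hyU, hy1⟩ := exists_at (hC 0).toClo (hCi 0) D' (by omega)
  obtain ⟨y', hyU', hy1'⟩ := exists_at (hC 1).toClo (hCi 1) D' (by omega)
  -- the cube at `φ (mk c1 y)` is mapped deep into the component
  have hdeep : ∀ (i : Fin 2) (y : H₂), y ∈ C i → m₂.d 1 y = D' → ∀ β : Fin k → H₁,
      Val m₁ r (φ (mk c1 y), β) → ∀ η : Fin k → F₁,
        ps (f (pt (φ (mk c1 y), β) η)) ∈ C i := by
    intro i y hy hyD β hβ η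
    have h1 := cm_diam (a := a) (hCM (φ (mk c1 y), β) hβ)
      (fun i => cf (φ (mk c1 y)) (β i)) η
    have h2 := pt_self (φ (mk c1 y), β) hβ.1
    simp only at h1 h2
    rw [h2] at h1
    have h3 := hLP.fg (mk c1 y)
    have h4 := (lw F₂ m₂).tri (mk c1 y) (f (φ (mk c1 y))) (f (pt (φ (mk c1 y), β) η))
    rw [(lw F₂ m₂).d_comm (mk c1 y) (f (φ (mk c1 y)))] at h4
    have h5 := lw_ps m₂ (mk c1 y) (f (pt (φ (mk c1 y), β) η))
    rw [ps_mk] at h5
    refine (hC i).toClo.deep hy (r := ρ + a * k) ?_ (by omega)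
    intro b hb
    simp only [Set.mem_setOf_eq] at hb
    have h6 := m₂.tri 1 b y
    have h7 := m₂.d_comm b y
    omega
  obtain ⟨β, hβ⟩ := exists_val (F₁ := F₁) m₁ hkb (φ (mk c1 y))
  obtain ⟨β', hβ', hch⟩ := hMove (φ (mk c1 y), β) hβ (φ (mk c1 y'))
  have hM1 : MM f (C 0) (φ (mk c1 y), β) = 1 := by
    unfold MM
    rw [pr_congr (Q := fun _ => True) (fun η => by simp [hdeep 0 y hyU hy1 β hβ η])]
    unfold pr
    simpa using av_const (X := Fin k → F₁) 1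
  have hM0 : MM f (C 0) (φ (mk c1 y'), β') = 0 := by
    unfold MM
    have hne : ∀ η : Fin k → F₁, ps (f (pt (φ (mk c1 y'), β') η)) ∉ C 0 := by
      intro η h0
      have h1 := hdeep 1 y' hyU' hy1' β' hβ' η
      exact Set.disjoint_left.mp (hCd (show (0 : Fin 2) ≠ 1 by decide)) h0 h1
    rw [pr_congr (Q := fun _ => False) (fun η => by simp [hne η])]
    unfold pr
    simpa using av_const (X := Fin k → F₁) 0
  have hchain := chain_le (U := C 0) (hC 0).toClo hStp hfar _ _ _ hch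
  rw [hM1, hM0] at hchain
  have hlen : (k + 1) * (lw F₁ m₁).d (φ (mk c1 y)) (φ (mk c1 y')) ≤ L := by
    have h1 := hLP.gl (mk c1 y) (mk c1 y')
    have h2 := lw_leaf (F := F₂) m₂ c1 y y'
    have h3 := m₂.tri y 1 y'
    rw [m₂.d_comm y 1] at h3
    have h4 : (lw F₂ m₂).d (mk c1 y) (mk c1 y') ≤ 2 * D' := by omega
    rw [hL]
    apply Nat.mul_le_mul_left
    calc (lw F₁ m₁).d (φ (mk c1 y)) (φ (mk c1 y')) ≤ ρ * (2 * D') :=
          h1.trans (Nat.mul_le_mul_left _ h4)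
      _ = 2 * ρ * D' := by ring
  have hlen' : (((k + 1) * (lw F₁ m₁).d (φ (mk c1 y)) (φ (mk c1 y')) : ℕ) : ℝ) ≤ L := by
    exact_mod_cast hlen
  have hfin : (((k + 1) * (lw F₁ m₁).d (φ (mk c1 y)) (φ (mk c1 y')) : ℕ) : ℝ) *
      (1 / ((L : ℝ) + 1)) ≤ L * (1 / ((L : ℝ) + 1)) :=
    mul_le_mul_of_nonneg_right hlen' hδ0.le
  have hlt : (L : ℝ) * (1 / ((L : ℝ) + 1)) < 1 := by
    rw [mul_one_div, div_lt_one (by positivity)]
    linarith
  linarith

end Pool.Agent.H351.QE.PATH
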