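import Pool.Agent.H351.QE.Stm

set_option autoImplicit false

open Pool.Agent.EndsLamp

namespace Pool.Agent.H351.QE.POLY

open scoped Classical
open Filter

lemma bl_pos {H : Type} [Group H] (m : WM H) (r : ℕ) : 1 ≤ bl m r := by
  unfold bl
  refine (Set.ncard_pos (m.ball_fin 1 r)).mpr ⟨1, ?_⟩
  simp

theorem poly : S_POLY := by
  intro H _ m D e r₀ hD R ε hε
  by_contra hcon
  push Not at hcon
  have h1 : ∀ n : ℕ, (1 + ε) ^ n ≤ (bl m (n * R) : ℝ) := by
    intro n
    induction n with
    | zero =>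
      rw [pow_zero, Nat.zero_mul]
      exact_mod_cast bl_pos m 0
    | succ n ih =>
      have h := hcon (n * R)
      rw [Nat.succ_mul, pow_succ]
      have : (1 + ε) ^ n * (1 + ε) ≤ (1 + ε) * (bl m (n * R) : ℝ) := by
        rw [mul_comm]
        exact mul_le_mul_of_nonneg_left ih (by linarith)
      linarith
  set C : ℝ := (D : ℝ) * ((R : ℝ) + 1) ^ e with hC
  have hC0 : 0 ≤ C := by positivity
  have ht := tendsto_pow_const_div_const_pow_of_one_lt e (r := 1 + ε) (by linarith)
  have hev : ∀ᶠ n : ℕ in atTop, (n : ℝ) ^ e / (1 + ε) ^ n < 1 / (C + 1) :=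
    ht.eventually_lt_const (by positivity)
  rcases Nat.eq_zero_or_pos R with hR | hR
  · subst hR
    have h := hcon 0
    have h2 : (0 : ℝ) ≤ (bl m 0 : ℝ) := Nat.cast_nonneg _
    simp only [Nat.add_zero] at h
    nlinarith
  obtain ⟨n, hn, hn1⟩ := (hev.and (eventually_ge_atTop (r₀ + 1))).exists
  have hn0 : 1 ≤ n := by omega
  have hnR : r₀ ≤ n * R := by nlinarith
  have h2 : (bl m (n * R) : ℝ) ≤ C * (n : ℝ) ^ e := by
    have h3 : (bl m (n * R) : ℝ) ≤ (D : ℝ) * ((n : ℝ) * R + 1) ^ e := by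
      exact_mod_cast hD (n * R) hnR
    refine h3.trans ?_
    rw [hC, mul_assoc, ← mul_pow]
    refine mul_le_mul_of_nonneg_left ?_ (Nat.cast_nonneg _)
    refine pow_le_pow_left₀ (by positivity) ?_ _
    have : (1 : ℝ) ≤ n := by exact_mod_cast hn0
    nlinarith
  have hp : 0 < (1 + ε) ^ n := by positivity
  rw [div_lt_div_iff₀ hp (by positivity)] at hn
  have hne : 0 ≤ (n : ℝ) ^ e := by positivity
  have := h1 n
  nlinarith

lemma ball_card {H : Type} [Group H] (m : WM H) (y : H) (C : ℕ) :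
    {x : H | m.d y x ≤ C}.ncard = bl m C := by
  unfold bl
  have : {x : H | m.d y x ≤ C} = (fun x => y * x) '' {x : H | m.d 1 x ≤ C} := by
    ext x
    simp only [Set.mem_ofPred_eq, Set.mem_image]
    constructor
    · intro h
      refine ⟨y⁻¹ * x, ?_, by group⟩
      have e := m.d_mul y 1 (y⁻¹ * x)
      rw [mul_one, mul_inv_cancel_left] at e
      rw [← e]
      exact h
    · rintro ⟨z, hz, rfl⟩
      have e := m.d_mul y 1 z
      rw [mul_one] at e
      rw [e]
      exact hz
  rw [this, Set.ncard_image_of_injective _ (mul_right_injective y)]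

theorem lgr : S_LGR := by
  intro H _ m h C hL
  obtain ⟨hL1, hL2⟩ := hL
  refine ⟨(2 * C + 1) * bl m C, fun r => ?_⟩
  set S : Finset H := (m.ball_fin 1 r).toFinset with hS
  have hbl : bl m r = S.card := by
    unfold bl
    rw [Set.ncard_eq_toFinset_card _ (m.ball_fin 1 r)]
  have hmaps : ∀ y ∈ S, h y ∈ Finset.Icc (h 1 - C * r) (h 1 + C * r) := by
    intro y hy
    rw [hS, Set.Finite.mem_toFinset, Set.mem_ofPred_eq] at hy
    have h1 := hL1 1 y
    have h2 : (C : ℤ) * (m.d 1 y : ℤ) ≤ C * r := by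
      have : (m.d 1 y : ℤ) ≤ r := by exact_mod_cast hy
      exact mul_le_mul_of_nonneg_left this (Int.natCast_nonneg C)
    have h3 := abs_le.mp (h1.trans h2)
    rw [Finset.mem_Icc]
    constructor <;> linarith [h3.1, h3.2]
  have hfib : ∀ v ∈ Finset.Icc (h 1 - C * r) (h 1 + C * r),
      (S.filter (fun y => h y = v)).card ≤ bl m C := by
    intro v _
    rcases (S.filter (fun y => h y = v)).eq_empty_or_nonempty with he | ⟨y, hy⟩
    · rw [he]; simp
    · rw [Finset.mem_filter] at hy
      rw [← ball_card m y C, Set.ncard_eq_toFinset_card _ (m.ball_fin y C)]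
      refine Finset.card_le_card ?_
      intro x hx
      rw [Finset.mem_filter] at hx
      rw [Set.Finite.mem_toFinset, Set.mem_ofPred_eq]
      have h4 := hL2 y x
      rw [hy.2, hx.2, sub_self, abs_zero, mul_zero, zero_add] at h4
      exact_mod_cast h4
  have hcard := Finset.card_le_mul_card_image_of_maps_to hmaps (bl m C) hfib
  rw [Int.card_Icc] at hcard
  have e : (h 1 + C * r + 1 - (h 1 - C * r)).toNat = 2 * C * r + 1 := by
    have : (h 1 + C * r + 1 - (h 1 - C * r)) = ((2 * C * r + 1 : ℕ) : ℤ) := by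
      push_cast; ring
    rw [this, Int.toNat_natCast]
  rw [e] at hcard
  rw [hbl]
  refine hcard.trans ?_
  have h5 : 2 * C * r + 1 ≤ (2 * C + 1) * (r + 1) := by nlinarith
  calc bl m C * (2 * C * r + 1) ≤ bl m C * ((2 * C + 1) * (r + 1)) :=
        Nat.mul_le_mul_left _ h5
    _ = (2 * C + 1) * bl m C * (r + 1) := by ring

end Pool.Agent.H351.QE.POLY
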