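import Pool.Agent.H351.QE.Stm

/-!
# Project QE (helper351), subtask QI (helper680): the frozen hypothesis gives a quasi-isometry
-/

set_option autoImplicit false

open Pool.Agent.EndsLamp

namespace Pool.Agent.H351.QE.QI

open scoped Pointwise Classical

theorem lsub_eq (F H : Type) [Group F] [Group H] : Lsub F H = RWreath F H := by
  apply le_antisymm
  · rw [Lsub, Subgroup.closure_le]
    rintro _ (⟨a, rfl⟩ | ⟨h, rfl⟩)
    · show (Function.mulSupport (Pi.mulSingle (1 : H) a)).Finite
      exact (Set.finite_singleton (1 : H)).subset Pi.mulSupport_mulSingle_subset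
    · show (Function.mulSupport (1 : H → F)).Finite
      simp
  · intro g hg
    have h0 : ∀ h : H, (⟨(1 : H → F), h⟩ : RegularWreathProduct F H) ∈ Lsub F H := fun h =>
      Subgroup.subset_closure (Or.inr ⟨h, rfl⟩)
    have h1 : ∀ a : F, (⟨Pi.mulSingle (1 : H) a, (1 : H)⟩ : RegularWreathProduct F H) ∈
        Lsub F H := fun a => Subgroup.subset_closure (Or.inl ⟨a, rfl⟩)
    have key : ∀ c : Cfg F H, (⟨c.1, 1⟩ : RegularWreathProduct F H) ∈ Lsub F H := by
      intro c
      refine cfg_induct c1 c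
        (fun c => (⟨c.1, 1⟩ : RegularWreathProduct F H) ∈ Lsub F H) ?_ ?_
      · exact h0 1
      · intro c' z _ _ hz ih
        have e : (⟨(upd c' z (c z)).1, 1⟩ : RegularWreathProduct F H) =
            ⟨c'.1, 1⟩ * (⟨1, z⟩ * ⟨Pi.mulSingle 1 (c z), 1⟩ * (⟨1, z⟩ : RegularWreathProduct F H)⁻¹)
            := by
          apply RegularWreathProduct.ext
          · funext x
            by_cases hx : x = z
            · subst hx
              have hz' : c' x = 1 := hz
              simp [upd, RegularWreathProduct.mul_left, RegularWreathProduct.inv_left]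
              exact hz'
            · have : z⁻¹ * x ≠ 1 := by
                intro h
                exact hx (by rw [← mul_one z, ← h, mul_inv_cancel_left])
              simp [upd, Function.update_of_ne hx, RegularWreathProduct.mul_left,
                RegularWreathProduct.inv_left, Pi.mulSingle_eq_of_ne this]
          · simp
        rw [e]
        exact (Lsub F H).mul_mem ih ((Lsub F H).mul_mem ((Lsub F H).mul_mem (h0 z) (h1 _))
          ((Lsub F H).inv_mem (h0 z)))
    have e : g = (⟨g.left, 1⟩ : RegularWreathProduct F H) * ⟨1, g.right⟩ := by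
      apply RegularWreathProduct.ext
      · funext x
        simp [RegularWreathProduct.mul_left]
      · simp
    rw [e]
    exact (Lsub F H).mul_mem (key ⟨g.left, hg⟩) (h0 _)

section

variable {G : Type} [Group G]

theorem walk_mem (S : Finset G) {x y : G} (p : (cay S).Walk x y) :
    x⁻¹ * y ∈ (insert 1 ((S : Set G) ∪ (S : Set G)⁻¹) : Set G) ^ p.length := by
  induction p with
  | nil => simp
  | @cons u v w h p ih =>
    rw [SimpleGraph.Walk.length_cons, pow_succ']
    refine Set.mem_mul.2 ⟨u⁻¹ * v, ?_, v⁻¹ * w, ih, by group⟩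
    rw [SimpleGraph.fromRel_adj] at h
    right
    rcases h.2 with ⟨s, hs, e⟩ | ⟨s, hs, e⟩
    · left
      rw [e, inv_mul_cancel_left]
      exact hs
    · right
      rw [Set.mem_inv, e]
      simpa using hs

theorem mem_walk (S : Finset G) : ∀ (n : ℕ) (x y : G),
    x⁻¹ * y ∈ (insert 1 ((S : Set G) ∪ (S : Set G)⁻¹) : Set G) ^ n →
    ∃ p : (cay S).Walk x y, p.length ≤ n := by
  intro n
  induction n with
  | zero =>
    intro x y h
    rw [pow_zero, Set.mem_one] at h
    have : x = y := by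
      rw [inv_mul_eq_one] at h; exact h
    subst this
    exact ⟨SimpleGraph.Walk.nil, le_refl _⟩
  | succ n ih =>
    intro x y h
    rw [pow_succ', Set.mem_mul] at h
    obtain ⟨t, ht, u, hu, e⟩ := h
    have e' : (x * t)⁻¹ * y = u := by
      rw [mul_inv_rev, mul_assoc, ← e, inv_mul_cancel_left]
    obtain ⟨p, hp⟩ := ih (x * t) y (by rw [e']; exact hu)
    by_cases hxt : x = x * t
    · refine ⟨p.copy hxt.symm rfl, ?_⟩
      rw [SimpleGraph.Walk.length_copy]
      omega
    · have hadj : (cay S).Adj x (x * t) := by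
        rw [SimpleGraph.fromRel_adj]
        refine ⟨hxt, ?_⟩
        rcases ht with ht | ht | ht
        · exact absurd (by rw [ht, mul_one]) hxt
        · exact Or.inl ⟨t, ht, rfl⟩
        · exact Or.inr ⟨t⁻¹, ht, by simp⟩
      exact ⟨SimpleGraph.Walk.cons hadj p, by
        rw [SimpleGraph.Walk.length_cons]; omega⟩

theorem dist_eq (S : Finset G) (hS : Subgroup.closure (S : Set G) = ⊤) (x y : G) :
    (cay S).dist x y = wordDist (S : Set G) x y := by
  obtain ⟨n, hn⟩ := gen_pow (S : Set G) hS (x⁻¹ * y)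
  have hne : {n : ℕ | x⁻¹ * y ∈ (insert 1 ((S : Set G) ∪ (S : Set G)⁻¹) : Set G) ^ n}.Nonempty :=
    ⟨n, hn⟩
  apply le_antisymm
  · obtain ⟨p, hp⟩ := mem_walk S _ x y (Nat.sInf_mem hne)
    exact (SimpleGraph.dist_le p).trans hp
  · obtain ⟨p, hp⟩ := mem_walk S _ x y (Nat.sInf_mem hne)
    obtain ⟨q, hq⟩ := (SimpleGraph.Walk.reachable p).exists_walk_length_eq_dist
    rw [← hq]
    exact Nat.sInf_le (walk_mem S q)

end

theorem main : S_QI := by
  intro F₁ F₂ H₁ H₂ _ _ _ _ _ _ L₁ L₂ hL₁ hL₂ hyp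
  obtain rfl : L₁ = RWreath F₁ H₁ := hL₁.trans (lsub_eq F₁ H₁)
  obtain rfl : L₂ = RWreath F₂ H₂ := hL₂.trans (lsub_eq F₂ H₂)
  obtain ⟨S₁, S₂, g₁, g₂, f, K, C, hK, hC, h1, h2⟩ := hyp
  refine ⟨S₁, S₂, S₁.finite_toSet, g₁, S₂.finite_toSet, g₂, f, max K 1, C, le_max_right _ _, hC,
    ?_, ?_⟩
  · intro x y
    obtain ⟨a, b⟩ := h1 x y
    rw [dist_eq S₁ g₁, dist_eq S₂ g₂] at a b
    have hL : 0 < max K 1 := lt_of_lt_of_le one_pos (le_max_right _ _)
    have n1 : (0 : ℝ) ≤ (wordDist (S₁ : Set (RWreath F₁ H₁)) x y : ℝ) := Nat.cast_nonneg _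
    have n2 : (0 : ℝ) ≤ (wordDist (S₂ : Set (RWreath F₂ H₂)) (f x) (f y) : ℝ) := Nat.cast_nonneg _
    constructor
    · have h3 : (wordDist (S₁ : Set (RWreath F₁ H₁)) x y : ℝ) ≤
          max K 1 * ((wordDist (S₂ : Set (RWreath F₂ H₂)) (f x) (f y) : ℝ) + C) := by
        have i1 := mul_le_mul_of_nonneg_right (le_max_left K 1) n2
        have i2 := mul_le_mul_of_nonneg_right (le_max_right K 1) hC
        linarith
      rw [sub_le_iff_le_add, inv_mul_le_iff₀ hL]
      exact h3
    · have i1 := mul_le_mul_of_nonneg_right (le_max_left K 1) n1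
      linarith
  · intro z
    obtain ⟨x, hx⟩ := h2 z
    refine ⟨x, ?_⟩
    rw [← dist_eq S₂ g₂, SimpleGraph.dist_comm]
    exact hx

end Pool.Agent.H351.QE.QI
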