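import Pool.Agent.H351.QE.Basic

/-!
# Project QE (helper351, frozen S02529): the statements of the lemmas

`S_X : Prop` is the statement of lemma X, with a complete paper proof in its docstring.
`Asm.lean` derives the frozen statement from them.  Everything over the library project
`EndsLamp` (word metrics `WM`, lamplighter groups `Lm F H` with metric `lw F m`, `mk`, `cf`, `ps`,
`cub`, `upd`, `comb`, `LP`, `Cn`, `Clo`, `IsComp`, `compOf`, `HasEnds`, `OneEnded`) and over
`Defs.lean`, `Basic.lean` (averages `av`, probabilities `pr`, resampling `rs`, hybrids `hy`).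
-/

set_option autoImplicit false

open Pool.Agent.EndsLamp

namespace Pool.Agent.H351.QE

open scoped Classical

/-! ## Part 1: concentration -/

/-- **S_CONC** (concentration of measure in products).  Proof: exponential moments.  Show first, by
induction on `k` and for all real `t`, that `av (fun η => exp (t * (g η - av g))) ≤
exp (t ^ 2 * a ^ 2 * k / 2)` if `Lip1 a g` (for `k = 0` the function `g - av g` is zero).  Step:
identify `Fin (k+1) → F` with `F × (Fin k → F)` (`Fin.consEquiv` or `Fin.insertNthEquiv`), put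
`h η' = av_θ g (cons θ η')`; then `Lip1 a h`, `av h = av g`, `|g (cons θ η') - h η'| ≤ a`, and for a
real function `w` with `|w| ≤ a` and `av w = 0` one has `av (exp (t * w)) ≤ cosh (t * a) ≤
exp (t ^ 2 * a ^ 2 / 2)` (convexity: `exp (t * x) ≤ cosh (t * a) + (x / a) * sinh (t * a)` for
`|x| ≤ a`, `Real.cosh_le_exp_half_sq`).  Then Markov's inequality with `t = s / (a ^ 2 * k)`
(and `- t` for the lower tail, or apply the upper tail to `- g`). -/
def S_CONC : Prop := ∀ (F : Type) [Fintype F] [Nonempty F] (k : ℕ) (a : ℝ) (g : (Fin k → F) → ℝ),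
  1 ≤ k → 0 < a → Lip1 a g → ∀ s : ℝ, 0 ≤ s →
    pr (fun η => av g + s ≤ g η) ≤ Real.exp (-s ^ 2 / (2 * a ^ 2 * k)) ∧
    pr (fun η => g η ≤ av g - s) ≤ Real.exp (-s ^ 2 / (2 * a ^ 2 * k))

/-- **S_LOW** (from S_CONC).  If `g ≤ D` with probability at least `δ` then the mean of `g` is at
most `D + a √(2 k log (1/δ))`.  Proof: otherwise let `s = av g - D`, which is larger than
`s₀ = a √(2 k log (1/δ)) ≥ 0`; by the lower tail `pr (g ≤ D) = pr (g ≤ av g - s) ≤
exp (- s ^ 2 / (2 a ^ 2 k)) < exp (- s₀ ^ 2 / (2 a ^ 2 k)) = δ`. -/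
def S_LOW : Prop := ∀ (F : Type) [Fintype F] [Nonempty F] (k : ℕ) (a : ℝ) (g : (Fin k → F) → ℝ),
  1 ≤ k → 0 < a → Lip1 a g → ∀ D δ : ℝ, 0 < δ → δ ≤ 1 → δ ≤ pr (fun η => g η ≤ D) →
    av g ≤ D + a * Real.sqrt (2 * k * Real.log (1 / δ))

/-! ## Part 2: the gap -/

/-- **S_GAP1**.  Let `b` be a block of at most `k / (32 ρ a) + 1` coordinates such that `η` is
`δ₁`-mild for `b` with probability at least `1 - δ₂`, where `δ₁ = 1 / (4 a k²)`,
`δ₂ = 1 / (8 (k + 1))`.  Then the spread is at least `k / (8 ρ)`.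

Proof.  (1) Let `η` be mild and `y : H₂`.  The lamp at `y` of `Φ (rs b η u)` and
`Φ (rs b η u')` differ with probability at most `|b| δ₁` (over independent uniform `u, u'`): in
the hybrids `u_j = hy j u u'`, `j = 0..k`, the points `rs b η u_j` and `rs b η u_{j+1}` are equal
unless `j ∈ b`, and for `j ∈ b` the lamp at `y` changes only if `m₂.d (ps (Φ (rs b η u_j))) y ≤ a`
(`lw_lamp` and `CM.lip`), which has probability at most `δ₁`, since `u_j` is uniform (`pr_hy`).
Hence there is a value `maj η y : F₂` with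
`pr_u (cf (Φ (rs b η u)) y ≠ maj η y) ≤ |b| δ₁ ≤ k δ₁ ≤ 1/4` (take `u₀` at most average), and it is
the unique value taken with probability more than `1/2`.  For all but finitely many `y` it is `1`
(there are finitely many `u`), so there is `c₀ : Cfg F₂ H₂` with `c₀ y = maj η y` for all `y`.
(2) Let `η, η'` be such that all hybrids `h_j = hy j η η'` are mild.  `h_j` and `h_{j+1}` differ in
at most one coordinate, so `d (Φ (rs b h_j u)) (Φ (rs b h_{j+1} u)) ≤ a` for all `u`
(`rs b h_j u`, `rs b h_{j+1} u` differ in at most one coordinate), so the lamps at `y`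
differ with probability at most `δ₁`; as `2 k δ₁ + δ₁ < 1`, `maj h_j y = maj h_{j+1} y`.  So
`maj η = maj η' = c₀`.
(3) If `η` is mild and `u` arbitrary, there is `q` with
`d (Φ (rs b η u)) (mk c₀ q) ≤ a * |b|`, `c₀ = maj η`.
Let `Δ` be the finite set of `y` with `cf (Φ (rs b η u)) y ≠ c₀ y`.  For every `u'` at most
`d (Φ (rs b η u)) (Φ (rs b η u')) ≤ a |b|` lamps differ between the two (`lw_count` in
`EndsLamp/Star.lean`; the distance bound by changing the coordinates in `b` one at a time).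
Averaging over `u'` the number of `y ∈ Δ` with `cf (Φ (rs b η u')) y = c₀ y`, which is on
average at least `|Δ| (1 - k δ₁) ≥ |Δ| / 2`, gives `|Δ| ≤ 2 a |b|`.  The probability
over `u'` that some `y ∈ Δ` has `cf (Φ (rs b η u')) y ≠ c₀ y` is at most
`|Δ| |b| δ₁ ≤ 2 a k² δ₁ ≤ 1/2 < 1`.  So some `u'` has `cf (Φ (rs b η u')) = c₀` on `Δ`, and by
`modify` (`EndsLamp/Cube.lean`) with `S = Δ`, `comb Δ (cf (Φ (rs b η u'))) (cf (Φ (rs b η u))) =
c₀`, and `q = ps (Φ (rs b η u'))` works.
(4) For `η, η'` as in (2), by (3) with `u = η` resp. `u' = η'`: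
`d (Φ η) (mk c₀ q) ≤ a|b|`, `d (Φ η') (mk c₀ q') ≤ a|b|`, `d (mk c₀ q) (mk c₀ q') ≤ m₂.d q q' ≤
m₂.d (ps (Φ η)) (ps (Φ η')) + 2 a |b|` (`lw_leaf`, `lw_ps`).  So
`m₂.d (ps (Φ η)) (ps (Φ η')) ≥ d (Φ η) (Φ η') - 4 a |b| ≥ (Ham η η' - 2ρ)/ρ - 4 a |b|`.
(5) By `pr_exists_hy` this holds with probability at least `1 - (k+1) δ₂ = 7/8`; and
`av Ham ≥ k / 2` (each coordinate differs with probability `1 - 1/|F| ≥ 1/2`), `Ham ≤ k`.  So
`spread ≥ (1/ρ) (k/2 - k/8) - 2 - 4 a |b|`, and `4 a |b| ≤ k / (8ρ) + 4 a`, so `spread ≥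
k / (4ρ) - 2 - 4a ≥ k / (8ρ)`. -/
def S_GAP1 : Prop := ∀ (F₂ H₂ F : Type) [Group F₂] [Group H₂] [Finite F₂] [Fintype F]
  [Nontrivial F] (m₂ : WM H₂) (k a ρ : ℕ) (Φ : (Fin k → F) → Lm F₂ H₂) (b : Finset (Fin k)),
  1 ≤ ρ → 1 ≤ a → 1 ≤ k → CM m₂ a ρ Φ → 8 * ρ * (4 * a + 2) ≤ k →
  32 * ρ * a * b.card ≤ k + 32 * ρ * a →
  pr (fun η => ¬ Mild m₂ a (1 / (4 * a * (k : ℝ) ^ 2)) b Φ η) ≤ 1 / (8 * ((k : ℝ) + 1)) →
  (k : ℝ) / (8 * ρ) ≤ spread m₂ Φ

/-- **S_GAP2** (from S_LOW).  Let the coordinates be partitioned into `M` blocks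
`b_j = {i | blk i = j}` and suppose that for every block, `η` fails to be `δ₁`-mild with
probability more than `δ₂`.  Then
`spread ≤ M (2 a + 2 a √(2 k log (1/δ₁)) + 2 a √(2 k log (1/δ₂)))`.

Proof.  Fix `j`, `b = b_j`.  If `η` is not mild there is `y` with `pr_u (g u ≤ a) > δ₁` where
`g u = m₂.d (ps (Φ (rs b η u))) y`; `g` is `Lip1 a` (changing a coordinate of `u` outside `b` does
nothing; `lw_ps`), so `av g ≤ a + a √(2 k log (1/δ₁))` by S_LOW.  So
`G η := av_{(u,u')} m₂.d (ps (Φ (rs b η u))) (ps (Φ (rs b η u')))` is at most `2 av g ≤ ζ :=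
2 a + 2 a √(2 k log (1/δ₁))`.  `G` is `Lip1 (2 a)`, and `pr (G ≤ ζ) ≥ δ₂`, so again by S_LOW (with
`2 a`), `av G ≤ ζ + 2 a √(2 k log (1/δ₂))`.
Finally, `spread ≤ ∑_j av G_j`: with `c_j = {i | blk i < j}` and `h_j = rs c_j η η'` (so
`h_0 = η`, `h_M = η'`) the triangle inequality gives `spread ≤ ∑_{j<M} av_{(η,η')}
m₂.d (ps (Φ h_j)) (ps (Φ h_{j+1}))`, and the `j`-th summand is `av G_j`: it is the average over
`(η, η')` of `D (rs c_j η η') (rs b_j (rs c_j η η') η')`, the pair `(rs c_j η η', rs c_j η' η)` is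
uniform (`av_rs`) and `η'` and `rs c_j η' η` agree on `b_j`; so it is the average of
`D w (rs b_j w u)` over independent `w, u`, and (again `av_rs`, now for the pair
`w ↦ rs b_j w u'`) this is the average of `D (rs b_j w u') (rs b_j w u)` over `w, u, u'`. -/
def S_GAP2 : Prop := ∀ (F₂ H₂ F : Type) [Group F₂] [Group H₂] [Finite F₂] [Fintype F]
  [Nontrivial F] (m₂ : WM H₂) (k a ρ M : ℕ) (Φ : (Fin k → F) → Lm F₂ H₂) (blk : Fin k → Fin M)
  (δ₁ δ₂ : ℝ), 1 ≤ a → 1 ≤ k → CM m₂ a ρ Φ → 0 < δ₁ → δ₁ ≤ 1 → 0 < δ₂ → δ₂ ≤ 1 →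
  (∀ j : Fin M, δ₂ < pr (fun η => ¬ Mild m₂ a δ₁ (Finset.univ.filter fun i => blk i = j) Φ η)) →
  spread m₂ Φ ≤ M * (2 * a + 2 * a * Real.sqrt (2 * k * Real.log (1 / δ₁)) +
    2 * a * Real.sqrt (2 * k * Real.log (1 / δ₂)))

/-- **S_GAP** (from S_GAP1, S_GAP2; done by helper351).  The spread of a large cube is either at
least `k / (8ρ)` or at most `k / (16ρ)`. -/
def S_GAP : Prop := ∀ ρ : ℕ, 1 ≤ ρ → ∃ A₀ : ℕ, ∀ (F₂ H₂ F : Type) [Group F₂] [Group H₂]
  [Finite F₂] [Fintype F] [Nontrivial F] (m₂ : WM H₂) (k a : ℕ) (Φ : (Fin k → F) → Lm F₂ H₂),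
  A₀ ≤ a → a ^ 8 ≤ k → CM m₂ a ρ Φ →
    (k : ℝ) / (8 * ρ) ≤ spread m₂ Φ ∨ spread m₂ Φ ≤ (k : ℝ) / (16 * ρ)

/-! ## Part 3: a horizontal cube -/

/-- **S_HOR** (from S_CONC).  A large cube in which the distance of the position from `1` grows
linearly with the distance from the vertex `o` contains a large face (the first `i` coordinates
free, the others equal to those of `o`) with large spread.

Proof.  For `i ≤ K` let `T_i η j = if j < i then η j else o j`,
`g η = m₂.d 1 (ps (Φ η))` (this is `Lip1 a`), `g_i = g ∘ T_i` (`Lip1 a`), `M_i = av g_i`.  Then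
`M_0 = g o ≤ C a`, `|M_{i+1} - M_i| ≤ a`, and `M_K ≥ av (#{j | η j ≠ o j}) / C - a ≥ K / (2C) - a`.
Put `ε = 1 / (100 (K + 1))`, `τ = a √(2 K log (1/ε))`, `G = ⌈40 C τ⌉₊`, `i₀ = ⌊K / (8 C a)⌋`.
Claim: there is `i` with `i₀ ≤ i`, `i + G ≤ K`, `M_{i+G} ≥ M_i + 5 τ`.  Otherwise, going from `i₀`
in steps of length `G` until less than `G` is left (at most `K / G` steps),
`K/(2C) - a ≤ M_K ≤ M_{i₀} + (K/G) 5τ + a G ≤ C a + a i₀ + K/(8C) + a G ≤ C a + K/(8C) + K/(8C)
+ a G`, i.e. `K / (4C) ≤ (C + 1) a + a G`; but `a G ≤ 40 C a² √(2 K log (100 (K+1))) + a`, so this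
fails for `K ≥ a^10` and `a` large.
Now fix this `i` and let `s = ⌊M_i + τ⌋ + a + 1` (a natural number).  For independent `η, η'` and
the hybrids `h_j = hy j η η'`, `j ≤ K`: by S_CONC and the union bound `pr_exists_hy`, with
probability at least `1 - 4 (K+1) ε = 96/100` all `h_j` satisfy `|g_i h_j - M_i| < τ` and
`|g_{i+G} h_j - M_{i+G}| < τ`.  For such `η, η'`:
(a) `Φ (T_i η)` and `Φ (T_i η')` are connected in `{w | m₂.d 1 (ps w) ≤ s}` (through the
`Φ (T_i h_j)`; consecutive ones are at distance `≤ a`, use `Cn.of_close`), so by `cn_low` their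
lamps at all `z` with `s < m₂.d 1 z` agree;
(b) `Φ (T_{i+G} η)`, `Φ (T_{i+G} η')` are connected in `{w | s < m₂.d 1 (ps w)}` (as
`M_{i+G} - τ - a ≥ M_i + 4 τ - a > s`, if `3 τ > 2 a + 1`), so by `cn_high` their lamps at all `z`
with `m₂.d 1 z ≤ s` agree;
(c) `d (Φ (T_i η)) (Φ (T_{i+G} η)) ≤ a G`, same for `η'`.
With `S = {z | m₂.d 1 z ≤ s}`, `P η = mk (comb S (cf (Φ (T_{i+G} η))) (cf (Φ (T_i η))))
(ps (Φ (T_{i+G} η)))` is at distance `≤ a G` from `Φ (T_i η)` (`modify`), and `cf (P η) = cf (P η')`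
by (a), (b).  So `d (Φ (T_i η)) (Φ (T_i η')) ≤ 2 a G + m₂.d (ps (P η)) (ps (P η')) ≤
4 a G + m₂.d (ps (Φ (T_i η))) (ps (Φ (T_i η')))`.
By `CM.low`, `m₂.d (ps (Φ (T_i η))) (ps (Φ (T_i η'))) ≥ (#{j < i | η j ≠ η' j} - 2 ρ)/ρ - 4 a G`
with probability at least `96/100`, so its average is at least
`(1/ρ)(i/2 - 4 i/100) - 2 - 4 a G ≥ i/(8ρ)`, because `4 a G + 2 ≤ i / (4 ρ)` (as `i ≥ i₀ ≥
K / (16 C a)` and `K ≥ a ^ 10`, `a` large).  The average over `(Fin K → F)²` of a function of the
first `i` coordinates is the average over `(Fin i → F)²`.  Finally `i ≥ K/(16 C a) ≥ a ^ 8`. -/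
def S_HOR : Prop := ∀ ρ C : ℕ, 1 ≤ ρ → 1 ≤ C → ∃ A₀ : ℕ, ∀ (F₂ H₂ F : Type) [Group F₂] [Group H₂]
  [Finite F₂] [Fintype F] [Nontrivial F] (m₂ : WM H₂) (K a : ℕ) (Φ : (Fin K → F) → Lm F₂ H₂)
  (o : Fin K → F), A₀ ≤ a → a ^ 10 ≤ K → CM m₂ a ρ Φ →
  (∀ η, (Finset.univ.filter fun j => η j ≠ o j).card ≤ C * (m₂.d 1 (ps (Φ η)) + a)) →
  m₂.d 1 (ps (Φ o)) ≤ C * a →
  ∃ i : ℕ, a ^ 8 ≤ i ∧ i ≤ K ∧ (i : ℝ) / (8 * ρ) ≤
    spread m₂ (fun η : Fin i → F => Φ fun j => if h : (j : ℕ) < i then η ⟨j, h⟩ else o j)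

/-! ## Part 4: moving cubes -/

/-- **S_MOVE**.  Elementary steps connect all cubes, with a bound on the number of steps.

Proof.  (Swaps.)  Let `Val m r (z, β)` and let `γ : Fin k → H` be injective with all `γ i` at
distance at most `r` from `ps z` and no `γ i` in the range of `β`.  Replacing `β i` by `γ i` one
`i` at a time gives `Ch m r k (z, β) (z, γ)`: all the intermediate tuples
`β_j = fun i => if i < j then γ i else β i` are injective and `β_{j+1} = update β_j j (γ j)`.
Note that `Stp` is reflexive at valid pairs (second alternative), so chains can be prolonged.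
The ball of radius `r - 1` around any point has `bl m (r-1) ≥ 3 k` points, so for any two valid
tuples `β, β'` at `z` there is an injective `γ` into the ball of radius `r - 1` around `ps z` that
avoids the ranges of `β` and `β'`; so `Ch m r (2k) (z, β) (z, β')` (for the way back use the
symmetry of `Stp`).
(Moves.)  If `Val m r (z, β)` and `(lw F m).d z z' ≤ 1` then `m.d (ps z) (ps z') ≤ 1`
(`lw_step`); choose `γ` as above (avoiding `β`, in the ball of radius `r - 1` around `ps z`);
then all `γ i` are at distance at most `r` from `ps z'`, so `k` swaps and one move give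
`Ch m r (k + 1) (z, β) (z', γ)`.  Induction on `(lw F m).d t.1 z'` (`WM.prev`) gives the second
assertion.  The first follows: for `t = (z, β)`, `t' = (z', β')`, go to `(z', β'')` by the second
assertion and then swap to `β'`. -/
def S_MOVE : Prop := ∀ (F H : Type) [Group F] [Group H] [Finite F] (m : WM H) (r k : ℕ), 1 ≤ r →
  3 * k ≤ bl m (r - 1) →
  (∀ t t' : Lm F H × (Fin k → H), Val m r t → Val m r t' → ∃ n, Ch m r n t t') ∧
  (∀ t : Lm F H × (Fin k → H), Val m r t → ∀ z' : Lm F H, ∃ β' : Fin k → H, Val m r (z', β') ∧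
    Ch m r ((k + 1) * (lw F m).d t.1 z') t (z', β'))

/-- **S_CMT**.  The image of the cube at a valid pair is a `CM`, and elementary steps move all
points of the cube by a bounded amount.

Proof.  `pt t (update η i θ)` is obtained from `pt t η` by changing the lamp at `t.2 i`, which is
at distance at most `r`, so the distance is at most `2 r + 1` (`lw_upd_far`), and `LP.fl`.  The
number of `i` with `η i ≠ η' i` is at most the number of lamps that differ (`cub_apply`, injectivity
of `t.2`), so at most `(lw F₁ m₁).d (pt t η) (pt t η')` (`lw_count`, `EndsLamp/Star.lean`), and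
`LP.low`.  For a swap `t' = (z, update β i b)` (with both tuples injective) `pt t η` and `pt t' η`
differ at most in the lamps at `β i` and `b`, both at distance at most `r`: distance at most
`2 (2 r + 1)`.  For a move, `lw_step'`: either the configurations are equal and the positions are
at distance `≤ 1`, or the positions are equal and the configurations differ at most at the
position; in both cases `pt t η`, `pt t' η` are at distance at most `1`. -/
def S_CMT : Prop := ∀ (F₁ F₂ H₁ H₂ : Type) [Group F₁] [Group F₂] [Group H₁] [Group H₂] [Finite F₁]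
  [Finite F₂] (m₁ : WM H₁) (m₂ : WM H₂) (ρ : ℕ) (f : Lm F₁ H₁ → Lm F₂ H₂)
  (φ : Lm F₂ H₂ → Lm F₁ H₁), LP (lw F₁ m₁) (lw F₂ m₂) ρ f φ → ∀ (r k : ℕ),
  (∀ t : Lm F₁ H₁ × (Fin k → H₁), Val m₁ r t →
    CM m₂ (ρ * (2 * r + 1)) ρ (fun η : Fin k → F₁ => f (pt t η))) ∧
  (∀ t t' : Lm F₁ H₁ × (Fin k → H₁), Stp m₁ r t t' → ∀ η : Fin k → F₁,
    (lw F₂ m₂).d (f (pt t η)) (f (pt t' η)) ≤ 2 * (ρ * (2 * r + 1)))

/-- **S_PATH** (from S_LOW, S_MOVE, S_CMT).  Not all the cubes have large spread.

Proof.  `HasEnds 2 H₂` gives `n₀` and two disjoint infinite components `U, U'` of the complement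
of the ball `B` of radius `n₀` around `1` (same proof as `three_comps` in `EndsLamp/Ends.lean`).
Let `a = ρ (2r+1)`, `D₀ = 2 a + n₀`.  For a valid `t` let `g η = m₂.d 1 (ps (f (pt t η)))`, which
is `Lip1 a` by S_CMT.  Put `D' = n₀ + ρ + a k + 1`, `L = (k+1) (2 ρ D')`, `δ = 1/(L+1)`.  If
`pr (g ≤ D₀) ≥ δ` then by S_LOW `av g ≤ D₀ + a √(2 k log (L+1))`, and by the triangle inequality
`spread ≤ 2 av g ≤ 2 D₀ + 2 a √(2 k log (L+1)) < k/(8ρ)` for `r ≥ R₀`, `k ≥ a^8`: contradiction.
So `pr (g ≤ D₀) < δ` for all valid `t`.  Let `M t = pr (ps (f (pt t η)) ∈ U)`.  If `Stp t t'` then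
`|M t - M t'| ≤ pr (g ≤ D₀) < δ` (with `g` for `t`): if exactly one of the positions `x` (for `t`)
and `x'` (for `t'`) is in `U` then, as `m₂.d x x' ≤ 2 a` (S_CMT, `lw_ps`), `Clo.exit` gives a point
of `B` at distance at most `2 a` from `x`.
Choose `y ∈ U`, `y' ∈ U'` with `m₂.d 1 y = m₂.d 1 y' = D'` (take a point of `U` further than `D'`
from `1` and the point at distance `D'` from `1` on a geodesic (`WM.mid`); it is connected to the
first point outside `B`).  Let `z = φ (mk c1 y)`, `z' = φ (mk c1 y')`; `d z z' ≤ ρ · 2 D'`.  For any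
valid `t = (z, β)` (it exists as the ball of radius `r` has `≥ k` points) all the points `pt t η`
are at distance at most `k (2r+1)` from `z`, so `f (pt t η)` is at distance at most `a k + ρ` from
`mk c1 y`, so its position is in `U` (`Clo.deep`): `M t = 1`.  Similarly `M t' = 0` for all valid
`t' = (z', β')`.  But S_MOVE gives a chain of `(k+1) d z z' ≤ L` steps from `t` to some
`(z', β')`, so `1 ≤ L δ < 1`. -/
def S_PATH : Prop := ∀ (F₁ F₂ H₁ H₂ : Type) [Group F₁] [Group F₂] [Group H₁] [Group H₂]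
  [Finite F₁] [Fintype F₁] [Finite F₂] [Nontrivial F₁] (m₁ : WM H₁) (m₂ : WM H₂) (ρ : ℕ)
  (f : Lm F₁ H₁ → Lm F₂ H₂) (φ : Lm F₂ H₂ → Lm F₁ H₁), 1 ≤ ρ →
  LP (lw F₁ m₁) (lw F₂ m₂) ρ f φ → HasEnds 2 H₂ →
  ∃ R₀ : ℕ, ∀ r k : ℕ, R₀ ≤ r → (ρ * (2 * r + 1)) ^ 8 ≤ k → 3 * k ≤ bl m₁ (r - 1) →
    ¬ ∀ t : Lm F₁ H₁ × (Fin k → H₁), Val m₁ r t →
      (k : ℝ) / (8 * ρ) ≤ spread m₂ (fun η : Fin k → F₁ => f (pt t η))

/-- **S_ONE** (from all the above and the library; done by helper351).  One-ended base against a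
base with at least three ends, if the one-ended base has growth at least of degree ten. -/
def S_ONE : Prop := ∀ (F₁ F₂ H₁ H₂ : Type) [Group F₁] [Group F₂] [Group H₁] [Group H₂]
  [Finite F₁] [Finite F₂] [Nontrivial F₁] [Nontrivial F₂] (m₁ : WM H₁) (m₂ : WM H₂) (ρ : ℕ)
  (f : Lm F₁ H₁ → Lm F₂ H₂) (φ : Lm F₂ H₂ → Lm F₁ H₁),
  LP (lw F₁ m₁) (lw F₂ m₂) ρ f φ → OneEnded H₁ → HasEnds 3 H₂ →
  (∀ c R₀ : ℕ, ∃ r, R₀ ≤ r ∧ c * r ^ 10 ≤ bl m₁ r) → False

/-! ## Part 5: amenability -/

/-- **S_NONAM**.  A group with at least three ends satisfies a linear isoperimetric inequality.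

Proof.  `three_comps` (`EndsLamp/Ends.lean`) gives `n` such that the complement of every ball of
radius `n` has at least three (pairwise disjoint) infinite components (translate,
`IsComp.translate`, `ball_translate`).  Write `B y` for the ball of radius `n` around `y`.
Claim.  Let `Y` be a finite nonempty set of points with pairwise distances `> 2 n` (so
that the balls are disjoint; they are connected, `ball_conn`) and `D` a finite set that meets every
infinite component of the complement of `B y`, for every `y ∈ Y`.  Then `|D| ≥ |Y| + 2`.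
Induction on `|Y|`.  If `Y = {y}` then `|D| ≥ 3`.  Otherwise choose `y₀ ∈ Y` and a component `C` of
the complement of `B y₀` with `|Y ∩ C|` maximal; then `Y \ {y₀} ⊆ C`: otherwise let
`y₁ ∈ Y \ {y₀}`, `y₁ ∉ C`; `B y₁` is connected and disjoint from `B y₀`, so it lies in the component
`C'` of `y₁` (in the complement of `B y₀`), and `C' ≠ C`, so `B y₁` is disjoint from `C ∪ B y₀`,
which is connected (if `C` is nonempty, some point of `C` is adjacent to `B y₀`); so the component
of `y₀` in the complement of `B y₁` contains `(Y ∩ C) ∪ {y₀}`: contradiction to maximality.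
At least two infinite components of the complement of `B y₀` are different from `C`; each of them
contains a point of `D`; so at least two points of `D` are outside `C` (and outside `B y₀`).  Let
`D' = (D ∩ C) ∪ {y₀}`, `Y' = Y \ {y₀}`; `|D'| ≤ |D| - 1`.  `D'` satisfies the hypothesis for `Y'`:
let `y ∈ Y'`, `E` an infinite component of the complement of `B y`.  If `y₀ ∈ E` fine.  Otherwise
`E` is disjoint from `B y₀` (`B y₀` is connected and disjoint from `B y`), `E ∪ B y` is connected,
disjoint from `B y₀`, and meets `C` (in `y`), so `E ⊆ C`, and the point of `D ∩ E` is in `D'`.  So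
`|D| ≥ |D'| + 1 ≥ |Y'| + 3 = |Y| + 2`.
Now let `Ω` be finite nonempty, `∂Ω = {y ∈ Ω | ∃ z ∉ Ω, d y z ≤ 1}`.  Let `I` be the set of `y ∈ Ω`
with the ball of radius `n + 1` around `y` inside `Ω`.  Every `y ∈ Ω \ I` is within `n + 1` of
`∂Ω`, so `|Ω \ I| ≤ v(n+1) |∂Ω|` where `v` is the volume of balls.  Let `Y ⊆ I` be maximal with
pairwise distances `> 2n`; then `|I| ≤ v(2n) |Y|`.  `∂Ω` meets every infinite component `E` of the
complement of `B y`, `y ∈ Y`: `E` contains a point of the ball of radius `n+1` around `y`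
(adjacent to `B y`), which is in `Ω`, and `E` is infinite and connected, so a path in `E` leaves
`Ω`, and the last point before it leaves `Ω` for the first time is in `∂Ω ∩ E`.  So `|Y| ≤ |∂Ω|`
and `|Ω| ≤ (v(n+1) + v(2n)) |∂Ω|`. -/
def S_NONAM : Prop := ∀ (H : Type) [Group H] (m : WM H), HasEnds 3 H →
  ∃ C : ℕ, ∀ Ω : Finset H, Ω.card ≤ C * (Ω.filter fun y => ∃ z, z ∉ Ω ∧ m.d y z ≤ 1).card

/-- **S_FOL**.  If the base `H₁` has balls that are almost as large as larger balls then `H₂` does
not satisfy a linear isoperimetric inequality.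

Proof.  Suppose it does, with constant `C`.  (1) The same inequality holds in `Lm F₂ H₂` with the
metric `lw F₂ m₂`: split a finite `Ω` into its leaves `{y | mk c y ∈ Ω}`, `c : Cfg F₂ H₂`; a
boundary point of a leaf is a boundary point of `Ω` (`lw_leaf`).
(2) Let `R = ρ (ρ + 1) + ρ`, `ε > 0` and take `r` from `Fol` for `R`.  Let `Ω₁ = {v | ps v` and the
support of `cf v` in the ball of radius `r + R` around `1}` (finite, `fin_supp`).  If `v ∈ Ω₁`,
`m₁.d 1 (ps v) ≤ r` and `d v v' ≤ R` then `v' ∈ Ω₁` (`lw_ps`, `lw_lamp`).  So the set `Z` of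
`v ∈ Ω₁` that are at distance at most `R` from the complement of `Ω₁` has
`|Z| ≤ N (bl (r+R) - bl r) ≤ N ε bl r ≤ ε |Ω₁|`, where `N = |F₁|^(bl (r+R))` and
`|Ω₁| = N · bl (r+R)`.
(3) Let `Ω₂ = {g | ∃ v ∈ Ω₁, d g (f v) ≤ ρ}` (finite).  If `g ∈ Ω₂`, `g' ∉ Ω₂`, `d g g' ≤ 1`,
`v ∈ Ω₁`, `d g (f v) ≤ ρ` then `φ g' ∉ Ω₁` (as `d (f (φ g')) g' ≤ ρ`) and
`d v (φ g') ≤ d v (φ (f v)) + d (φ (f v)) (φ g') ≤ ρ + ρ (ρ + 1) = R`, so `v ∈ Z`.  So the boundary
of `Ω₂` has at most `V |Z|` points, `V` the size of a ball of radius `ρ` in `Lm F₂ H₂`.  `f` is at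
most `V'` to one, `V'` the size of a ball of radius `2 ρ` in `Lm F₁ H₁` (`LP.low`), so
`|Ω₂| ≥ |Ω₁| / V'`.  So `|Ω₁| ≤ V' |Ω₂| ≤ V' C V |Z| ≤ V' C V ε |Ω₁|`, a contradiction if `ε` is
small. -/
def S_FOL : Prop := ∀ (F₁ F₂ H₁ H₂ : Type) [Group F₁] [Group F₂] [Group H₁] [Group H₂]
  [Finite F₁] [Finite F₂] (m₁ : WM H₁) (m₂ : WM H₂) (ρ : ℕ) (f : Lm F₁ H₁ → Lm F₂ H₂)
  (φ : Lm F₂ H₂ → Lm F₁ H₁), LP (lw F₁ m₁) (lw F₂ m₂) ρ f φ → Fol m₁ →
  (∃ C : ℕ, ∀ Ω : Finset H₂, Ω.card ≤ C * (Ω.filter fun y => ∃ z, z ∉ Ω ∧ m₂.d y z ≤ 1).card) →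
  False

/-- **S_POLY**.  Polynomial growth implies `Fol`.  Proof: let `R`, `ε` be given (`R ≥ 1`).  If
`bl (r + R) > (1 + ε) bl r` for all `r` then `bl (n R) ≥ (1 + ε)^n` by induction (`bl 0 ≥ 1`), but
`bl (n R) ≤ D (n R + 1)^e`, a contradiction for large `n`.  (It is enough that the polynomial bound
holds for all `r ≥ r₀`.) -/
def S_POLY : Prop := ∀ (H : Type) [Group H] (m : WM H) (D e r₀ : ℕ),
  (∀ r, r₀ ≤ r → bl m r ≤ D * (r + 1) ^ e) → Fol m

/-! ## Part 6: two ends -/

/-- **S_TWO**.  A group with exactly two ends is coarsely a line.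

Proof.  Let `A` be an infinite almost invariant set with infinite complement (one of the two sets
given by `HasEnds 2`).  Write `X ~ Y` if `X` and `Y` differ by a finite set.  Left translates
`gA` are almost invariant, so are complements and intersections.  As `HasEnds 3` fails, for almost
invariant `X` with `X` and its complement infinite, `X ~ A` or `X ~ Aᶜ` (two of the four sets
`A ∩ X, A ∩ Xᶜ, Aᶜ ∩ X, Aᶜ ∩ Xᶜ` must be finite ...).  Let `K` be a finite connected set
(a large ball around `1`) that contains all points `x` with `d x A ≤ 1` and `d x Aᶜ ≤ 1`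
(`ai_bd`), and such that `K ∪ A` and `K ∪ Aᶜ` are connected (each is, as soon as `K` contains the
boundary and is connected: from a point of `A` follow a path to `1 ∈ K` until it meets `K`; it
stays in `A` until then).  If `g K ∩ K = ∅` and `g K ⊆ A` then `Aᶜ ∪ K` (connected, disjoint from
`g K`) is disjoint from the boundary of `g A`, so `Aᶜ ∪ K ⊆ gA` or `(Aᶜ ∪ K) ∩ gA = ∅`.  Hence:
(i) if `g K ∩ K = ∅`, `g K ⊆ A`, `g A ~ A` then `gA ⊆ A`, `gA ≠ A`; (ii) if `gA ~ Aᶜ` instead, then
`Aᶜ ∪ K ⊆ gA`, i.e. `g Aᶜ ⊆ A`, proper.  Such `g` exist (all but finitely many `g ∈ A`: `gK` is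
connected, contains `g`, and avoids `K`).  Symmetrically with `Aᶜ` instead of `A`: there is `g'`
with `g' Aᶜ ⊊ Aᶜ` or `g' A ⊊ Aᶜ`.  In all the cases there is `t` with `tA ⊊ A`:
`t = g`, or `t = g'⁻¹`, or `t = g g'`.
The sets `t^n A` (`n : ℤ`) decrease strictly, so `t` has infinite order and `t^n K` leaves every
finite set as `n → ±∞`.  `⋂ t^n A = ∅`: fix `p ∉ A`; a point `h ∈ ⋂_{n ≥ 0} t^n A` is connected to
`p` by a fixed finite path, which must meet the boundary of `t^n A`, contained in `t^n K`, for all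
`n ≥ 0`: impossible.  Similarly `⋃ t^n A = H`.  `A \ tA` is finite (`tA ~ A`, since `tA ⊆ A` is
infinite with infinite complement: `tA ~ Aᶜ` is impossible).  So every `x` is in
`t^n (A \ tA)` for a unique `n =: h x`, and `h (t^i x) = i + h x`.
If `x = t^i s`, `y = t^j s'` with `s, s' ∈ A \ tA` then `d x y = len (s⁻¹ t^(j-i) s') ≤
|j - i| len t + 2 max len`.  And `|h (x g) - h x| = |h (s g) - h s|` is bounded
for `len g ≤ 1` (finitely many `s`, `g`), so `h` is Lipschitz (walk along a geodesic, `WM.prev`). -/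
def S_TWO : Prop := ∀ (H : Type) [Group H] (m : WM H), HasEnds 2 H → ¬ HasEnds 3 H →
  ∃ (h : H → ℤ) (C : ℕ), Lin m h C

/-- **S_LGR**.  A group that is coarsely a line has linear growth.  Proof: any two points with the
same value of `h` are at distance at most `C`, so each fibre of `h` has at most `bl m C` points
(left-invariance of `d`), and the points of the ball of radius `r` around `1` have
`|h x - h 1| ≤ C r`. -/
def S_LGR : Prop := ∀ (H : Type) [Group H] (m : WM H) (h : H → ℤ) (C : ℕ), Lin m h C →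
  ∃ D : ℕ, ∀ r, bl m r ≤ D * (r + 1)

/-- **S_12** (from S_CONC).  One-ended base against a base that is coarsely a line.

Proof.  Let `N` be large, and take the rows of `exists_rows` (`EndsLamp/Rows.lean`): `r ≥ 1` and
`x : Fin N → Fin r → H₁` injective.  Choose `b ≠ 1` in `F₁`; for `ω : Fin N → (Fin r → Bool)` let
`c ω` be the configuration with value `b` at `x i j` if `ω i j = true` and `1` elsewhere, and
`Φ ω = f (mk (c ω) 1)`.  Changing one row of `ω` costs at most `10 r` (`rowcost`), so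
`d (Φ ω) (Φ (update ω i θ)) ≤ a := 10 ρ r`.  The number of `(i, j)` with `ω i j ≠ ω' i j` is
at most `ρ d (Φ ω) (Φ ω') + 2 ρ` (`lw_count`, `LP.low`).
Let `g ω = h (ps (Φ ω))` (real valued); it is `Lip1 (C a)` on `Fin N → Θ`, `Θ = (Fin r → Bool)`.
Let `ε = 1/(100 (N+1))`, `τ = C a √(2 N log (1/ε))`.  By S_CONC and `pr_exists_hy` for
independent `ω, ω'`, with probability at least `98/100` all hybrids have `|g - av g| < τ`.  Then
`Φ ω` and `Φ ω'` are connected by a chain through the images of the hybrids, with steps `≤ a`, so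
(`Cn`) by unit steps that stay in `{w | |h (ps w) - av g| < τ + C a}`, so their lamps outside
`W = {y | |h y - av g| < τ + C a}` agree (as in `cn_low`).  There is a walk of
length at most `C' (τ + C a + 1)` from `ps (Φ ω)` to `ps (Φ ω')` that visits all the points of `W`
(`C'` depends on `m₂, h, C` only: visit the nonempty fibres of `h` over the integers
in the interval in increasing order, each fibre has at most `bl m₂ C` points with mutual distances
at most `C`, consecutive integers in the image of the interval ... `d x y ≤ C |h x - h y| + C`,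
and the total variation of `h` along the tour is at most three times the length of the interval).
So `d (Φ ω) (Φ ω') ≤ C'' (τ + C a + 1)` with probability at least `98/100`.  But the number of
`(i,j)` with `ω i j ≠ ω' i j` has average `N r / 2` and is at most `N r`, so it is at least `N r/4`
with probability at least `1/3`; so for some pair `N r / 4 ≤ ρ C'' (τ + C a + 1) + 2 ρ ≤
C''' r √(N log (100 (N+1)))`, a contradiction for large `N`. -/
def S_12 : Prop := ∀ (F₁ F₂ H₁ H₂ : Type) [Group F₁] [Group F₂] [Group H₁] [Group H₂]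
  [Finite F₁] [Finite F₂] [Nontrivial F₁] (m₁ : WM H₁) (m₂ : WM H₂) (ρ : ℕ)
  (f : Lm F₁ H₁ → Lm F₂ H₂) (φ : Lm F₂ H₂ → Lm F₁ H₁), LP (lw F₁ m₁) (lw F₂ m₂) ρ f φ →
  OneEnded H₁ → ∀ (h : H₂ → ℤ) (C : ℕ), ¬ Lin m₂ h C

/-! ## Part 7: the frozen statement -/

/-- the Cayley graph as in the frozen statement -/
abbrev cay {G : Type} [Group G] (S : Finset G) : SimpleGraph G :=
  SimpleGraph.fromRel fun a b : G => ∃ s ∈ S, b = a * s

/-- the number of ends as in the frozen statement -/
noncomputable abbrev ends {G : Type} [Group G] (S : Finset G) : Cardinal :=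
  Cardinal.mk ↥(cay S).componentComplFunctor.sections

/-- the subgroup of the frozen statement -/
abbrev Lsub (F H : Type) [Group F] [Group H] : Subgroup (RegularWreathProduct F H) :=
  Subgroup.closure
    (Set.range (fun a : F => (⟨Pi.mulSingle (1 : H) a, (1 : H)⟩ : RegularWreathProduct F H)) ∪
      Set.range (fun h : H => (⟨(1 : H → F), h⟩ : RegularWreathProduct F H)))

/-- **S_QI**.  The hypothesis of the frozen statement gives a quasi-isometry in the sense of the
library.  Proof: `Lsub F H = RWreath F H` (an element of the restricted wreath product is a product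
of lamp changes conjugated by elements of `H`, see `gens_gen` in `EndsLamp/Lamp.lean`).  In the
Cayley graph `cay S` of a group with generating set `S` the graph distance is `wordDist S`
(`EndsLamp/Stmt.lean`).  Take `L = max K 1`, and a large additive constant. -/
def S_QI : Prop := ∀ (F₁ F₂ H₁ H₂ : Type) [Group F₁] [Group F₂] [Group H₁] [Group H₂]
  [Finite F₁] [Finite F₂] (L₁ : Subgroup (RegularWreathProduct F₁ H₁))
  (L₂ : Subgroup (RegularWreathProduct F₂ H₂)), L₁ = Lsub F₁ H₁ → L₂ = Lsub F₂ H₂ →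
  (∃ (S₁ : Finset ↥L₁) (S₂ : Finset ↥L₂),
    Subgroup.closure (↑S₁ : Set ↥L₁) = ⊤ ∧ Subgroup.closure (↑S₂ : Set ↥L₂) = ⊤ ∧
    ∃ f : ↥L₁ → ↥L₂, ∃ K C : ℝ, 0 < K ∧ 0 ≤ C ∧
      (∀ x y : ↥L₁,
        ((cay S₂).dist (f x) (f y) : ℝ) ≤ K * ((cay S₁).dist x y : ℝ) + C ∧
        ((cay S₁).dist x y : ℝ) ≤ K * ((cay S₂).dist (f x) (f y) : ℝ) + C) ∧
      (∀ z : ↥L₂, ∃ x : ↥L₁, ((cay S₂).dist z (f x) : ℝ) ≤ C)) →
  QuasiIsometric (RWreath F₁ H₁) (RWreath F₂ H₂)

/-- **S_ENDS**.  The number of ends of the Cayley graph is at least `n` iff `HasEnds n`.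

Proof.  Let `G = cay T`.  It is connected and locally finite.
(⇐)  Let `A : Fin n → Set H` be the sets.  There is a finite set `K` that contains all the
endpoints of the edges between `A i` and its complement, for all `i` (almost invariance).  So every
component of the complement of `K` is contained in `A i` or disjoint from it.  There are finitely
many components of the complement of `K` (Mathlib: `SimpleGraph.ComponentCompl` is finite for
locally finite preconnected graphs), so `A i` contains an infinite one, `C i`.  Every infinite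
component is the value at `K` of a section of `componentComplFunctor` (an infinite component
contains an infinite component of the complement of every larger finite set; Mathlib:
`ComponentCompl.infinite_iff_in_eventualRange`, `Functor.toEventualRanges`,
`surjective_toEventualRanges`, `eval_section_surjective_of_surjective`,
`Mathlib/Combinatorics/SimpleGraph/Ends/`).
(⇒)  `n` different sections have pairwise different values at some finite `K`; the values are
infinite components (Mathlib: `SimpleGraph.end_...`/`infinite_iff_in_all_ranges`); their supports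
are pairwise disjoint, infinite and almost invariant: it is enough to check it for right
multiplication by the elements of `T` (then use `AlmostInvariant` for products and inverses, or
`Clo.almostInvariant` with the word metric `wm` of `T`, `EndsLamp/Word.lean`). -/
def S_ENDS : Prop := ∀ (H : Type) [Group H] (T : Finset H), Subgroup.closure (↑T : Set H) = ⊤ →
  ∀ n : ℕ, HasEnds n H ↔ (n : Cardinal) ≤ ends T

/-- **S_CONT**.  A finitely generated group with at least three ends has continuum many ends.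

Proof.  Upper bound: a section is a family indexed by the countable set of finite subsets of `H`
with values in countable sets, so there are at most `ℵ₀ ^ ℵ₀ = 𝔠`.  Lower bound: by `branch`
(`EndsLamp/Ends.lean`) every infinite component of the complement of a finite `K` contains two
disjoint infinite components of the complement of some finite `K' ⊇ K` (`branch` gives `A'` and
`A''` infinite and disjoint; enlarge `K'` and use `Clo.subcomp`).  Iterate: for every finite 0-1
word `w` an infinite component `C_w` of the complement of a finite `K_{|w|}`, with `C_{w i} ⊆ C_w`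
and `C_{w 0}`, `C_{w 1}` disjoint, and every finite set contained in some `K_n` (enlarge `K_n` by
the ball of radius `n`).  Every infinite 0-1 sequence gives a section: its value at `K` is the
component of the complement of `K` that contains `C_w`, for `w` a long initial segment with
`K ⊆ K_{|w|}`.  Different sequences give different sections. -/
def S_CONT : Prop := ∀ (H : Type) [Group H] (T : Finset H), Subgroup.closure (↑T : Set H) = ⊤ →
  HasEnds 3 H → ends T = Cardinal.continuum

end Pool.Agent.H351.QE
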