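import Pool.Agent.H351.QE.Stm
import Pool.Graph.R_pool_sql_team_seeded_3997aac3.Q11.TwoEnd.Group

/-!
# Project QE: a group with exactly two ends is coarsely a line

Uses the displacement cocycle of a two-ended graph of the library project `Q11.TwoEnd`.
-/

set_option autoImplicit false

open Pool.Agent.EndsLamp Pool.Q11.TwoEnd

namespace Pool.Agent.H351.QE.TWO

open scoped Classical

variable {H : Type} [Group H] (m : WM H)

/-- the Cayley graph -/
def Gam : SimpleGraph H where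
  Adj x y := x ≠ y ∧ m.d x y ≤ 1
  symm := ⟨fun x y h => ⟨h.1.symm, by rw [m.d_comm]; exact h.2⟩⟩
  loopless := ⟨fun x h => h.1 rfl⟩

theorem adj_iff (x y : H) : (Gam m).Adj x y ↔ x ≠ y ∧ m.d x y ≤ 1 := Iff.rfl

/-- left translations -/
def Lt (g : H) : Gam m ≃g Gam m where
  toEquiv := Equiv.mulLeft g
  map_rel_iff' := by
    intro x y
    change (g * x ≠ g * y ∧ m.d (g * x) (g * y) ≤ 1) ↔ (x ≠ y ∧ m.d x y ≤ 1)
    rw [m.d_mul, Ne, mul_right_inj]

theorem Lt_apply (g x : H) : Lt m g x = g * x := rfl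

theorem Lt_mul (g h : H) : Lt m (g * h) = Lt m g * Lt m h := by
  ext x
  change g * h * x = g * (h * x)
  rw [mul_assoc]

theorem Lt_one : Lt m 1 = 1 := by
  ext x
  change 1 * x = x
  rw [one_mul]

theorem Lt_inv (g : H) : Lt m g⁻¹ = (Lt m g)⁻¹ := by
  rw [eq_inv_iff_mul_eq_one, ← Lt_mul, inv_mul_cancel, Lt_one]

theorem Gam_pre : (Gam m).Preconnected := by
  intro x y
  have key : ∀ n y, m.d x y = n → (Gam m).Reachable x y := by
    intro n
    induction n with
    | zero =>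
      intro y h
      rw [m.eq_of_d h]
    | succ n ih =>
      intro y h
      obtain ⟨y', h1, h2⟩ := m.prev h
      by_cases he : y' = y
      · rw [← he]
        exact ih y' h1
      · exact (ih y' h1).trans (SimpleGraph.Adj.reachable ⟨he, h2⟩)
  exact key _ y rfl

theorem Gam_conn : (Gam m).Connected := by
  haveI : Nonempty H := ⟨1⟩
  exact ⟨Gam_pre m⟩

theorem nbr_fin (x : H) : ((Gam m).neighborSet x).Finite :=
  (m.ball_fin x 1).subset fun _ hy => hy.2

noncomputable instance : (Gam m).LocallyFinite := fun x => (nbr_fin m x).fintype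

variable {m}

/-! ### almost invariant sets -/

theorem ai_of_bd {X : Set H} {S : Finset H} (h : Bd (Gam m) X S) : AlmostInvariant X := by
  have ex : ∀ x y, x ∈ X → y ∉ X → ∃ k ∈ (S : Set H), m.d x k + m.d k y ≤ m.d x y + 1 := by
    intro x y hx hy
    obtain ⟨a, b, ha, hb, hab, h1, h2⟩ := m.change (fun z => z ∈ X) hx hy
    refine ⟨b, (h a ha b hb ⟨?_, hab⟩).2, by omega⟩
    rintro rfl
    exact hb ha
  intro g
  apply (m.nb_fin S.finite_toSet (m.len g + 1)).subset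
  rintro z (⟨hz, hzg⟩ | ⟨⟨x, hx, rfl⟩, hz⟩)
  · have h1 : z * g⁻¹ ∉ X := fun h => hzg ⟨z * g⁻¹, h, by simp⟩
    obtain ⟨k, hk, h2⟩ := ex _ _ hz h1
    refine ⟨k, hk, ?_⟩
    rw [m.d_mul_right, m.len_inv] at h2
    omega
  · obtain ⟨k, hk, h2⟩ := ex _ _ hx hz
    refine ⟨k, hk, ?_⟩
    simp only [m.d_mul_right] at h2
    rw [m.d_comm]
    change m.d k (x * g) ≤ m.len g + 1
    omega

theorem img_iff (X : Set H) (g z : H) : z ∈ (fun x => x * g) '' X ↔ z * g⁻¹ ∈ X := by
  constructor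
  · rintro ⟨x, hx, rfl⟩
    simpa using hx
  · intro h
    exact ⟨z * g⁻¹, h, by simp⟩

theorem ai_inter {X Y : Set H} (hX : AlmostInvariant X) (hY : AlmostInvariant Y) :
    AlmostInvariant (X ∩ Y) := by
  intro g
  refine ((hX g).union (hY g)).subset ?_
  intro z hz
  simp only [Set.mem_symmDiff, Set.mem_union, img_iff, Set.mem_inter_iff] at hz ⊢
  tauto

theorem ai_compl {X : Set H} (hX : AlmostInvariant X) : AlmostInvariant Xᶜ := by
  intro g
  refine (hX g).subset ?_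
  intro z hz
  simp only [Set.mem_symmDiff, img_iff, Set.mem_compl_iff] at hz ⊢
  tauto

theorem ends3 {X Y Z : Set H} (hX : X.Infinite) (hY : Y.Infinite) (hZ : Z.Infinite)
    (aX : AlmostInvariant X) (aY : AlmostInvariant Y) (aZ : AlmostInvariant Z)
    (h1 : Disjoint X Y) (h2 : Disjoint X Z) (h3 : Disjoint Y Z) : HasEnds 3 H := by
  refine ⟨![X, Y, Z], ?_, ?_, ?_⟩
  · intro i
    fin_cases i
    · exact hX
    · exact hY
    · exact hZ
  · intro i
    fin_cases i
    · exact aX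
    · exact aY
    · exact aZ
  · intro i j hij
    fin_cases i <;> fin_cases j
    · exact absurd rfl hij
    · exact h1
    · exact h2
    · exact h1.symm
    · exact absurd rfl hij
    · exact h3
    · exact h2.symm
    · exact h3.symm
    · exact absurd rfl hij

/-- the half given by two ends -/
theorem exists_Half (h2 : HasEnds 2 H) (h3 : ¬ HasEnds 3 H) :
    ∃ (A : Set H) (S : Finset H), Half (Gam m) A S := by
  obtain ⟨B, hB, hBa, hBd⟩ := h2
  set A := B 0 with hA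
  have hAinf : A.Infinite := hB 0
  have hAc : Aᶜ.Infinite := by
    refine (hB 1).mono ?_
    intro x hx hx'
    exact Set.disjoint_left.1 (hBd (show (0 : Fin 2) ≠ 1 by decide)) hx' hx
  have hfin := ai_bd (m := m) (hBa 0) 1
  refine ⟨A, hfin.toFinset, ⟨hAinf, hAc, ?_, ?_⟩⟩
  · intro a ha b hb hab
    rw [Set.Finite.mem_toFinset, Set.Finite.mem_toFinset]
    refine ⟨⟨⟨a, ha, by simp⟩, b, hb, hab.2⟩, ⟨⟨a, ha, ?_⟩, b, hb, by simp⟩⟩
    rw [m.d_comm]
    exact hab.2
  · intro X S' hX hXc hbd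
    have aA := hBa 0
    rw [← hA] at aA
    have aX := ai_of_bd hbd
    have aAc := ai_compl aA
    have aXc := ai_compl aX
    have q11 := ai_inter aA aX
    have q12 := ai_inter aA aXc
    have q21 := ai_inter aAc aX
    have q22 := ai_inter aAc aXc
    have dA : ∀ (P Q : Set H), Disjoint (A ∩ P) (Aᶜ ∩ Q) := by
      intro P Q
      rw [Set.disjoint_left]
      rintro x ⟨hx, _⟩ ⟨hx', _⟩
      exact hx' hx
    have dX : ∀ (P Q : Set H), Disjoint (P ∩ X) (Q ∩ Xᶜ) := by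
      intro P Q
      rw [Set.disjoint_left]
      rintro x ⟨_, hx⟩ ⟨_, hx'⟩
      exact hx' hx
    have sA : (A ∩ X).Infinite ∨ (A ∩ Xᶜ).Infinite := by
      rw [← Set.infinite_union, Set.inter_union_compl]; exact hAinf
    have sAc : (Aᶜ ∩ X).Infinite ∨ (Aᶜ ∩ Xᶜ).Infinite := by
      rw [← Set.infinite_union, Set.inter_union_compl]; exact hAc
    have sX : (A ∩ X).Infinite ∨ (Aᶜ ∩ X).Infinite := by
      rw [← Set.infinite_union, ← Set.union_inter_distrib_right, Set.union_compl_self,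
        Set.univ_inter]; exact hX
    have sXc : (A ∩ Xᶜ).Infinite ∨ (Aᶜ ∩ Xᶜ).Infinite := by
      rw [← Set.infinite_union, ← Set.union_inter_distrib_right, Set.union_compl_self,
        Set.univ_inter]; exact hXc
    have t1 : ¬ ((A ∩ X).Infinite ∧ (A ∩ Xᶜ).Infinite ∧ (Aᶜ ∩ X).Infinite) := fun h =>
      h3 (ends3 h.1 h.2.1 h.2.2 q11 q12 q21 (dX _ _) (dA _ _) (dA _ _))
    have t2 : ¬ ((A ∩ X).Infinite ∧ (A ∩ Xᶜ).Infinite ∧ (Aᶜ ∩ Xᶜ).Infinite) := fun h =>
      h3 (ends3 h.1 h.2.1 h.2.2 q11 q12 q22 (dX _ _) (dA _ _) (dA _ _))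
    have t3 : ¬ ((A ∩ X).Infinite ∧ (Aᶜ ∩ X).Infinite ∧ (Aᶜ ∩ Xᶜ).Infinite) := fun h =>
      h3 (ends3 h.1 h.2.1 h.2.2 q11 q21 q22 (dA _ _) (dA _ _) (dX _ _))
    have t4 : ¬ ((A ∩ Xᶜ).Infinite ∧ (Aᶜ ∩ X).Infinite ∧ (Aᶜ ∩ Xᶜ).Infinite) := fun h =>
      h3 (ends3 h.1 h.2.1 h.2.2 q12 q21 q22 (dA _ _) (dA _ _) (dX _ _))
    have main : ((A ∩ Xᶜ).Finite ∧ (Aᶜ ∩ X).Finite) ∨ ((A ∩ X).Finite ∧ (Aᶜ ∩ Xᶜ).Finite) := by
      simp only [← Set.not_infinite]
      exact quad sA sAc sX sXc t1 t2 t3 t4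
    rcases main with ⟨m1, m2⟩ | ⟨m1, m2⟩
    · left
      refine ⟨m2.subset ?_, m1.subset ?_⟩
      · rintro x ⟨hx, hx'⟩; exact ⟨hx', hx⟩
      · rintro x ⟨hx, hx'⟩; exact ⟨hx, hx'⟩
    · right
      refine ⟨m1.subset ?_, m2.subset ?_⟩
      · rintro x ⟨hx, hx'⟩
        exact ⟨by by_contra h; exact hx' h, hx⟩
      · rintro x ⟨hx, hx'⟩; exact ⟨hx, hx'⟩

/-! ### the cocycle -/

section
variable {A : Set H} {S : Finset H} (hH : Half (Gam m) A S)

/-- the displacement of an element of the group -/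
noncomputable def tt (m : WM H) (A : Set H) (g : H) : ℤ := tau A (Lt m g)

include hH

theorem tt_mul_abs (g h : H) : |tt m A (g * h) - tt m A g| = |tt m A h| := by
  unfold tt
  rw [Lt_mul]
  by_cases hg : Pos A (Lt m g)
  · rw [tau_mul_pos hH hg]
    congr 1
    ring
  · rw [tau_mul_neg hH hg, ← abs_neg]
    congr 1
    ring

theorem tt_one : tt m A 1 = 0 := by
  unfold tt
  rw [Lt_one]
  exact tau_one hH

theorem tt_lip : ∃ C : ℕ, ∀ g : H, |tt m A g| ≤ C * (m.len g : ℤ) := by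
  have hfin : ((fun g => (tt m A g).natAbs) '' {g | m.len g ≤ 1}).Finite := (m.fin 1).image _
  obtain ⟨C, hC⟩ := hfin.bddAbove
  have hC' : ∀ g, m.len g ≤ 1 → |tt m A g| ≤ C := by
    intro g hg
    have h1 : (tt m A g).natAbs ≤ C := hC ⟨g, hg, rfl⟩
    rw [Int.abs_eq_natAbs]
    exact_mod_cast h1
  refine ⟨C, ?_⟩
  have key : ∀ n g, m.len g = n → |tt m A g| ≤ C * (n : ℤ) := by
    intro n
    induction n with
    | zero =>
      intro g hg
      rw [m.eq_one g hg, tt_one hH]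
      simp
    | succ n ih =>
      intro g hg
      obtain ⟨a, b, rfl, ha, hb⟩ := m.split g n hg
      have h1 := ih a ha
      have h2 := hC' b hb
      have h3 := tt_mul_abs hH a b
      have h4 : |tt m A (a * b)| ≤ |tt m A (a * b) - tt m A a| + |tt m A a| := by
        have := abs_add_le (tt m A (a * b) - tt m A a) (tt m A a)
        rwa [sub_add_cancel] at this
      push_cast
      rw [h3] at h4
      nlinarith
  intro g
  exact key _ g rfl

theorem kernel_fin : {g : H | Pos A (Lt m g) ∧ tt m A g = 0}.Finite := by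
  refine (kernel_orbit_finite (Gam_conn m) hH (1 : H)).subset ?_
  rintro g ⟨h1, h2⟩
  exact ⟨Lt m g, h1, h2, by rw [Lt_apply, mul_one]⟩

theorem fib_pos (c : ℤ) : {g : H | Pos A (Lt m g) ∧ tt m A g = c}.Finite := by
  by_cases hne : ∃ g0, Pos A (Lt m g0) ∧ tt m A g0 = c
  · obtain ⟨g0, h0, h0c⟩ := hne
    refine ((kernel_fin hH).image (fun g => g0 * g)).subset ?_
    rintro g ⟨h1, h2⟩
    have hi : Pos A (Lt m g0⁻¹) := by rw [Lt_inv]; exact (pos_inv hH _).2 h0
    refine ⟨g0⁻¹ * g, ⟨?_, ?_⟩, by simp⟩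
    · rw [Lt_mul]
      exact pos_mul_pos hi h1
    · unfold tt
      rw [Lt_mul, tau_mul_pos hH hi, Lt_inv, tau_inv_pos hH h0]
      change - tt m A g0 + tt m A g = 0
      rw [h0c, h2]
      ring
  · refine Set.finite_empty.subset ?_
    intro g hg
    exact hne ⟨g, hg⟩

theorem fib_neg (c : ℤ) : {g : H | ¬ Pos A (Lt m g) ∧ tt m A g = c}.Finite := by
  by_cases hne : ∃ g0, ¬ Pos A (Lt m g0) ∧ tt m A g0 = c
  · obtain ⟨g0, h0, h0c⟩ := hne
    refine ((kernel_fin hH).image (fun g => g0 * g)).subset ?_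
    rintro g ⟨h1, h2⟩
    have hi : ¬ Pos A (Lt m g0⁻¹) := by
      rw [Lt_inv]
      exact fun h => h0 ((pos_inv hH _).1 h)
    refine ⟨g0⁻¹ * g, ⟨?_, ?_⟩, by simp⟩
    · rw [Lt_mul]
      exact neg_mul_neg hH hi h1
    · unfold tt
      rw [Lt_mul, tau_mul_neg hH hi, Lt_inv, tau_inv_neg hH h0]
      change tt m A g0 - tt m A g = 0
      rw [h0c, h2]
      ring
  · refine Set.finite_empty.subset ?_
    intro g hg
    exact hne ⟨g, hg⟩

theorem fib (c : ℤ) : {g : H | tt m A g = c}.Finite := by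
  refine ((fib_pos hH c).union (fib_neg hH c)).subset ?_
  intro g hg
  by_cases h : Pos A (Lt m g)
  · exact Or.inl ⟨h, hg⟩
  · exact Or.inr ⟨h, hg⟩

theorem fib_range (T : ℤ) : {g : H | 0 ≤ tt m A g ∧ tt m A g < T}.Finite := by
  have h : {g : H | 0 ≤ tt m A g ∧ tt m A g < T} ⊆ ⋃ c ∈ Set.Ico (0 : ℤ) T, {g | tt m A g = c} := by
    intro g hg
    rw [Set.mem_iUnion₂]
    exact ⟨tt m A g, ⟨hg.1, hg.2⟩, rfl⟩
  exact ((Set.finite_Ico 0 T).biUnion fun c _ => fib hH c).subset h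

theorem exists_t [Infinite H] : ∃ t : H, Pos A (Lt m t) ∧ 0 < tt m A t := by
  have h1 : ∃ t : H, Pos A (Lt m t) ∧ tt m A t ≠ 0 := by
    by_contra hcon
    push Not at hcon
    have hp : {g : H | Pos A (Lt m g)}.Finite :=
      (kernel_fin hH).subset fun g hg => ⟨hg, hcon g hg⟩
    have hn : {g : H | ¬ Pos A (Lt m g)}.Finite := by
      by_cases hne : ∃ g0, ¬ Pos A (Lt m g0)
      · obtain ⟨g0, h0⟩ := hne
        refine (hp.image (fun g => g0 * g)).subset ?_
        intro g hg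
        have hi : ¬ Pos A (Lt m g0⁻¹) := by
          rw [Lt_inv]
          exact fun h => h0 ((pos_inv hH _).1 h)
        refine ⟨g0⁻¹ * g, ?_, by simp⟩
        change Pos A (Lt m (g0⁻¹ * g))
        rw [Lt_mul]
        exact neg_mul_neg hH hi hg
      · refine Set.finite_empty.subset ?_
        intro g hg
        exact hne ⟨g, hg⟩
    have hu : (Set.univ : Set H).Finite := by
      refine (hp.union hn).subset ?_
      intro g _
      by_cases h : Pos A (Lt m g)
      · exact Or.inl h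
      · exact Or.inr h
    exact Set.infinite_univ hu
  obtain ⟨t, ht, ht0⟩ := h1
  rcases lt_or_gt_of_ne ht0 with h | h
  · refine ⟨t⁻¹, by rw [Lt_inv]; exact (pos_inv hH _).2 ht, ?_⟩
    unfold tt
    rw [Lt_inv, tau_inv_pos hH ht]
    change 0 < - tt m A t
    omega
  · exact ⟨t, ht, h⟩

theorem zpow_pos' {t : H} (ht : Pos A (Lt m t)) (n : ℤ) :
    Pos A (Lt m (t ^ n)) ∧ tt m A (t ^ n) = n * tt m A t := by
  have hnat : ∀ n : ℕ, Pos A (Lt m (t ^ n)) ∧ tt m A (t ^ n) = n * tt m A t := by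
    intro n
    induction n with
    | zero =>
      rw [pow_zero]
      refine ⟨by rw [Lt_one]; exact pos_one, ?_⟩
      rw [tt_one hH]
      simp
    | succ n ih =>
      rw [pow_succ]
      refine ⟨by rw [Lt_mul]; exact pos_mul_pos ih.1 ht, ?_⟩
      have h1 : tt m A (t ^ n * t) = tt m A (t ^ n) + tt m A t := by
        unfold tt
        rw [Lt_mul, tau_mul_pos hH ih.1]
      rw [h1, ih.2]
      push_cast
      ring
  obtain ⟨k, rfl | rfl⟩ := n.eq_nat_or_neg
  · rw [zpow_natCast]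
    exact hnat k
  · rw [zpow_neg, zpow_natCast]
    refine ⟨by rw [Lt_inv]; exact (pos_inv hH _).2 (hnat k).1, ?_⟩
    have h1 : tt m A (t ^ k)⁻¹ = - tt m A (t ^ k) := by
      unfold tt
      rw [Lt_inv, tau_inv_pos hH (hnat k).1]
    rw [h1, (hnat k).2]
    ring

theorem tt_low [Infinite H] : ∃ C : ℕ, ∀ g : H, (m.len g : ℤ) ≤ C * |tt m A g| + C := by
  obtain ⟨t, ht, ht0⟩ := exists_t hH
  set T := tt m A t with hT
  have hfin : ((fun g => m.len g) '' {g : H | 0 ≤ tt m A g ∧ tt m A g < T}).Finite :=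
    (fib_range hH T).image _
  obtain ⟨D, hD⟩ := hfin.bddAbove
  have hlen : ∀ n : ℤ, (m.len (t ^ n) : ℤ) ≤ |n| * m.len t := by
    have hnat : ∀ k : ℕ, m.len (t ^ k) ≤ k * m.len t := by
      intro k
      induction k with
      | zero => simp [m.len_one]
      | succ k ih =>
        rw [pow_succ]
        have := m.len_mul (t ^ k) t
        nlinarith
    intro n
    obtain ⟨k, rfl | rfl⟩ := n.eq_nat_or_neg
    · rw [zpow_natCast, Nat.abs_cast]
      exact_mod_cast hnat k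
    · rw [zpow_neg, zpow_natCast, m.len_inv, abs_neg, Nat.abs_cast]
      exact_mod_cast hnat k
  refine ⟨m.len t + D, fun g => ?_⟩
  set q := tt m A g / T with hq
  have h1 := zpow_pos' hH ht (-q)
  have h2 : tt m A (t ^ (-q) * g) = tt m A g % T := by
    have h3 : tt m A (t ^ (-q) * g) = tt m A (t ^ (-q)) + tt m A g := by
      unfold tt
      rw [Lt_mul, tau_mul_pos hH h1.1]
    rw [h3, h1.2, hq, ← hT]
    have := Int.mul_ediv_add_emod (tt m A g) T
    linarith
  have h3 : m.len (t ^ (-q) * g) ≤ D := hD ⟨_, ⟨by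
    change 0 ≤ tt m A (t ^ (-q) * g)
    rw [h2]; exact Int.emod_nonneg _ ht0.ne', by
    change tt m A (t ^ (-q) * g) < T
    rw [h2]; exact Int.emod_lt_of_pos _ ht0⟩, rfl⟩
  have h4 : m.len g ≤ m.len (t ^ q) + m.len (t ^ (-q) * g) := by
    have := m.len_mul (t ^ q) (t ^ (-q) * g)
    rwa [← mul_assoc, ← zpow_add, add_neg_cancel, zpow_zero, one_mul] at this
  have h5 := hlen q
  have h6 : |q| ≤ |tt m A g| + 1 := by
    have e1 := Int.mul_ediv_add_emod (tt m A g) T
    have e2 := Int.emod_nonneg (tt m A g) ht0.ne'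
    have e3 := Int.emod_lt_of_pos (tt m A g) ht0
    rw [← hq] at e1
    rw [abs_le]
    have e4 := le_abs_self (tt m A g)
    have e5 := neg_abs_le (tt m A g)
    have e6 := abs_nonneg (tt m A g)
    constructor
    · by_contra hc
      push Not at hc
      have : T * q ≤ T * (-|tt m A g| - 2) := by
        apply mul_le_mul_of_nonneg_left _ ht0.le
        omega
      nlinarith
    · by_contra hc
      push Not at hc
      have : T * (|tt m A g| + 1) ≤ T * q := by
        apply mul_le_mul_of_nonneg_left _ ht0.le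
        omega
      nlinarith
  have h7 : (m.len g : ℤ) ≤ m.len (t ^ q) + m.len (t ^ (-q) * g) := by exact_mod_cast h4
  have h8 : (m.len (t ^ (-q) * g) : ℤ) ≤ D := by exact_mod_cast h3
  have h9 : |q| * (m.len t : ℤ) ≤ (|tt m A g| + 1) * m.len t :=
    mul_le_mul_of_nonneg_right h6 (Int.natCast_nonneg _)
  have h10 : 0 ≤ |tt m A g| * (D : ℤ) := mul_nonneg (abs_nonneg _) (Int.natCast_nonneg _)
  push_cast
  nlinarith

end

theorem main : S_TWO := by
  intro H _ m h2 h3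
  haveI : Infinite H := infinite_of_hasEnds (by norm_num) h2
  obtain ⟨A, S, hH⟩ := exists_Half (m := m) h2 h3
  obtain ⟨C1, hC1⟩ := tt_lip hH
  obtain ⟨C2, hC2⟩ := tt_low hH
  have key : ∀ x y, |tt m A x - tt m A y| = |tt m A (x⁻¹ * y)| := by
    intro x y
    have := tt_mul_abs hH x (x⁻¹ * y)
    rw [mul_inv_cancel_left] at this
    rw [abs_sub_comm]
    exact this
  refine ⟨tt m A, C1 + C2, ?_, ?_⟩
  · intro x y
    rw [key]
    have h1 := hC1 (x⁻¹ * y)
    have h4 : (0 : ℤ) ≤ C2 * (m.len (x⁻¹ * y) : ℤ) := by positivity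
    change |tt m A (x⁻¹ * y)| ≤ ((C1 + C2 : ℕ) : ℤ) * (m.len (x⁻¹ * y) : ℤ)
    push_cast
    nlinarith
  · intro x y
    rw [key]
    have h1 := hC2 (x⁻¹ * y)
    have h4 : (0 : ℤ) ≤ C1 * |tt m A (x⁻¹ * y)| := by positivity
    change (m.len (x⁻¹ * y) : ℤ) ≤ ((C1 + C2 : ℕ) : ℤ) * |tt m A (x⁻¹ * y)| + ((C1 + C2 : ℕ) : ℤ)
    push_cast
    nlinarith

end Pool.Agent.H351.QE.TWO
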